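import Mathlib

/-! States and moves of the construction of a computable copy with exactly two computable orders. -/

namespace Pool.Agent.Helper578.OG

open Nat.Partrec (Code)

/-- Evaluation of an integer word at a sequence of elements of an abelian group. -/
noncomputable def ev {M : Type} [AddCommGroup M] (m : List ℤ) (x : ℕ → M) : M :=
  ∑ i ∈ Finset.range m.length, (m.getD i 0) • x i

/-- The states: counter, denominator, rows, images, positions, functional, done list. -/
abbrev St : Type := ℕ × ℤ × List (List ℤ) × List ℕ × List ℕ × List ℤ × List ℕ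

/-- The counter. -/
def sc (s : St) : ℕ := s.1
/-- The common denominator. -/
def sN (s : St) : ℤ := s.2.1
/-- The coordinate rows of the generators. -/
def sA (s : St) : List (List ℤ) := s.2.2.1
/-- The images of the generators. -/
def su (s : St) : List ℕ := s.2.2.2.1
/-- The generators naming the believed basis. -/
def sg (s : St) : List ℕ := s.2.2.2.2.1
/-- The functional. -/
def sr (s : St) : List ℤ := s.2.2.2.2.2.1
/-- The requirements which are done. -/
def sd (s : St) : List ℕ := s.2.2.2.2.2.2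

/-- Entries of the coordinate matrix. -/
def ent (s : St) (i j : ℕ) : ℤ := ((sA s).getD i []).getD j 0

/-- Number of positions. -/
def rk (s : St) : ℕ := (sg s).length

/-- The word with a given code. -/
def wd (i : ℕ) : List ℤ := (Encodable.decode (α := List ℤ) i).getD []

/-- The relation `(z, l)` with a given code. -/
def rl (i : ℕ) : ℕ × List ℤ := (Encodable.decode (α := ℕ × List ℤ) i).getD (0, [])

/-- Formal coordinate of a word. -/
noncomputable def wc (s : St) (m : List ℤ) (j : ℕ) : ℤ := ev m (fun i => ent s i j)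

/-- Value of a row under the functional. -/
noncomputable def rv (s : St) (i : ℕ) : ℤ := ev (sr s) (fun j => ent s i j)

/-- Value of a word. -/
noncomputable def wl (s : St) (m : List ℤ) : ℤ := ev m (rv s)

/-- The word naming a generator. -/
def unitw (i : ℕ) : List ℤ := List.replicate i 0 ++ [1]

/-- Value of the `e`-th partial computable function at a word, with bounded search. -/
def pv (c e : ℕ) (m : List ℤ) : Option ℕ :=
  Code.evaln c (Denumerable.ofNat Code e) (Encodable.encode m)

/-- Sign given by the `e`-th function to a word. -/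
def qs (c e : ℕ) (m : List ℤ) : ℤ := if pv c e m = some 1 then 1 else -1

/-- Known disagreement. -/
def dis (s : St) (e i : ℕ) : Prop :=
  0 < wl s (wd i) ∧ (pv (sc s) e (wd i)).isSome = true ∧ (pv (sc s) e [1]).isSome = true ∧
    qs (sc s) e (wd i) ≠ qs (sc s) e [1]

/-- Level at most `k`. -/
def low (s : St) (m : List ℤ) (k : ℕ) : Prop := ∀ j < rk s, k ≤ j → wc s m j = 0

/-- Second type of attention: there is a known disagreement, but none of low level. -/
def ready2 (s : St) (e : ℕ) : Prop :=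
  (∃ i < sc s, dis s e i) ∧ ¬ ∃ i < sc s, dis s e i ∧ low s (wd i) (e + 2)

/-- A usable disagreement of low level. -/
def disx (s : St) (e i : ℕ) : Prop :=
  dis s e i ∧ low s (wd i) (e + 2) ∧ ∃ j < rk s, 1 ≤ j ∧ wc s (wd i) j ≠ 0

/-- First type of attention. -/
def ready1 (s : St) (e : ℕ) : Prop :=
  (∀ j < (sd s).length, (sd s).getD j 0 ≠ e) ∧ e + 3 ≤ rk s ∧ (∃ i < sc s, disx s e i) ∧
    ∀ j < e + 3, (pv (sc s) e (unitw ((sg s).getD j 0))).isSome = true

section
variable {H : Type} [AddCommGroup H] (ν : ℕ ≃ H)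

/-- Image of a generator. -/
def uH (s : St) (i : ℕ) : H := ν ((su s).getD i 0)

/-- Image of a word. -/
noncomputable def wh (s : St) (m : List ℤ) : H := ev m (uH ν s)

/-- The element at a position. -/
def bb (s : St) (j : ℕ) : H := uH ν s ((sg s).getD j 0)

/-- A wrong belief is discovered. -/
def viol (s : St) : Prop :=
  ∃ i < sc s + 1, wh ν s (wd i) = 0 ∧ ∃ j < rk s, wc s (wd i) j ≠ 0

/-- General drop is required. -/
def gdrop (s : St) : Prop :=
  viol ν s ∨ ∃ e < sc s + 1, ready2 s e ∨ (ready1 s e ∧ e + 3 < rk s)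

/-- Special drop is required. -/
def sdrop (s : St) : Prop := 3 ≤ rk s ∧ ready1 s (rk s - 3)

/-- The relation with code `i` holds for the element `J`. -/
def rel (s : St) (i J : ℕ) : Prop :=
  (rl i).2.length ≤ rk s ∧ ((rl i).1 + 1) • ν J = ev (rl i).2 (bb ν s)

/-- The element attended to. -/
def att (s : St) : ℕ := ((sc s) / 2).unpair.1

/-- Covering step. -/
def cov (s : St) : Prop := (sc s) % 2 = 1 ∧ ∃ i < sc s, rel ν s i (att s)

/-- The certificates: new state, auxiliary number, word `D`, positive integer. -/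
abbrev Cert : Type := St × ℕ × List ℤ × ℤ

/-- Common part of all moves: signs of the committed words are preserved. -/
def signOK (s s' : St) : Prop :=
  0 < (sr s').getD 0 0 ∧ ∀ i < sc s, Int.sign (wl s' (wd i)) = Int.sign (wl s (wd i))

/-- The drop move with word `D`. -/
def dropRel (s s' : St) (D : List ℤ) : Prop :=
  signOK s s' ∧ sc s' = sc s ∧ sN s' = sN s ∧ (sA s').length = (sA s).length ∧
  (su s').length = (su s).length ∧ rk s' + 1 = rk s ∧
  (∀ j < rk s', (sg s').getD j 0 = (sg s).getD j 0) ∧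
  D.length ≤ (sA s).length ∧ 0 < wc s D (rk s') ∧
  (∀ i < (sA s).length, (ent s i (rk s')) % (wc s D (rk s')) = 0) ∧
  (∀ i < (sA s).length, ((sA s').getD i []).length ≤ rk s') ∧
  (∀ i < (sA s).length, ∀ j < rk s, ent s' i j =
    ent s i j - (ent s i (rk s') / wc s D (rk s')) * wc s D j) ∧
  (∀ i < (sA s).length, (su s').getD i 0 =
    ν.symm (uH ν s i - (ent s i (rk s') / wc s D (rk s')) • wh ν s D))

/-- The extra condition of a special drop, killing requirement `e = rk s - 3` with disagreement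
`wd i`. -/
def specRel (s s' : St) (i : ℕ) (Kx : ℤ) : Prop :=
  i < sc s ∧ disx s (rk s - 3) i ∧ 0 < Kx ∧
  ∀ j < rk s', qs (sc s) (rk s - 3) (unitw ((sg s).getD j 0)) *
    (qs (sc s) (rk s - 3) (unitw ((sg s).getD (rk s') 0)) * ent s' ((sg s).getD (rk s') 0) j
      + Kx * qs (sc s) (rk s - 3) (wd i) * wc s (wd i) j) < 0

/-- Nonvanishing at the committed words. -/
def nonvan (s' : St) : Prop :=
  ∀ i < sc s', wl s' (wd i) = 0 → ∀ j < rk s', wc s' (wd i) j = 0

/-- The covering move using the relation with code `i`. -/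
def covRel (s s' : St) (i : ℕ) : Prop :=
  rel ν s i (att s) ∧ (∀ i' < i, ¬ rel ν s i' (att s)) ∧
  signOK s s' ∧ nonvan s' ∧ sc s' = sc s + 1 ∧ sN s' = ((rl i).1 + 1 : ℤ) * sN s ∧
  (sA s').length = (sA s).length + 1 ∧ (su s').length = (su s).length + 1 ∧
  rk s' = rk s ∧ (∀ j < rk s, (sg s').getD j 0 = (sg s).getD j 0) ∧ sd s' = sd s ∧
  (∀ i' < (sA s').length, ((sA s').getD i' []).length ≤ rk s') ∧
  (∀ i' < (sA s).length, ∀ j < rk s, ent s' i' j = ((rl i).1 + 1 : ℤ) * ent s i' j) ∧
  (∀ j < rk s, ent s' (sA s).length j = sN s * (rl i).2.getD j 0) ∧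
  (∀ i' < (sA s).length, (su s').getD i' 0 = (su s).getD i' 0) ∧
  (su s').getD (sA s).length 0 = att s

/-- The appending move with new element `J`. -/
def appRel (s s' : St) (J : ℕ) : Prop :=
  (∀ i < sc s, ¬ rel ν s i J) ∧ (∀ J' < J, ∃ i < sc s, rel ν s i J') ∧
  signOK s s' ∧ nonvan s' ∧ sc s' = sc s + 1 ∧ sN s' = sN s ∧
  (sA s').length = (sA s).length + 1 ∧ (su s').length = (su s).length + 1 ∧
  rk s' = rk s + 1 ∧ (∀ j < rk s, (sg s').getD j 0 = (sg s).getD j 0) ∧
  (sg s').getD (rk s) 0 = (sA s).length ∧ sd s' = sd s ∧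
  (∀ i' < (sA s').length, ((sA s').getD i' []).length ≤ rk s') ∧
  (∀ i' < (sA s).length, ∀ j < rk s', ent s' i' j = ent s i' j) ∧
  (∀ j < rk s', ent s' (sA s).length j = if j = rk s then sN s else 0) ∧
  (∀ i' < (sA s).length, (su s').getD i' 0 = (su s).getD i' 0) ∧
  (su s').getD (sA s).length 0 = J

/-- The checked relation between a state and a certificate. -/
def Chk (s : St) (y : Cert) : Prop :=
  (gdrop ν s ∧ dropRel ν s y.1 y.2.2.1 ∧ sd y.1 = sd s) ∨
  (¬ gdrop ν s ∧ sdrop s ∧ dropRel ν s y.1 y.2.2.1 ∧ specRel s y.1 y.2.1 y.2.2.2 ∧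
    sd y.1 = (rk s - 3) :: sd s) ∨
  (¬ gdrop ν s ∧ ¬ sdrop s ∧ cov ν s ∧ covRel ν s y.1 y.2.1) ∨
  (¬ gdrop ν s ∧ ¬ sdrop s ∧ ¬ cov ν s ∧ appRel ν s y.1 y.2.1)

end

end Pool.Agent.Helper578.OG
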