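import Pool.Agent.Helper578.OG.Defs

/-! Basic facts about the evaluation of words. -/

namespace Pool.Agent.Helper578.OG

/-- The word of length `q` with given coefficients. -/
def toW (q : ℕ) (f : ℕ → ℤ) : List ℤ := (List.range q).map f

theorem length_toW (q : ℕ) (f : ℕ → ℤ) : (toW q f).length = q := by simp [toW]

theorem getD_toW (q : ℕ) (f : ℕ → ℤ) (i : ℕ) : (toW q f).getD i 0 = if i < q then f i else 0 := by
  unfold toW
  by_cases h : i < q
  · rw [if_pos h, List.getD_eq_getElem?_getD, List.getElem?_map, List.getElem?_range h]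
    rfl
  · rw [if_neg h, List.getD_eq_getElem?_getD, List.getElem?_eq_none]
    · rfl
    · simpa using h

section
variable {M : Type} [AddCommGroup M]

theorem ev_eq (m : List ℤ) (x : ℕ → M) {n : ℕ} (h : m.length ≤ n) :
    ev m x = ∑ i ∈ Finset.range n, (m.getD i 0) • x i := by
  unfold ev
  apply Finset.sum_subset
  · intro i hi
    exact Finset.mem_range.2 (lt_of_lt_of_le (Finset.mem_range.1 hi) h)
  · intro i _ hi
    rw [Finset.mem_range, not_lt] at hi
    rw [List.getD_eq_default _ _ hi, zero_smul]

theorem ev_toW (q : ℕ) (f : ℕ → ℤ) (x : ℕ → M) :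
    ev (toW q f) x = ∑ i ∈ Finset.range q, f i • x i := by
  unfold ev
  rw [length_toW]
  apply Finset.sum_congr rfl
  intro i hi
  rw [getD_toW, if_pos (Finset.mem_range.1 hi)]

theorem ev_congr (m : List ℤ) {x y : ℕ → M} (h : ∀ i < m.length, x i = y i) :
    ev m x = ev m y := by
  unfold ev
  apply Finset.sum_congr rfl
  intro i hi
  rw [h i (Finset.mem_range.1 hi)]

theorem ev_hom {M' : Type} [AddCommGroup M'] (φ : M →+ M') (m : List ℤ) (x : ℕ → M) :
    φ (ev m x) = ev m (fun i => φ (x i)) := by
  unfold ev
  rw [map_sum]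
  apply Finset.sum_congr rfl
  intro i _
  rw [map_zsmul]

theorem ev_smul (m : List ℤ) (x : ℕ → M) (k : ℤ) :
    ev m (fun i => k • x i) = k • ev m x := by
  unfold ev
  rw [Finset.smul_sum]
  apply Finset.sum_congr rfl
  intro i _
  rw [smul_comm]

theorem ev_add (m : List ℤ) (x y : ℕ → M) :
    ev m (fun i => x i + y i) = ev m x + ev m y := by
  unfold ev
  rw [← Finset.sum_add_distrib]
  apply Finset.sum_congr rfl
  intro i _
  rw [smul_add]

theorem ev_sub (m : List ℤ) (x y : ℕ → M) :
    ev m (fun i => x i - y i) = ev m x - ev m y := by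
  unfold ev
  rw [← Finset.sum_sub_distrib]
  apply Finset.sum_congr rfl
  intro i _
  rw [smul_sub]

theorem ev_zero (m : List ℤ) : ev m (fun _ => (0 : M)) = 0 := by
  unfold ev
  simp

theorem ev_sum {ι : Type} (m : List ℤ) (t : Finset ι) (x : ℕ → ι → M) :
    ev m (fun i => ∑ j ∈ t, x i j) = ∑ j ∈ t, ev m (fun i => x i j) := by
  unfold ev
  rw [Finset.sum_comm]
  apply Finset.sum_congr rfl
  intro i _
  rw [Finset.smul_sum]

/-- Sum over the coefficients of a scalar function times a fixed element. -/
theorem ev_mul_right (m : List ℤ) (f : ℕ → ℤ) (x : M) :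
    ev m (fun i => f i • x) = (ev m f) • x := by
  unfold ev
  rw [Finset.sum_smul]
  apply Finset.sum_congr rfl
  intro i _
  rw [smul_smul, smul_eq_mul]

theorem ev_unitw (i : ℕ) (x : ℕ → M) : ev (unitw i) x = x i := by
  have hl : (unitw i).length = i + 1 := by simp [unitw]
  unfold ev
  rw [hl, Finset.sum_range_succ]
  have h1 : (unitw i).getD i 0 = 1 := by
    simp [unitw, List.getD_eq_getElem?_getD]
  rw [h1, one_smul, Finset.sum_eq_zero, zero_add]
  intro j hj
  rw [Finset.mem_range] at hj
  have h2 : (unitw i).getD j 0 = 0 := by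
    unfold unitw
    rw [List.getD_eq_getElem?_getD, List.getElem?_append_left (by simpa using hj)]
    simp [hj]
  rw [h2, zero_smul]

/-- Linear combination of words. -/
def addW (m m' : List ℤ) : List ℤ :=
  toW (max m.length m'.length) (fun i => m.getD i 0 + m'.getD i 0)

theorem length_addW (m m' : List ℤ) : (addW m m').length = max m.length m'.length :=
  length_toW _ _

theorem ev_addW (m m' : List ℤ) (x : ℕ → M) : ev (addW m m') x = ev m x + ev m' x := by
  unfold addW
  rw [ev_toW, ev_eq m x (le_max_left m.length m'.length),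
    ev_eq m' x (le_max_right m.length m'.length), ← Finset.sum_add_distrib]
  apply Finset.sum_congr rfl
  intro i _
  rw [add_smul]

/-- Scalar multiple of a word. -/
def mulW (k : ℤ) (m : List ℤ) : List ℤ := toW m.length (fun i => k * m.getD i 0)

theorem length_mulW (k : ℤ) (m : List ℤ) : (mulW k m).length = m.length := length_toW _ _

theorem ev_mulW (k : ℤ) (m : List ℤ) (x : ℕ → M) : ev (mulW k m) x = k • ev m x := by
  unfold mulW
  rw [ev_toW]
  unfold ev
  rw [Finset.smul_sum]
  apply Finset.sum_congr rfl
  intro i _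
  rw [smul_smul]

/-- Sum of a family of words. -/
theorem exists_sumW (n : ℕ) (W : ℕ → List ℤ) (q : ℕ) (hq : ∀ j < n, (W j).length ≤ q) :
    ∃ m : List ℤ, m.length ≤ q ∧ ∀ (M : Type) [AddCommGroup M] (x : ℕ → M),
      ev m x = ∑ j ∈ Finset.range n, ev (W j) x := by
  refine ⟨toW q (fun i => ∑ j ∈ Finset.range n, (W j).getD i 0), (length_toW _ _).le, ?_⟩
  intro M _ x
  rw [ev_toW]
  simp_rw [Finset.sum_smul]
  rw [Finset.sum_comm]
  apply Finset.sum_congr rfl
  intro j hj
  rw [ev_eq (W j) x (hq j (Finset.mem_range.1 hj))]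

end

theorem wd_encode (m : List ℤ) : wd (Encodable.encode m) = m := by
  unfold wd
  rw [Encodable.encodek]
  rfl

theorem length_wd_le (i : ℕ) : (wd i).length ≤ i := by
  unfold wd
  rcases h : Encodable.decode (α := List ℤ) i with _ | m
  · exact Nat.zero_le _
  · have h1 : Encodable.encode m = i := by
      have h2 : Encodable.decode (α := List ℤ) i = some (Denumerable.ofNat (List ℤ) i) :=
        Denumerable.decode_eq_ofNat (List ℤ) i
      rw [h2] at h
      have h3 : Denumerable.ofNat (List ℤ) i = m := Option.some_inj.1 h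
      rw [← h3]
      exact Denumerable.encode_ofNat (α := List ℤ) i
    have h4 := Encodable.length_le_encode m
    rw [h1] at h4
    exact h4

theorem rl_encode (p : ℕ × List ℤ) : rl (Encodable.encode p) = p := by
  unfold rl
  rw [Encodable.encodek]
  rfl

theorem length_rl_le (i : ℕ) : (rl i).2.length ≤ i := by
  unfold rl
  rcases h : Encodable.decode (α := ℕ × List ℤ) i with _ | p
  · exact Nat.zero_le _
  · have h1 : Encodable.encode p = i := by
      have h2 : Encodable.decode (α := ℕ × List ℤ) i =
          some (Denumerable.ofNat (ℕ × List ℤ) i) :=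
        Denumerable.decode_eq_ofNat (ℕ × List ℤ) i
      rw [h2] at h
      have h3 : Denumerable.ofNat (ℕ × List ℤ) i = p := Option.some_inj.1 h
      rw [← h3]
      exact Denumerable.encode_ofNat (α := ℕ × List ℤ) i
    have h4 := Encodable.length_le_encode p.2
    have h5 : Encodable.encode p.2 ≤ Encodable.encode p := by
      rw [show p = (p.1, p.2) from rfl, Encodable.encode_prod_val]
      exact Nat.right_le_pair _ _
    rw [h1] at h5
    exact h4.trans h5

theorem wl_eq (s : St) (m : List ℤ) :
    wl s m = ∑ j ∈ Finset.range (sr s).length, (sr s).getD j 0 * wc s m j := by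
  unfold wl rv wc
  have h : ∀ i, ev (sr s) (fun j => ent s i j) =
      ∑ j ∈ Finset.range (sr s).length, (sr s).getD j 0 * ent s i j := fun i => rfl
  have h2 : (fun i => ev (sr s) (fun j => ent s i j)) =
      fun i => ∑ j ∈ Finset.range (sr s).length, (sr s).getD j 0 * ent s i j := by
    funext i; exact h i
  rw [h2, ev_sum]
  apply Finset.sum_congr rfl
  intro j _
  have := ev_smul m (fun i => ent s i j) ((sr s).getD j 0)
  simpa [smul_eq_mul] using this

end Pool.Agent.Helper578.OG
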