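import Pool.Agent.Helper578.OG.Defs

namespace Pool.Agent.Helper578.OG



theorem ev_eq_of_le {M : Type} [AddCommGroup M] (m : List ℤ) (x : ℕ → M) {k : ℕ}
    (h : m.length ≤ k) : ev m x = ∑ i ∈ Finset.range k, (m.getD i 0) • x i := by
  unfold ev
  apply Finset.sum_subset (Finset.range_mono h)
  intro i _ hi
  rw [Finset.mem_range, not_lt] at hi
  rw [List.getD_eq_default _ _ hi, zero_smul]

/-- In a group of infinite rank every finite family misses an element. -/
theorem exists_indep {H : Type} [AddCommGroup H] (hr : Cardinal.aleph0 ≤ Module.rank ℤ H)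
    (k : ℕ) (b : ℕ → H) :
    ∃ h : H, ∀ (z : ℕ) (l : List ℤ), l.length ≤ k → (z + 1) • h ≠ ev l b := by
  classical
  by_contra hcon
  push Not at hcon
  choose z l hl hz using hcon
  have h1 : ((k + 1 : ℕ) : Cardinal) ≤ Module.rank ℤ H := (Cardinal.natCast_le_aleph0).trans hr
  obtain ⟨s, hs, hli0⟩ := exists_finset_linearIndependent_of_le_rank h1
  have hli : LinearIndependent ℤ (fun h : s => (h : H)) := hli0
  set L : s → (Fin k → ℤ) := fun h i => (l h.1).getD i 0 with hL
  have hnot : ¬ LinearIndependent ℤ L := by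
    intro hind
    have h2 := hind.fintype_card_le_finrank
    rw [Module.finrank_fin_fun, Fintype.card_coe, hs] at h2
    omega
  rw [Fintype.not_linearIndependent_iff] at hnot
  obtain ⟨g, hg, h0, hg0⟩ := hnot
  have h3 : ∑ h : s, (g h * ((z h.1 : ℤ) + 1)) • (h : H) = 0 := by
    have h4 : ∀ h : s, (g h * ((z h.1 : ℤ) + 1)) • (h : H) =
        ∑ i : Fin k, (g h * L h i) • b i := by
      intro h
      have h5 : (((z h.1 : ℤ) + 1)) • (h : H) = ∑ i : Fin k, (L h i) • b i := by
        have h6 := hz h.1
        rw [ev_eq_of_le _ _ (hl h.1), ← Fin.sum_univ_eq_sum_range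
          (fun i => ((l h.1).getD i 0) • b i)] at h6
        rw [← h6]
        have : ((z h.1 : ℤ) + 1) = ((z h.1 + 1 : ℕ) : ℤ) := by push_cast; ring
        rw [this, natCast_zsmul]
      rw [mul_smul, h5, Finset.smul_sum]
      apply Finset.sum_congr rfl
      intro i _
      rw [mul_smul]
    rw [Finset.sum_congr rfl (fun h _ => h4 h), Finset.sum_comm]
    apply Finset.sum_eq_zero
    intro i _
    rw [← Finset.sum_smul]
    have h7 := congrFun hg i
    simp only [Finset.sum_apply, Pi.smul_apply, smul_eq_mul, Pi.zero_apply] at h7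
    rw [h7, zero_smul]
  have h8 := Fintype.linearIndependent_iff.1 hli (fun h => g h * ((z h.1 : ℤ) + 1)) h3 h0
  rcases mul_eq_zero.1 h8 with h9 | h9
  · exact hg0 h9
  · omega

end Pool.Agent.Helper578.OG
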