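import Mathlib

namespace Pool.Agent.Helper578.OG

open Encodable

theorem encode_int_ofNat_j3 (n : ℕ) : encode (n : ℤ) = 2 * n := rfl
theorem encode_int_negSucc_j3 (n : ℕ) : encode (Int.negSucc n) = 2 * n + 1 := rfl

theorem prim_toNat_j3 : Primrec Int.toNat := by
  have h : Primrec (fun n : ℕ => if n % 2 = 0 then n / 2 else 0) := by
    refine Primrec.ite ?_ ?_ (Primrec.const 0)
    · exact Primrec.eq.comp (Primrec.nat_mod.comp Primrec.id (Primrec.const 2)) (Primrec.const 0)
    · exact Primrec.nat_div.comp Primrec.id (Primrec.const 2)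
  refine (h.comp Primrec.encode).of_eq fun z => ?_
  cases z with
  | ofNat n =>
    show (if (encode (n : ℤ)) % 2 = 0 then (encode (n : ℤ)) / 2 else 0) = n
    rw [encode_int_ofNat_j3, if_pos (by omega)]; omega
  | negSucc n =>
    show (if (encode (Int.negSucc n)) % 2 = 0 then (encode (Int.negSucc n)) / 2 else 0) = 0
    rw [encode_int_negSucc_j3, if_neg (by omega)]

theorem prim_toNat_neg_j3 : Primrec (fun z : ℤ => (-z).toNat) := by
  have h : Primrec (fun n : ℕ => if n % 2 = 0 then 0 else n / 2 + 1) := by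
    refine Primrec.ite ?_ (Primrec.const 0) ?_
    · exact Primrec.eq.comp (Primrec.nat_mod.comp Primrec.id (Primrec.const 2)) (Primrec.const 0)
    · exact Primrec.succ.comp (Primrec.nat_div.comp Primrec.id (Primrec.const 2))
  refine (h.comp Primrec.encode).of_eq fun z => ?_
  cases z with
  | ofNat n =>
    show (if (encode (n : ℤ)) % 2 = 0 then 0 else (encode (n : ℤ)) / 2 + 1) = (-(n:ℤ)).toNat
    rw [encode_int_ofNat_j3, if_pos (by omega)]; omega
  | negSucc n =>
    show (if (encode (Int.negSucc n)) % 2 = 0 then 0 else (encode (Int.negSucc n)) / 2 + 1) =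
      (-(Int.negSucc n)).toNat
    rw [encode_int_negSucc_j3, if_neg (by omega)]
    rw [Int.neg_negSucc]
    simp
    omega

theorem prim_natSub_j3 : Primrec₂ (fun p q : ℕ => (p : ℤ) - (q : ℤ)) := by
  have h : Primrec₂ (fun p q : ℕ => if q ≤ p then 2 * (p - q) else 2 * (q - p) - 1) := by
    refine Primrec.ite ?_ ?_ ?_
    · exact Primrec.nat_le.comp Primrec.snd Primrec.fst
    · exact Primrec.nat_mul.comp (Primrec.const 2) (Primrec.nat_sub.comp Primrec.fst Primrec.snd)
    · exact Primrec.nat_sub.comp (Primrec.nat_mul.comp (Primrec.const 2)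
        (Primrec.nat_sub.comp Primrec.snd Primrec.fst)) (Primrec.const 1)
  refine Primrec.encode_iff.1 (Primrec.of_eq (α := ℕ × ℕ) h fun a => ?_)
  obtain ⟨p, q⟩ := a
  show (if q ≤ p then 2 * (p - q) else 2 * (q - p) - 1) = encode ((p : ℤ) - (q : ℤ))
  split_ifs with hq
  · have : (p : ℤ) - q = ((p - q : ℕ) : ℤ) := by omega
    rw [this, encode_int_ofNat_j3]
  · have : (p : ℤ) - q = Int.negSucc (q - p - 1) := by
      rw [Int.negSucc_eq]; omega
    rw [this, encode_int_negSucc_j3]; omega

theorem prim_natCast_j3 : Primrec (fun p : ℕ => (p : ℤ)) := by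
  refine (prim_natSub_j3.comp Primrec.id (Primrec.const 0)).of_eq fun n => ?_
  simp

theorem prim_int_of_parts_j3 (f : ℤ → ℤ → ℤ) (P N : ℕ → ℕ → ℕ → ℕ → ℕ)
    (hP : Primrec (fun a : (ℕ × ℕ) × (ℕ × ℕ) => P a.1.1 a.1.2 a.2.1 a.2.2))
    (hN : Primrec (fun a : (ℕ × ℕ) × (ℕ × ℕ) => N a.1.1 a.1.2 a.2.1 a.2.2))
    (h : ∀ x y, f x y = (P x.toNat (-x).toNat y.toNat (-y).toNat : ℤ) -
      (N x.toNat (-x).toNat y.toNat (-y).toNat : ℤ)) : Primrec₂ f := by
  have hx : Primrec (fun a : ℤ × ℤ => ((a.1.toNat, (-a.1).toNat), (a.2.toNat, (-a.2).toNat))) :=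
    Primrec.pair (Primrec.pair (prim_toNat_j3.comp Primrec.fst) (prim_toNat_neg_j3.comp Primrec.fst))
      (Primrec.pair (prim_toNat_j3.comp Primrec.snd) (prim_toNat_neg_j3.comp Primrec.snd))
  refine (prim_natSub_j3.comp (hP.comp hx) (hN.comp hx)).of_eq fun a => ?_
  exact (h a.1 a.2).symm

theorem prim_int_add_j3 : Primrec₂ (fun x y : ℤ => x + y) := by
  refine prim_int_of_parts_j3 _ (fun a b c d => a + c) (fun a b c d => b + d) ?_ ?_ ?_
  · exact Primrec.nat_add.comp (Primrec.fst.comp Primrec.fst) (Primrec.fst.comp Primrec.snd)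
  · exact Primrec.nat_add.comp (Primrec.snd.comp Primrec.fst) (Primrec.snd.comp Primrec.snd)
  · intro x y; push_cast; omega

theorem prim_int_neg_j3 : Primrec (fun x : ℤ => - x) := by
  have h : Primrec₂ (fun x _y : ℤ => - x) := by
    refine prim_int_of_parts_j3 _ (fun a b c d => b) (fun a b c d => a) ?_ ?_ ?_
    · exact (Primrec.snd.comp Primrec.fst)
    · exact (Primrec.fst.comp Primrec.fst)
    · intro x y; omega
  exact h.comp Primrec.id Primrec.id

theorem prim_int_sub_j3 : Primrec₂ (fun x y : ℤ => x - y) := by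
  refine prim_int_of_parts_j3 _ (fun a b c d => a + d) (fun a b c d => b + c) ?_ ?_ ?_
  · exact Primrec.nat_add.comp (Primrec.fst.comp Primrec.fst) (Primrec.snd.comp Primrec.snd)
  · exact Primrec.nat_add.comp (Primrec.snd.comp Primrec.fst) (Primrec.fst.comp Primrec.snd)
  · intro x y; push_cast; omega

theorem prim_int_mul_j3 : Primrec₂ (fun x y : ℤ => x * y) := by
  refine prim_int_of_parts_j3 _ (fun a b c d => a * c + b * d) (fun a b c d => a * d + b * c) ?_ ?_ ?_
  · exact Primrec.nat_add.comp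
      (Primrec.nat_mul.comp (Primrec.fst.comp Primrec.fst) (Primrec.fst.comp Primrec.snd))
      (Primrec.nat_mul.comp (Primrec.snd.comp Primrec.fst) (Primrec.snd.comp Primrec.snd))
  · exact Primrec.nat_add.comp
      (Primrec.nat_mul.comp (Primrec.fst.comp Primrec.fst) (Primrec.snd.comp Primrec.snd))
      (Primrec.nat_mul.comp (Primrec.snd.comp Primrec.fst) (Primrec.fst.comp Primrec.snd))
  · intro x y
    push_cast
    have hx : x = (x.toNat : ℤ) - ((-x).toNat : ℤ) := by omega
    have hy : y = (y.toNat : ℤ) - ((-y).toNat : ℤ) := by omega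
    generalize (x.toNat : ℤ) = a at *
    generalize ((-x).toNat : ℤ) = b at *
    generalize (y.toNat : ℤ) = c at *
    generalize ((-y).toNat : ℤ) = d at *
    rw [hx, hy]
    ring



theorem comp_find_j3 {α : Type} [Primcodable α] (P : α → ℕ → Bool) (hP : Computable₂ P)
    (H : ∀ a, ∃ n, P a n = true) : Computable fun a => Nat.find (H a) := by
  have h1 : Partrec fun a => Nat.rfind (fun n => (Part.some (P a n) : Part Bool)) :=
    Partrec.rfind hP.partrec₂
  refine h1.of_eq fun a => ?_
  apply Part.eq_some_iff.2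
  refine Nat.mem_rfind.2 ⟨?_, ?_⟩
  · rw [Nat.find_spec (H a)]
    exact Part.mem_some _
  · intro m hm
    have h2 : P a m = false := by
      have := Nat.find_min (H a) hm
      simpa using this
    rw [h2]
    exact Part.mem_some _

section grp
variable {H : Type} [AddCommGroup H] (ν : ℕ ≃ H)

theorem comp_neg_j3 (hν : Computable₂ (fun a b : ℕ => ν.symm (ν a + ν b))) :
    Computable (fun a : ℕ => ν.symm (- ν a)) := by
  have hP : Computable₂ (fun a b : ℕ => decide (ν.symm (ν a + ν b) = ν.symm 0)) := by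
    have h1 : Computable₂ (fun a b : ℕ => decide (a = b)) := Primrec.eq.decide.to_comp
    exact h1.comp (hν.comp Computable.fst Computable.snd) (Computable.const _)
  have hex : ∀ a : ℕ, ∃ b : ℕ, decide (ν.symm (ν a + ν b) = ν.symm 0) = true := by
    intro a
    refine ⟨ν.symm (- ν a), ?_⟩
    simp
  refine (comp_find_j3 _ hP hex).of_eq fun a => ?_
  have h := of_decide_eq_true (Nat.find_spec (hex a))
  have h2 : ν a + ν (Nat.find (hex a)) = 0 := ν.symm.injective h
  rw [neg_eq_of_add_eq_zero_right h2, Equiv.symm_apply_apply]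

theorem comp_nsmul_j3 (hν : Computable₂ (fun a b : ℕ => ν.symm (ν a + ν b))) :
    Computable₂ (fun k a : ℕ => ν.symm (k • ν a)) := by
  have h : Computable (fun p : ℕ × ℕ => (Nat.rec (motive := fun _ => ℕ) (ν.symm 0)
      (fun _ IH => ν.symm (ν IH + ν p.2)) p.1 : ℕ)) := by
    refine Computable.nat_rec (f := fun p : ℕ × ℕ => p.1) (g := fun _ => ν.symm 0)
      (h := fun p q => ν.symm (ν q.2 + ν p.2)) Computable.fst (Computable.const _) ?_
    exact hν.comp (Computable.snd.comp Computable.snd) (Computable.snd.comp Computable.fst)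
  refine h.of_eq fun p => ?_
  obtain ⟨k, a⟩ := p
  show (Nat.rec (motive := fun _ => ℕ) (ν.symm 0) (fun _ IH => ν.symm (ν IH + ν a)) k : ℕ) =
    ν.symm (k • ν a)
  induction k with
  | zero => simp
  | succ k ih =>
    show ν.symm (ν (Nat.rec (motive := fun _ => ℕ) (ν.symm 0) (fun _ IH => ν.symm (ν IH + ν a)) k : ℕ) + ν a) = _
    rw [ih, Equiv.apply_symm_apply, succ_nsmul]

theorem comp_zsmul_j3 (hν : Computable₂ (fun a b : ℕ => ν.symm (ν a + ν b))) :
    Computable₂ (fun (z : ℤ) (a : ℕ) => ν.symm (z • ν a)) := by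
  have hn := comp_nsmul_j3 ν hν
  have hneg := comp_neg_j3 ν hν
  have h1 : Computable (fun p : ℤ × ℕ => ν.symm (p.1.toNat • ν p.2)) :=
    hn.comp (prim_toNat_j3.to_comp.comp Computable.fst) Computable.snd
  have h2 : Computable (fun p : ℤ × ℕ => ν.symm ((-p.1).toNat • ν (ν.symm (- ν p.2)))) :=
    hn.comp (prim_toNat_neg_j3.to_comp.comp Computable.fst) (hneg.comp Computable.snd)
  refine (hν.comp h1 h2).of_eq fun p => ?_
  obtain ⟨z, a⟩ := p
  simp only [Equiv.apply_symm_apply]
  congr 1
  have hz : z = (z.toNat : ℤ) - ((-z).toNat : ℤ) := by omega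
  conv_rhs => rw [hz]
  rw [sub_smul, natCast_zsmul, natCast_zsmul, smul_neg, sub_eq_add_neg]

end grp

/-- Evaluation of an integer word at a list of elements of a computable group. -/
theorem computable_evH {H : Type} [AddCommGroup H] (ν : ℕ ≃ H)
    (hν : Computable₂ (fun a b : ℕ => ν.symm (ν a + ν b))) :
    Computable₂ (fun (m : List ℤ) (u : List ℕ) =>
      ν.symm (∑ i ∈ Finset.range m.length, (m.getD i 0) • ν (u.getD i 0))) := by
  have hz := comp_zsmul_j3 ν hν
  have hgm : Computable₂ (fun (l : List ℤ) (n : ℕ) => l.getD n 0) := (Primrec.list_getD 0).to_comp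
  have hgu : Computable₂ (fun (l : List ℕ) (n : ℕ) => l.getD n 0) := (Primrec.list_getD 0).to_comp
  have h : Computable (fun p : List ℤ × List ℕ => (Nat.rec (motive := fun _ => ℕ) (ν.symm 0)
      (fun i IH => ν.symm (ν IH + ν (ν.symm ((p.1.getD i 0) • ν (p.2.getD i 0))))) p.1.length : ℕ)) := by
    refine Computable.nat_rec (f := fun p : List ℤ × List ℕ => p.1.length) (g := fun _ => ν.symm 0)
      (h := fun p q => ν.symm (ν q.2 + ν (ν.symm ((p.1.getD q.1 0) • ν (p.2.getD q.1 0)))))
      (Computable.list_length.comp Computable.fst) (Computable.const _) ?_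
    refine hν.comp (Computable.snd.comp Computable.snd) ?_
    refine hz.comp ?_ ?_
    · exact hgm.comp (Computable.fst.comp Computable.fst) (Computable.fst.comp Computable.snd)
    · exact hgu.comp (Computable.snd.comp Computable.fst) (Computable.fst.comp Computable.snd)
  refine h.of_eq fun p => ?_
  obtain ⟨m, u⟩ := p
  have key : ∀ n : ℕ, (Nat.rec (motive := fun _ => ℕ) (ν.symm 0)
      (fun i IH => ν.symm (ν IH + ν (ν.symm ((m.getD i 0) • ν (u.getD i 0))))) n : ℕ) =
      ν.symm (∑ i ∈ Finset.range n, (m.getD i 0) • ν (u.getD i 0)) := by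
    intro n
    induction n with
    | zero => simp
    | succ n ih =>
      show ν.symm (ν (Nat.rec (motive := fun _ => ℕ) (ν.symm 0)
        (fun i IH => ν.symm (ν IH + ν (ν.symm ((m.getD i 0) • ν (u.getD i 0))))) n : ℕ) +
          ν (ν.symm ((m.getD n 0) • ν (u.getD n 0)))) = _
      rw [ih, Equiv.apply_symm_apply, Equiv.apply_symm_apply, Finset.sum_range_succ]
  exact key _

/-- Integer scalar product of lists. -/
theorem computable_evZ :
    Computable₂ (fun (m : List ℤ) (x : List ℤ) =>
      ∑ i ∈ Finset.range m.length, (m.getD i 0) * (x.getD i 0)) := by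
  have hadd : Computable₂ (fun x y : ℤ => x + y) := prim_int_add_j3.to_comp
  have hmul : Computable₂ (fun x y : ℤ => x * y) := prim_int_mul_j3.to_comp
  have hgm : Computable₂ (fun (l : List ℤ) (n : ℕ) => l.getD n 0) := (Primrec.list_getD 0).to_comp
  have h : Computable (fun p : List ℤ × List ℤ => (Nat.rec (motive := fun _ => ℤ) 0
      (fun i IH => IH + (p.1.getD i 0) * (p.2.getD i 0)) p.1.length : ℤ)) := by
    refine Computable.nat_rec (f := fun p : List ℤ × List ℤ => p.1.length) (g := fun _ => (0 : ℤ))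
      (h := fun p q => q.2 + (p.1.getD q.1 0) * (p.2.getD q.1 0))
      (Computable.list_length.comp Computable.fst) (Computable.const _) ?_
    refine hadd.comp (Computable.snd.comp Computable.snd) ?_
    refine hmul.comp ?_ ?_
    · exact hgm.comp (Computable.fst.comp Computable.fst) (Computable.fst.comp Computable.snd)
    · exact hgm.comp (Computable.snd.comp Computable.fst) (Computable.fst.comp Computable.snd)
  refine h.of_eq fun p => ?_
  obtain ⟨m, x⟩ := p
  have key : ∀ n : ℕ, (Nat.rec (motive := fun _ => ℤ) 0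
      (fun i IH => IH + (m.getD i 0) * (x.getD i 0)) n : ℤ) =
      ∑ i ∈ Finset.range n, (m.getD i 0) * (x.getD i 0) := by
    intro n
    induction n with
    | zero => simp
    | succ n ih =>
      show (Nat.rec (motive := fun _ => ℤ) 0
        (fun i IH => IH + (m.getD i 0) * (x.getD i 0)) n : ℤ) + (m.getD n 0) * (x.getD n 0) = _
      rw [ih, Finset.sum_range_succ]
  exact key _

end Pool.Agent.Helper578.OG
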