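import Pool.Agent.Helper578.OG.J1
import Pool.Agent.Helper578.OG.J3
import Pool.Agent.Helper578.OG.Defs
namespace Pool.Agent.Helper578.OG

open Encodable
open Nat.Partrec (Code)

/-- instance free version of: the predicate is decidable -/
def CPj4 {α : Type} [Primcodable α] (p : α → Prop) : Prop :=
  ∃ f : α → Bool, Computable f ∧ ∀ a, (f a = true ↔ p a)

section cp
variable {α β : Type} [Primcodable α] [Primcodable β] {p q : α → Prop}

theorem CPj4.congr (hp : CPj4 p) (h : ∀ a, p a ↔ q a) : CPj4 q := by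
  obtain ⟨f, hf, hf'⟩ := hp
  exact ⟨f, hf, fun a => (hf' a).trans (h a)⟩

theorem CPj4.and (hp : CPj4 p) (hq : CPj4 q) : CPj4 (fun a => p a ∧ q a) := by
  obtain ⟨f, hf, hf'⟩ := hp
  obtain ⟨g, hg, hg'⟩ := hq
  exact ⟨fun a => f a && g a, Primrec.and.to_comp.comp hf hg, fun a => by
    rw [Bool.and_eq_true, hf', hg']⟩

theorem CPj4.or (hp : CPj4 p) (hq : CPj4 q) : CPj4 (fun a => p a ∨ q a) := by
  obtain ⟨f, hf, hf'⟩ := hp
  obtain ⟨g, hg, hg'⟩ := hq
  exact ⟨fun a => f a || g a, Primrec.or.to_comp.comp hf hg, fun a => by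
    rw [Bool.or_eq_true, hf', hg']⟩

theorem CPj4.not (hp : CPj4 p) : CPj4 (fun a => ¬ p a) := by
  obtain ⟨f, hf, hf'⟩ := hp
  refine ⟨fun a => !(f a), Primrec.not.to_comp.comp hf, fun a => ?_⟩
  show (!(f a)) = true ↔ ¬ p a
  rw [Bool.not_eq_true', ← hf' a, Bool.not_eq_true]

theorem CPj4.imp (hp : CPj4 p) (hq : CPj4 q) : CPj4 (fun a => p a → q a) :=
  (hp.not.or hq).congr fun a => by tauto

theorem CPj4.iff (hp : CPj4 p) (hq : CPj4 q) : CPj4 (fun a => p a ↔ q a) :=
  ((hp.imp hq).and (hq.imp hp)).congr fun a => by tauto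

theorem CPj4.comp (hp : CPj4 p) {f : β → α} (hf : Computable f) : CPj4 (fun b => p (f b)) := by
  obtain ⟨g, hg, hg'⟩ := hp
  exact ⟨fun b => g (f b), hg.comp hf, fun b => hg' (f b)⟩

theorem CPj4.ball {p : α → ℕ → Prop} (hp : CPj4 (fun x : α × ℕ => p x.1 x.2)) {b : α → ℕ}
    (hb : Computable b) : CPj4 (fun a => ∀ i < b a, p a i) := by
  obtain ⟨g, hg, hg'⟩ := hp
  have hg2 : Computable₂ (fun a i => g (a, i)) := hg.comp (Computable.pair Computable.fst Computable.snd)
  refine ⟨_, computable_ball hg2 hb, fun a => ?_⟩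
  rw [decide_eq_true_eq]
  exact forall₂_congr fun i _ => hg' (a, i)

theorem CPj4.bex {p : α → ℕ → Prop} (hp : CPj4 (fun x : α × ℕ => p x.1 x.2)) {b : α → ℕ}
    (hb : Computable b) : CPj4 (fun a => ∃ i < b a, p a i) := by
  obtain ⟨g, hg, hg'⟩ := hp
  have hg2 : Computable₂ (fun a i => g (a, i)) := hg.comp (Computable.pair Computable.fst Computable.snd)
  refine ⟨_, computable_bex hg2 hb, fun a => ?_⟩
  rw [decide_eq_true_eq]
  exact exists_congr fun i => and_congr_right fun _ => hg' (a, i)

theorem CPj4.eq [DecidableEq β] {f g : α → β} (hf : Computable f) (hg : Computable g) :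
    CPj4 (fun a => f a = g a) :=
  ⟨fun a => decide (f a = g a), Primrec.eq.decide.to_comp.comp hf hg, fun a => decide_eq_true_iff⟩

theorem CPj4.nlt {f g : α → ℕ} (hf : Computable f) (hg : Computable g) :
    CPj4 (fun a => f a < g a) :=
  ⟨fun a => decide (f a < g a), Primrec.nat_lt.decide.to_comp.comp hf hg, fun a => decide_eq_true_iff⟩

theorem CPj4.nle {f g : α → ℕ} (hf : Computable f) (hg : Computable g) :
    CPj4 (fun a => f a ≤ g a) :=
  ⟨fun a => decide (f a ≤ g a), Primrec.nat_le.decide.to_comp.comp hf hg, fun a => decide_eq_true_iff⟩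

theorem CPj4.ilt {f g : α → ℤ} (hf : Computable f) (hg : Computable g) :
    CPj4 (fun a => f a < g a) := by
  have h1 : Computable (fun a => (g a - f a).toNat) :=
    prim_toNat_j3.to_comp.comp (prim_int_sub_j3.to_comp.comp hg hf)
  exact (CPj4.nlt (Computable.const 0) h1).congr fun a => by omega

theorem CPj4.isSome {f : α → Option β} (hf : Computable f) : CPj4 (fun a => (f a).isSome = true) :=
  ⟨fun a => (f a).isSome, Primrec.option_isSome.to_comp.comp hf, fun _ => Iff.rfl⟩

theorem CPj4.ite {f g : α → β} (hp : CPj4 p) [DecidablePred p] (hf : Computable f) (hg : Computable g) :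
    Computable (fun a => if p a then f a else g a) := by
  obtain ⟨c, hc, hc'⟩ := hp
  refine (Computable.cond hc hf hg).of_eq fun a => ?_
  by_cases h : p a
  · rw [if_pos h, (hc' a).2 h]; rfl
  · have : c a = false := by
      cases hca : c a
      · rfl
      · exact absurd ((hc' a).1 hca) h
    rw [if_neg h, this]; rfl

theorem CPj4.computable [DecidablePred p] (hp : CPj4 p) : Computable (fun a => decide (p a)) := by
  obtain ⟨f, hf, hf'⟩ := hp
  refine hf.of_eq fun a => ?_
  rw [Bool.eq_iff_iff, decide_eq_true_eq]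
  exact hf' a

end cp

theorem prim_int_ediv_j4 : Primrec₂ (fun x y : ℤ => x / y) := by
  refine prim_int_of_parts_j3 _ (fun a b c d => a / c + (b + d - 1) / d)
    (fun a b c d => (b + c - 1) / c + a / d) ?_ ?_ ?_
  · exact Primrec.nat_add.comp
      (Primrec.nat_div.comp (Primrec.fst.comp Primrec.fst) (Primrec.fst.comp Primrec.snd))
      (Primrec.nat_div.comp (Primrec.nat_sub.comp
        (Primrec.nat_add.comp (Primrec.snd.comp Primrec.fst) (Primrec.snd.comp Primrec.snd))
        (Primrec.const 1)) (Primrec.snd.comp Primrec.snd))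
  · exact Primrec.nat_add.comp
      (Primrec.nat_div.comp (Primrec.nat_sub.comp
        (Primrec.nat_add.comp (Primrec.snd.comp Primrec.fst) (Primrec.fst.comp Primrec.snd))
        (Primrec.const 1)) (Primrec.fst.comp Primrec.snd))
      (Primrec.nat_div.comp (Primrec.fst.comp Primrec.fst) (Primrec.snd.comp Primrec.snd))
  · have key : ∀ x y : ℤ, 0 < y → x / y = (x.toNat / y.toNat : ℕ) -
        (((-x).toNat + y.toNat - 1) / y.toNat : ℕ) := by
      intro x y hy
      obtain ⟨k, rfl⟩ : ∃ k : ℕ, y = k := ⟨y.toNat, by omega⟩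
      have hk : 0 < k := by exact_mod_cast hy
      rw [Int.toNat_natCast]
      rcases le_total 0 x with hx | hx
      · obtain ⟨l, rfl⟩ : ∃ l : ℕ, x = l := ⟨x.toNat, by omega⟩
        have h1 : (-(l : ℤ)).toNat = 0 := by omega
        rw [h1, Int.toNat_natCast, Nat.div_eq_of_lt (by omega : 0 + k - 1 < k)]
        push_cast; ring
      · obtain ⟨l, hl⟩ : ∃ l : ℕ, x = -(l : ℤ) := ⟨(-x).toNat, by omega⟩
        subst hl
        have h1 : (-(l : ℤ)).toNat = 0 := by omega
        have h2 : (-(-(l : ℤ))).toNat = l := by omega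
        rw [h1, h2, Nat.zero_div]
        have h3 : (-(l : ℤ)) / (k : ℤ) = -(((l + k - 1) / k : ℕ) : ℤ) := by
          have hk' : (0 : ℤ) < k := hy
          set m : ℕ := (l + k - 1) / k with hm
          have h4 : m * k ≤ l + k - 1 := Nat.div_mul_le_self _ _
          have h5 : l + k - 1 < (m + 1) * k := by
            exact (Nat.div_lt_iff_lt_mul hk).1 (Nat.lt_succ_self _)
          have h4' : (m : ℤ) * k ≤ l + k - 1 := by
            have : m * k + 1 ≤ l + k := by omega
            have : ((m * k + 1 : ℕ) : ℤ) ≤ ((l + k : ℕ) : ℤ) := by exact_mod_cast this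
            push_cast at this; linarith
          have h5' : (l : ℤ) + k - 1 < (m + 1) * k := by
            have : l + k < (m + 1) * k + 1 := by omega
            have : ((l + k : ℕ) : ℤ) < (((m + 1) * k + 1 : ℕ) : ℤ) := by exact_mod_cast this
            push_cast at this; linarith
          apply le_antisymm
          · apply Int.le_of_lt_add_one
            apply Int.ediv_lt_of_lt_mul hk'
            have : (-(m : ℤ) + 1) * k = -(m * k) + k := by ring
            rw [this]; linarith
          · apply Int.le_ediv_of_mul_le hk'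
            have : (-(m : ℤ)) * k = -(m * k) := by ring
            rw [this]
            have : ((m : ℤ) + 1) * k = m * k + k := by ring
            linarith
        rw [h3]; push_cast; ring
    intro x y
    rcases lt_trichotomy y 0 with hy | hy | hy
    · have h1 := key x (-y) (by omega)
      have h2 : y.toNat = 0 := by omega
      rw [h2]
      have h3 : x / y = -(x / (-y)) := by rw [Int.ediv_neg, neg_neg]
      rw [h3, h1]
      simp
    · subst hy
      simp
    · have h1 := key x y hy
      have h2 : (-y).toNat = 0 := by omega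
      rw [h2, h1]
      simp

theorem prim_int_emod_j4 : Primrec₂ (fun x y : ℤ => x % y) := by
  have h := prim_int_sub_j3.comp Primrec.fst (prim_int_mul_j3.comp Primrec.snd prim_int_ediv_j4)
  refine h.of_eq fun a => ?_
  show a.1 - a.2 * (a.1 / a.2) = a.1 % a.2
  rw [Int.emod_def]

section fns
variable {α : Type} [Primcodable α] {s : α → St} {i j : α → ℕ} {m : α → List ℤ}

theorem c_gi4 {l : α → List ℤ} (hl : Computable l) (hi : Computable i) :
    Computable (fun a => (l a).getD (i a) 0) := (Primrec.list_getD (0 : ℤ)).to_comp.comp hl hi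

theorem c_gn4 {l : α → List ℕ} (hl : Computable l) (hi : Computable i) :
    Computable (fun a => (l a).getD (i a) 0) := (Primrec.list_getD (0 : ℕ)).to_comp.comp hl hi

theorem c_gl4 {l : α → List (List ℤ)} (hl : Computable l) (hi : Computable i) :
    Computable (fun a => (l a).getD (i a) []) :=
  (Primrec.list_getD ([] : List ℤ)).to_comp.comp hl hi

theorem c_sc4 (hs : Computable s) : Computable (fun a => sc (s a)) := Computable.fst.comp hs
theorem c_sN4 (hs : Computable s) : Computable (fun a => sN (s a)) :=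
  Computable.fst.comp (Computable.snd.comp hs)
theorem c_sA4 (hs : Computable s) : Computable (fun a => sA (s a)) :=
  Computable.fst.comp (Computable.snd.comp (Computable.snd.comp hs))
theorem c_su4 (hs : Computable s) : Computable (fun a => su (s a)) :=
  Computable.fst.comp (Computable.snd.comp (Computable.snd.comp (Computable.snd.comp hs)))
theorem c_sg4 (hs : Computable s) : Computable (fun a => sg (s a)) :=
  Computable.fst.comp (Computable.snd.comp (Computable.snd.comp (Computable.snd.comp
    (Computable.snd.comp hs))))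
theorem c_sr4 (hs : Computable s) : Computable (fun a => sr (s a)) :=
  Computable.fst.comp (Computable.snd.comp (Computable.snd.comp (Computable.snd.comp
    (Computable.snd.comp (Computable.snd.comp hs)))))
theorem c_sd4 (hs : Computable s) : Computable (fun a => sd (s a)) :=
  Computable.snd.comp (Computable.snd.comp (Computable.snd.comp (Computable.snd.comp
    (Computable.snd.comp (Computable.snd.comp hs)))))

theorem c_rk4 (hs : Computable s) : Computable (fun a => rk (s a)) :=
  Computable.list_length.comp (c_sg4 hs)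

theorem c_nadd4 (hi : Computable i) (hj : Computable j) : Computable (fun a => i a + j a) :=
  Primrec.nat_add.to_comp.comp hi hj
theorem c_nsub4 (hi : Computable i) (hj : Computable j) : Computable (fun a => i a - j a) :=
  Primrec.nat_sub.to_comp.comp hi hj
theorem c_iadd4 {x y : α → ℤ} (hx : Computable x) (hy : Computable y) :
    Computable (fun a => x a + y a) := prim_int_add_j3.to_comp.comp hx hy
theorem c_imul4 {x y : α → ℤ} (hx : Computable x) (hy : Computable y) :
    Computable (fun a => x a * y a) := prim_int_mul_j3.to_comp.comp hx hy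
theorem c_isub4 {x y : α → ℤ} (hx : Computable x) (hy : Computable y) :
    Computable (fun a => x a - y a) := prim_int_sub_j3.to_comp.comp hx hy
theorem c_idiv4 {x y : α → ℤ} (hx : Computable x) (hy : Computable y) :
    Computable (fun a => x a / y a) := prim_int_ediv_j4.to_comp.comp hx hy
theorem c_imod4 {x y : α → ℤ} (hx : Computable x) (hy : Computable y) :
    Computable (fun a => x a % y a) := prim_int_emod_j4.to_comp.comp hx hy
theorem c_ineg4 {x : α → ℤ} (hx : Computable x) :
    Computable (fun a => - x a) := prim_int_neg_j3.to_comp.comp hx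
theorem c_ncast4 (hi : Computable i) : Computable (fun a => ((i a : ℕ) : ℤ)) :=
  prim_natCast_j3.to_comp.comp hi

theorem c_ent4 (hs : Computable s) (hi : Computable i) (hj : Computable j) :
    Computable (fun a => ent (s a) (i a) (j a)) := c_gi4 (c_gl4 (c_sA4 hs) hi) hj

theorem c_ev4 {F : α → ℕ → ℤ} (hm : Computable m) (hF : Computable (fun x : α × ℕ => F x.1 x.2)) :
    Computable (fun a => ev (m a) (F a)) := by
  have h : Computable (fun a : α => (Nat.rec (motive := fun _ => ℤ) 0
      (fun i IH => IH + ((m a).getD i 0) * (F a i)) (m a).length : ℤ)) := by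
    refine Computable.nat_rec (f := fun a : α => (m a).length) (g := fun _ => (0 : ℤ))
      (h := fun a q => q.2 + ((m a).getD q.1 0) * (F a q.1))
      (Computable.list_length.comp hm) (Computable.const _) ?_
    have hF2 : Computable₂ F := hF
    refine c_iadd4 (Computable.snd.comp Computable.snd) (c_imul4 ?_ ?_)
    · exact c_gi4 (hm.comp Computable.fst) (Computable.fst.comp Computable.snd)
    · exact hF2.comp Computable.fst (Computable.fst.comp Computable.snd)
  refine h.of_eq fun a => ?_
  have key : ∀ n : ℕ, (Nat.rec (motive := fun _ => ℤ) 0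
      (fun i IH => IH + ((m a).getD i 0) * (F a i)) n : ℤ) =
      ∑ i ∈ Finset.range n, ((m a).getD i 0) • (F a i) := by
    intro n
    induction n with
    | zero => simp
    | succ n ih =>
      show (Nat.rec (motive := fun _ => ℤ) 0
        (fun i IH => IH + ((m a).getD i 0) * (F a i)) n : ℤ) + ((m a).getD n 0) * (F a n) = _
      rw [ih, Finset.sum_range_succ, smul_eq_mul]
  exact key _

theorem c_wc4 (hs : Computable s) (hm : Computable m) (hj : Computable j) :
    Computable (fun a => wc (s a) (m a) (j a)) :=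
  c_ev4 (F := fun a i => ent (s a) i (j a)) hm
    (c_ent4 (hs.comp Computable.fst) Computable.snd (hj.comp Computable.fst))

theorem c_rv4 (hs : Computable s) (hi : Computable i) :
    Computable (fun a => rv (s a) (i a)) :=
  c_ev4 (F := fun a j => ent (s a) (i a) j) (c_sr4 hs)
    (c_ent4 (hs.comp Computable.fst) (hi.comp Computable.fst) Computable.snd)

theorem c_wl4 (hs : Computable s) (hm : Computable m) :
    Computable (fun a => wl (s a) (m a)) :=
  c_ev4 (F := fun a i => rv (s a) i) hm (c_rv4 (hs.comp Computable.fst) Computable.snd)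

theorem c_wd4 (hi : Computable i) : Computable (fun a => wd (i a)) :=
  Computable.option_getD (Computable.decode.comp hi) (Computable.const [])

theorem c_rl4 (hi : Computable i) : Computable (fun a => rl (i a)) :=
  Computable.option_getD (Computable.decode.comp hi) (Computable.const (0, []))

theorem c_unitw4 (hi : Computable i) : Computable (fun a => unitw (i a)) := by
  have h1 : Primrec (fun n : ℕ => (List.range n).map (fun _ => (0 : ℤ))) :=
    Primrec.list_map Primrec.list_range (Primrec.const (0 : ℤ)).to₂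
  have h2 : Computable (fun a => (List.range (i a)).map (fun _ => (0 : ℤ)) ++ [(1 : ℤ)]) :=
    Computable.list_append.comp (h1.to_comp.comp hi) (Computable.const [1])
  refine h2.of_eq fun a => ?_
  unfold unitw
  congr 1
  rw [List.map_const', List.length_range]

theorem c_pv4 {c e : α → ℕ} (hc : Computable c) (he : Computable e) (hm : Computable m) :
    Computable (fun a => pv (c a) (e a) (m a)) := by
  have h := Code.primrec_evaln.to_comp
  exact h.comp (Computable.pair (Computable.pair hc ((Computable.ofNat Code).comp he))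
    (Computable.encode.comp hm))

theorem c_qs4 {c e : α → ℕ} (hc : Computable c) (he : Computable e) (hm : Computable m) :
    Computable (fun a => qs (c a) (e a) (m a)) :=
  CPj4.ite (CPj4.eq (c_pv4 hc he hm) (Computable.const (some 1))) (Computable.const 1)
    (Computable.const (-1))

end fns

section grp
variable {H : Type} [AddCommGroup H] (ν : ℕ ≃ H)
variable {α : Type} [Primcodable α] {s s' : α → St} {i j : α → ℕ} {m : α → List ℤ}

theorem c_evH4 (hν : Computable₂ (fun a b : ℕ => ν.symm (ν a + ν b))) {F : α → ℕ → ℕ}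
    (hm : Computable m) (hF : Computable (fun x : α × ℕ => F x.1 x.2)) :
    Computable (fun a => ν.symm (ev (m a) (fun i => ν (F a i)))) := by
  have hz := comp_zsmul_j3 ν hν
  have h : Computable (fun a : α => (Nat.rec (motive := fun _ => ℕ) (ν.symm 0)
      (fun i IH => ν.symm (ν IH + ν (ν.symm (((m a).getD i 0) • ν (F a i))))) (m a).length : ℕ)) := by
    refine Computable.nat_rec (f := fun a : α => (m a).length) (g := fun _ => ν.symm 0)
      (h := fun a q => ν.symm (ν q.2 + ν (ν.symm (((m a).getD q.1 0) • ν (F a q.1)))))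
      (Computable.list_length.comp hm) (Computable.const _) ?_
    have hF2 : Computable₂ F := hF
    refine hν.comp (Computable.snd.comp Computable.snd) (hz.comp ?_ ?_)
    · exact c_gi4 (hm.comp Computable.fst) (Computable.fst.comp Computable.snd)
    · exact hF2.comp Computable.fst (Computable.fst.comp Computable.snd)
  refine h.of_eq fun a => ?_
  have key : ∀ n : ℕ, (Nat.rec (motive := fun _ => ℕ) (ν.symm 0)
      (fun i IH => ν.symm (ν IH + ν (ν.symm (((m a).getD i 0) • ν (F a i))))) n : ℕ) =
      ν.symm (∑ i ∈ Finset.range n, ((m a).getD i 0) • ν (F a i)) := by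
    intro n
    induction n with
    | zero => simp
    | succ n ih =>
      show ν.symm (ν (Nat.rec (motive := fun _ => ℕ) (ν.symm 0)
        (fun i IH => ν.symm (ν IH + ν (ν.symm (((m a).getD i 0) • ν (F a i))))) n : ℕ) +
          ν (ν.symm (((m a).getD n 0) • ν (F a n)))) = _
      rw [ih, Equiv.apply_symm_apply, Equiv.apply_symm_apply, Finset.sum_range_succ]
  exact key _

theorem c_wh4 (hν : Computable₂ (fun a b : ℕ => ν.symm (ν a + ν b))) (hs : Computable s)
    (hm : Computable m) : Computable (fun a => ν.symm (wh ν (s a) (m a))) :=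
  c_evH4 ν hν (F := fun a i => (su (s a)).getD i 0) hm
    (c_gn4 (c_su4 (hs.comp Computable.fst)) Computable.snd)

theorem CP_wh0 (hν : Computable₂ (fun a b : ℕ => ν.symm (ν a + ν b))) (hs : Computable s)
    (hm : Computable m) : CPj4 (fun a => wh ν (s a) (m a) = 0) :=
  (CPj4.eq (c_wh4 ν hν hs hm) (Computable.const (ν.symm 0))).congr fun a =>
    ν.symm.injective.eq_iff

theorem CP_rel4 (hν : Computable₂ (fun a b : ℕ => ν.symm (ν a + ν b))) (hs : Computable s)
    (hi : Computable i) (hj : Computable j) : CPj4 (fun a => rel ν (s a) (i a) (j a)) := by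
  have hrl := c_rl4 hi
  refine CPj4.and (CPj4.nle (Computable.list_length.comp (Computable.snd.comp hrl)) (c_rk4 hs)) ?_
  have h1 : Computable (fun a => ν.symm (((rl (i a)).1 + 1) • ν (j a))) :=
    (comp_nsmul_j3 ν hν).comp (Computable.succ.comp (Computable.fst.comp hrl)) hj
  have h2 : Computable (fun a => ν.symm (ev (rl (i a)).2 (bb ν (s a)))) :=
    c_evH4 ν hν (F := fun a k => (su (s a)).getD ((sg (s a)).getD k 0) 0)
      (Computable.snd.comp hrl)
      (c_gn4 (c_su4 (hs.comp Computable.fst)) (c_gn4 (c_sg4 (hs.comp Computable.fst)) Computable.snd))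
  exact (CPj4.eq h1 h2).congr fun a => ν.symm.injective.eq_iff

end grp

section preds
variable {α : Type} [Primcodable α] {s s' : α → St} {e i j k : α → ℕ} {m : α → List ℤ}

theorem CP_dis4 (hs : Computable s) (he : Computable e) (hi : Computable i) :
    CPj4 (fun a => dis (s a) (e a) (i a)) := by
  unfold dis
  have h1 : Computable (fun _ : α => ([1] : List ℤ)) := Computable.const _
  refine (CPj4.ilt (Computable.const 0) (c_wl4 hs (c_wd4 hi))).and ?_
  refine (CPj4.isSome (c_pv4 (c_sc4 hs) he (c_wd4 hi))).and ?_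
  refine (CPj4.isSome (c_pv4 (c_sc4 hs) he h1)).and ?_
  exact (CPj4.eq (c_qs4 (c_sc4 hs) he (c_wd4 hi)) (c_qs4 (c_sc4 hs) he h1)).not

theorem CP_low4 (hs : Computable s) (hm : Computable m) (hk : Computable k) :
    CPj4 (fun a => low (s a) (m a) (k a)) := by
  unfold low
  refine CPj4.ball (p := fun a j => k a ≤ j → wc (s a) (m a) j = 0) ?_ (c_rk4 hs)
  refine (CPj4.nle (hk.comp Computable.fst) Computable.snd).imp ?_
  exact CPj4.eq (c_wc4 (hs.comp Computable.fst) (hm.comp Computable.fst) Computable.snd)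
    (Computable.const 0)

theorem CP_ready2 (hs : Computable s) (he : Computable e) : CPj4 (fun a => ready2 (s a) (e a)) := by
  unfold ready2
  have hs1 : Computable (fun x : α × ℕ => s x.1) := hs.comp Computable.fst
  have he1 : Computable (fun x : α × ℕ => e x.1) := he.comp Computable.fst
  refine CPj4.and ?_ (CPj4.not ?_)
  · exact CPj4.bex (p := fun a i => dis (s a) (e a) i) (CP_dis4 hs1 he1 Computable.snd) (c_sc4 hs)
  · refine CPj4.bex (p := fun a i => dis (s a) (e a) i ∧ low (s a) (wd i) (e a + 2)) ?_ (c_sc4 hs)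
    exact (CP_dis4 hs1 he1 Computable.snd).and
      (CP_low4 hs1 (c_wd4 Computable.snd) (c_nadd4 he1 (Computable.const 2)))

theorem CP_disx (hs : Computable s) (he : Computable e) (hi : Computable i) :
    CPj4 (fun a => disx (s a) (e a) (i a)) := by
  unfold disx
  refine (CP_dis4 hs he hi).and ((CP_low4 hs (c_wd4 hi) (c_nadd4 he (Computable.const 2))).and ?_)
  refine CPj4.bex (p := fun a j => 1 ≤ j ∧ wc (s a) (wd (i a)) j ≠ 0) ?_ (c_rk4 hs)
  refine (CPj4.nle (Computable.const 1) Computable.snd).and ?_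
  exact (CPj4.eq (c_wc4 (hs.comp Computable.fst) (c_wd4 (hi.comp Computable.fst)) Computable.snd)
    (Computable.const 0)).not

theorem CP_ready1 (hs : Computable s) (he : Computable e) : CPj4 (fun a => ready1 (s a) (e a)) := by
  unfold ready1
  have hs1 : Computable (fun x : α × ℕ => s x.1) := hs.comp Computable.fst
  have he1 : Computable (fun x : α × ℕ => e x.1) := he.comp Computable.fst
  have he3 : Computable (fun a => e a + 3) := c_nadd4 he (Computable.const 3)
  refine CPj4.and ?_ (CPj4.and (CPj4.nle he3 (c_rk4 hs)) (CPj4.and ?_ ?_))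
  · refine CPj4.ball (p := fun a j => (sd (s a)).getD j 0 ≠ e a) ?_
      (Computable.list_length.comp (c_sd4 hs))
    exact (CPj4.eq (c_gn4 (c_sd4 hs1) Computable.snd) he1).not
  · exact CPj4.bex (p := fun a i => disx (s a) (e a) i) (CP_disx hs1 he1 Computable.snd) (c_sc4 hs)
  · refine CPj4.ball (p := fun a j => (pv (sc (s a)) (e a) (unitw ((sg (s a)).getD j 0))).isSome = true)
      ?_ he3
    exact CPj4.isSome (c_pv4 (c_sc4 hs1) he1 (c_unitw4 (c_gn4 (c_sg4 hs1) Computable.snd)))

theorem CP_sdrop (hs : Computable s) : CPj4 (fun a => sdrop (s a)) := by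
  unfold sdrop
  exact (CPj4.nle (Computable.const 3) (c_rk4 hs)).and
    (CP_ready1 hs (c_nsub4 (c_rk4 hs) (Computable.const 3)))

theorem CP_signOK (hs : Computable s) (hs' : Computable s') :
    CPj4 (fun a => signOK (s a) (s' a)) := by
  unfold signOK
  refine (CPj4.ilt (Computable.const 0) (c_gi4 (c_sr4 hs') (Computable.const 0))).and ?_
  refine CPj4.ball (p := fun a i => Int.sign (wl (s' a) (wd i)) = Int.sign (wl (s a) (wd i))) ?_
    (c_sc4 hs)
  have h1 : Computable (fun x : α × ℕ => wl (s' x.1) (wd x.2)) :=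
    c_wl4 (hs'.comp Computable.fst) (c_wd4 Computable.snd)
  have h2 : Computable (fun x : α × ℕ => wl (s x.1) (wd x.2)) :=
    c_wl4 (hs.comp Computable.fst) (c_wd4 Computable.snd)
  have hz : Computable (fun _ : α × ℕ => (0 : ℤ)) := Computable.const _
  refine (((CPj4.ilt hz h1).iff (CPj4.ilt hz h2)).and ((CPj4.ilt h1 hz).iff (CPj4.ilt h2 hz))).congr
    fun x => ?_
  generalize wl (s' x.1) (wd x.2) = u
  generalize wl (s x.1) (wd x.2) = v
  rcases lt_trichotomy u 0 with hu | hu | hu <;> rcases lt_trichotomy v 0 with hv | hv | hv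
  · rw [Int.sign_eq_neg_one_of_neg hu, Int.sign_eq_neg_one_of_neg hv]; omega
  · rw [Int.sign_eq_neg_one_of_neg hu, hv, Int.sign_zero]; omega
  · rw [Int.sign_eq_neg_one_of_neg hu, Int.sign_eq_one_of_pos hv]; omega
  · rw [hu, Int.sign_zero, Int.sign_eq_neg_one_of_neg hv]; omega
  · rw [hu, hv]; simp
  · rw [hu, Int.sign_zero, Int.sign_eq_one_of_pos hv]; omega
  · rw [Int.sign_eq_one_of_pos hu, Int.sign_eq_neg_one_of_neg hv]; omega
  · rw [Int.sign_eq_one_of_pos hu, hv, Int.sign_zero]; omega
  · rw [Int.sign_eq_one_of_pos hu, Int.sign_eq_one_of_pos hv]; omega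

theorem CP_nonvan (hs' : Computable s') : CPj4 (fun a => nonvan (s' a)) := by
  unfold nonvan
  refine CPj4.ball (p := fun a i => wl (s' a) (wd i) = 0 → ∀ j < rk (s' a), wc (s' a) (wd i) j = 0)
    ?_ (c_sc4 hs')
  have hs1 : Computable (fun x : α × ℕ => s' x.1) := hs'.comp Computable.fst
  refine (CPj4.eq (c_wl4 hs1 (c_wd4 Computable.snd)) (Computable.const 0)).imp ?_
  refine CPj4.ball (p := fun (x : α × ℕ) j => wc (s' x.1) (wd x.2) j = 0) ?_ (c_rk4 hs1)
  exact CPj4.eq (c_wc4 (hs1.comp Computable.fst) (c_wd4 (Computable.snd.comp Computable.fst))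
    Computable.snd) (Computable.const 0)

theorem CP_specRel {K : α → ℤ} (hs : Computable s) (hs' : Computable s') (hi : Computable i)
    (hK : Computable K) : CPj4 (fun a => specRel (s a) (s' a) (i a) (K a)) := by
  unfold specRel
  have h3 : Computable (fun a => rk (s a) - 3) := c_nsub4 (c_rk4 hs) (Computable.const 3)
  refine (CPj4.nlt hi (c_sc4 hs)).and ((CP_disx hs h3 hi).and
    ((CPj4.ilt (Computable.const 0) hK).and ?_))
  refine CPj4.ball (p := fun a j => qs (sc (s a)) (rk (s a) - 3) (unitw ((sg (s a)).getD j 0)) *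
    (qs (sc (s a)) (rk (s a) - 3) (unitw ((sg (s a)).getD (rk (s' a)) 0)) *
      ent (s' a) ((sg (s a)).getD (rk (s' a)) 0) j
      + K a * qs (sc (s a)) (rk (s a) - 3) (wd (i a)) * wc (s a) (wd (i a)) j) < 0) ?_ (c_rk4 hs')
  have hs1 : Computable (fun x : α × ℕ => s x.1) := hs.comp Computable.fst
  have hs1' : Computable (fun x : α × ℕ => s' x.1) := hs'.comp Computable.fst
  have h31 : Computable (fun x : α × ℕ => rk (s x.1) - 3) := h3.comp Computable.fst
  have hi1 : Computable (fun x : α × ℕ => wd (i x.1)) := c_wd4 (hi.comp Computable.fst)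
  have hg : Computable (fun x : α × ℕ => (sg (s x.1)).getD (rk (s' x.1)) 0) :=
    c_gn4 (c_sg4 hs1) (c_rk4 hs1')
  refine CPj4.ilt (c_imul4 (c_qs4 (c_sc4 hs1) h31 (c_unitw4 (c_gn4 (c_sg4 hs1) Computable.snd)))
    (c_iadd4 (c_imul4 (c_qs4 (c_sc4 hs1) h31 (c_unitw4 hg)) (c_ent4 hs1' hg Computable.snd))
      (c_imul4 (c_imul4 (hK.comp Computable.fst) (c_qs4 (c_sc4 hs1) h31 hi1))
        (c_wc4 hs1 hi1 Computable.snd)))) (Computable.const 0)

end preds

section preds2
variable {H : Type} [AddCommGroup H] (ν : ℕ ≃ H)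
variable {α : Type} [Primcodable α] {s s' : α → St} {e i j k : α → ℕ} {D : α → List ℤ}

theorem CP_viol (hν : Computable₂ (fun a b : ℕ => ν.symm (ν a + ν b))) (hs : Computable s) :
    CPj4 (fun a => viol ν (s a)) := by
  unfold viol
  have hs1 : Computable (fun x : α × ℕ => s x.1) := hs.comp Computable.fst
  refine CPj4.bex (p := fun a i => wh ν (s a) (wd i) = 0 ∧ ∃ j < rk (s a), wc (s a) (wd i) j ≠ 0) ?_
    (Computable.succ.comp (c_sc4 hs))
  refine (CP_wh0 ν hν hs1 (c_wd4 Computable.snd)).and ?_
  refine CPj4.bex (p := fun (x : α × ℕ) j => wc (s x.1) (wd x.2) j ≠ 0) ?_ (c_rk4 hs1)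
  exact (CPj4.eq (c_wc4 (hs1.comp Computable.fst) (c_wd4 (Computable.snd.comp Computable.fst))
    Computable.snd) (Computable.const 0)).not

theorem CP_gdrop (hν : Computable₂ (fun a b : ℕ => ν.symm (ν a + ν b))) (hs : Computable s) :
    CPj4 (fun a => gdrop ν (s a)) := by
  unfold gdrop
  have hs1 : Computable (fun x : α × ℕ => s x.1) := hs.comp Computable.fst
  refine (CP_viol ν hν hs).or ?_
  refine CPj4.bex (p := fun a e => ready2 (s a) e ∨ (ready1 (s a) e ∧ e + 3 < rk (s a))) ?_
    (Computable.succ.comp (c_sc4 hs))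
  exact (CP_ready2 hs1 Computable.snd).or ((CP_ready1 hs1 Computable.snd).and
    (CPj4.nlt (c_nadd4 Computable.snd (Computable.const 3)) (c_rk4 hs1)))

theorem c_att (hs : Computable s) : Computable (fun a => att (s a)) := by
  have h1 : Computable (fun a => (sc (s a)) / 2) :=
    Primrec.nat_div.to_comp.comp (c_sc4 hs) (Computable.const 2)
  exact Computable.fst.comp (Computable.unpair.comp h1)

theorem CP_cov (hν : Computable₂ (fun a b : ℕ => ν.symm (ν a + ν b))) (hs : Computable s) :
    CPj4 (fun a => cov ν (s a)) := by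
  unfold cov
  have hs1 : Computable (fun x : α × ℕ => s x.1) := hs.comp Computable.fst
  have h1 : Computable (fun a => (sc (s a)) % 2) :=
    Primrec.nat_mod.to_comp.comp (c_sc4 hs) (Computable.const 2)
  refine (CPj4.eq h1 (Computable.const 1)).and ?_
  exact CPj4.bex (p := fun a i => rel ν (s a) i (att (s a)))
    (CP_rel4 ν hν hs1 Computable.snd (c_att hs1)) (c_sc4 hs)

theorem CP_dropRel (hν : Computable₂ (fun a b : ℕ => ν.symm (ν a + ν b))) (hs : Computable s)
    (hs' : Computable s') (hD : Computable D) :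
    CPj4 (fun a => dropRel ν (s a) (s' a) (D a)) := by
  unfold dropRel
  have hs1 : Computable (fun x : α × ℕ => s x.1) := hs.comp Computable.fst
  have hs1' : Computable (fun x : α × ℕ => s' x.1) := hs'.comp Computable.fst
  have hD1 : Computable (fun x : α × ℕ => D x.1) := hD.comp Computable.fst
  have hs2 : Computable (fun x : (α × ℕ) × ℕ => s x.1.1) := hs1.comp Computable.fst
  have hs2' : Computable (fun x : (α × ℕ) × ℕ => s' x.1.1) := hs1'.comp Computable.fst
  have hD2 : Computable (fun x : (α × ℕ) × ℕ => D x.1.1) := hD1.comp Computable.fst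
  have hlA : Computable (fun a => (sA (s a)).length) := Computable.list_length.comp (c_sA4 hs)
  have hlA' : Computable (fun a => (sA (s' a)).length) := Computable.list_length.comp (c_sA4 hs')
  have hlu : Computable (fun a => (su (s a)).length) := Computable.list_length.comp (c_su4 hs)
  have hlu' : Computable (fun a => (su (s' a)).length) := Computable.list_length.comp (c_su4 hs')
  refine (CP_signOK hs hs').and ((CPj4.eq (c_sc4 hs') (c_sc4 hs)).and
    ((CPj4.eq (c_sN4 hs') (c_sN4 hs)).and ((CPj4.eq hlA' hlA).and ((CPj4.eq hlu' hlu).and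
    ((CPj4.eq (Computable.succ.comp (c_rk4 hs')) (c_rk4 hs)).and (CPj4.and ?_
    ((CPj4.nle (Computable.list_length.comp hD) hlA).and
    ((CPj4.ilt (Computable.const 0) (c_wc4 hs hD (c_rk4 hs'))).and (CPj4.and ?_
    (CPj4.and ?_ (CPj4.and ?_ ?_)))))))))))
  · exact CPj4.ball (p := fun a j => (sg (s' a)).getD j 0 = (sg (s a)).getD j 0)
      (CPj4.eq (c_gn4 (c_sg4 hs1') Computable.snd) (c_gn4 (c_sg4 hs1) Computable.snd)) (c_rk4 hs')
  · refine CPj4.ball (p := fun a i => (ent (s a) i (rk (s' a))) % (wc (s a) (D a) (rk (s' a))) = 0)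
      ?_ hlA
    exact CPj4.eq (c_imod4 (c_ent4 hs1 Computable.snd (c_rk4 hs1')) (c_wc4 hs1 hD1 (c_rk4 hs1')))
      (Computable.const 0)
  · refine CPj4.ball (p := fun a i => ((sA (s' a)).getD i []).length ≤ rk (s' a)) ?_ hlA
    exact CPj4.nle (Computable.list_length.comp (c_gl4 (c_sA4 hs1') Computable.snd)) (c_rk4 hs1')
  · refine CPj4.ball (p := fun a i => ∀ j < rk (s a), ent (s' a) i j =
      ent (s a) i j - (ent (s a) i (rk (s' a)) / wc (s a) (D a) (rk (s' a))) * wc (s a) (D a) j) ?_ hlA
    refine CPj4.ball (p := fun (x : α × ℕ) j => ent (s' x.1) x.2 j =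
      ent (s x.1) x.2 j - (ent (s x.1) x.2 (rk (s' x.1)) / wc (s x.1) (D x.1) (rk (s' x.1))) *
        wc (s x.1) (D x.1) j) ?_ (c_rk4 hs1)
    have hi2 : Computable (fun x : (α × ℕ) × ℕ => x.1.2) := Computable.snd.comp Computable.fst
    exact CPj4.eq (c_ent4 hs2' hi2 Computable.snd) (c_isub4 (c_ent4 hs2 hi2 Computable.snd)
      (c_imul4 (c_idiv4 (c_ent4 hs2 hi2 (c_rk4 hs2')) (c_wc4 hs2 hD2 (c_rk4 hs2')))
        (c_wc4 hs2 hD2 Computable.snd)))
  · refine CPj4.ball (p := fun a i => (su (s' a)).getD i 0 =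
      ν.symm (uH ν (s a) i - (ent (s a) i (rk (s' a)) / wc (s a) (D a) (rk (s' a))) •
        wh ν (s a) (D a))) ?_ hlA
    have hq : Computable (fun x : α × ℕ =>
        -(ent (s x.1) x.2 (rk (s' x.1)) / wc (s x.1) (D x.1) (rk (s' x.1)))) :=
      c_ineg4 (c_idiv4 (c_ent4 hs1 Computable.snd (c_rk4 hs1')) (c_wc4 hs1 hD1 (c_rk4 hs1')))
    have hw : Computable (fun x : α × ℕ => ν.symm (wh ν (s x.1) (D x.1))) := c_wh4 ν hν hs1 hD1
    have hu : Computable (fun x : α × ℕ => (su (s x.1)).getD x.2 0) := c_gn4 (c_su4 hs1) Computable.snd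
    have hsum := hν.comp hu ((comp_zsmul_j3 ν hν).comp hq hw)
    refine (CPj4.eq (c_gn4 (c_su4 hs1') Computable.snd) hsum).congr fun x => ?_
    rw [Equiv.apply_symm_apply, Equiv.apply_symm_apply, neg_smul, ← sub_eq_add_neg]
    rfl

theorem CP_covRel (hν : Computable₂ (fun a b : ℕ => ν.symm (ν a + ν b))) (hs : Computable s)
    (hs' : Computable s') (hi : Computable i) :
    CPj4 (fun a => covRel ν (s a) (s' a) (i a)) := by
  unfold covRel
  have hs1 : Computable (fun x : α × ℕ => s x.1) := hs.comp Computable.fst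
  have hs1' : Computable (fun x : α × ℕ => s' x.1) := hs'.comp Computable.fst
  have hs2 : Computable (fun x : (α × ℕ) × ℕ => s x.1.1) := hs1.comp Computable.fst
  have hs2' : Computable (fun x : (α × ℕ) × ℕ => s' x.1.1) := hs1'.comp Computable.fst
  have hlA : Computable (fun a => (sA (s a)).length) := Computable.list_length.comp (c_sA4 hs)
  have hlA' : Computable (fun a => (sA (s' a)).length) := Computable.list_length.comp (c_sA4 hs')
  have hlu : Computable (fun a => (su (s a)).length) := Computable.list_length.comp (c_su4 hs)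
  have hlu' : Computable (fun a => (su (s' a)).length) := Computable.list_length.comp (c_su4 hs')
  have hrl := c_rl4 hi
  have hz1 : Computable (fun a => (((rl (i a)).1 : ℤ) + 1)) :=
    c_iadd4 (c_ncast4 (Computable.fst.comp hrl)) (Computable.const 1)
  refine (CP_rel4 ν hν hs hi (c_att hs)).and (CPj4.and ?_ ((CP_signOK hs hs').and
    ((CP_nonvan hs').and ((CPj4.eq (c_sc4 hs') (Computable.succ.comp (c_sc4 hs))).and
    ((CPj4.eq (c_sN4 hs') (c_imul4 hz1 (c_sN4 hs))).and
    ((CPj4.eq hlA' (Computable.succ.comp hlA)).and ((CPj4.eq hlu' (Computable.succ.comp hlu)).and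
    ((CPj4.eq (c_rk4 hs') (c_rk4 hs)).and (CPj4.and ?_ ((CPj4.eq (c_sd4 hs') (c_sd4 hs)).and
    (CPj4.and ?_ (CPj4.and ?_ (CPj4.and ?_ (CPj4.and ?_
    (CPj4.eq (c_gn4 (c_su4 hs') hlA) (c_att hs))))))))))))))))
  · exact CPj4.ball (p := fun a i' => ¬ rel ν (s a) i' (att (s a)))
      (CP_rel4 ν hν hs1 Computable.snd (c_att hs1)).not hi
  · exact CPj4.ball (p := fun a j => (sg (s' a)).getD j 0 = (sg (s a)).getD j 0)
      (CPj4.eq (c_gn4 (c_sg4 hs1') Computable.snd) (c_gn4 (c_sg4 hs1) Computable.snd)) (c_rk4 hs)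
  · refine CPj4.ball (p := fun a i => ((sA (s' a)).getD i []).length ≤ rk (s' a)) ?_ hlA'
    exact CPj4.nle (Computable.list_length.comp (c_gl4 (c_sA4 hs1') Computable.snd)) (c_rk4 hs1')
  · refine CPj4.ball (p := fun a i' => ∀ j < rk (s a), ent (s' a) i' j =
      (((rl (i a)).1 : ℤ) + 1) * ent (s a) i' j) ?_ hlA
    refine CPj4.ball (p := fun (x : α × ℕ) j => ent (s' x.1) x.2 j =
      (((rl (i x.1)).1 : ℤ) + 1) * ent (s x.1) x.2 j) ?_ (c_rk4 hs1)
    have hi2 : Computable (fun x : (α × ℕ) × ℕ => x.1.2) := Computable.snd.comp Computable.fst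
    exact CPj4.eq (c_ent4 hs2' hi2 Computable.snd)
      (c_imul4 (hz1.comp (Computable.fst.comp Computable.fst)) (c_ent4 hs2 hi2 Computable.snd))
  · refine CPj4.ball (p := fun a j => ent (s' a) (sA (s a)).length j =
      sN (s a) * (rl (i a)).2.getD j 0) ?_ (c_rk4 hs)
    exact CPj4.eq (c_ent4 hs1' (hlA.comp Computable.fst) Computable.snd)
      (c_imul4 (c_sN4 hs1) (c_gi4 (Computable.snd.comp (hrl.comp Computable.fst)) Computable.snd))
  · exact CPj4.ball (p := fun a i' => (su (s' a)).getD i' 0 = (su (s a)).getD i' 0)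
      (CPj4.eq (c_gn4 (c_su4 hs1') Computable.snd) (c_gn4 (c_su4 hs1) Computable.snd)) hlA

theorem CP_appRel {J : α → ℕ} (hν : Computable₂ (fun a b : ℕ => ν.symm (ν a + ν b)))
    (hs : Computable s) (hs' : Computable s') (hJ : Computable J) :
    CPj4 (fun a => appRel ν (s a) (s' a) (J a)) := by
  unfold appRel
  have hs1 : Computable (fun x : α × ℕ => s x.1) := hs.comp Computable.fst
  have hs1' : Computable (fun x : α × ℕ => s' x.1) := hs'.comp Computable.fst
  have hs2 : Computable (fun x : (α × ℕ) × ℕ => s x.1.1) := hs1.comp Computable.fst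
  have hs2' : Computable (fun x : (α × ℕ) × ℕ => s' x.1.1) := hs1'.comp Computable.fst
  have hlA : Computable (fun a => (sA (s a)).length) := Computable.list_length.comp (c_sA4 hs)
  have hlA' : Computable (fun a => (sA (s' a)).length) := Computable.list_length.comp (c_sA4 hs')
  have hlu : Computable (fun a => (su (s a)).length) := Computable.list_length.comp (c_su4 hs)
  have hlu' : Computable (fun a => (su (s' a)).length) := Computable.list_length.comp (c_su4 hs')
  refine CPj4.and ?_ (CPj4.and ?_ ((CP_signOK hs hs').and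
    ((CP_nonvan hs').and ((CPj4.eq (c_sc4 hs') (Computable.succ.comp (c_sc4 hs))).and
    ((CPj4.eq (c_sN4 hs') (c_sN4 hs)).and
    ((CPj4.eq hlA' (Computable.succ.comp hlA)).and ((CPj4.eq hlu' (Computable.succ.comp hlu)).and
    ((CPj4.eq (c_rk4 hs') (Computable.succ.comp (c_rk4 hs))).and (CPj4.and ?_
    ((CPj4.eq (c_gn4 (c_sg4 hs') (c_rk4 hs)) hlA).and ((CPj4.eq (c_sd4 hs') (c_sd4 hs)).and
    (CPj4.and ?_ (CPj4.and ?_ (CPj4.and ?_ (CPj4.and ?_
    (CPj4.eq (c_gn4 (c_su4 hs') hlA) hJ))))))))))))))))
  · exact CPj4.ball (p := fun a i => ¬ rel ν (s a) i (J a))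
      (CP_rel4 ν hν hs1 Computable.snd (hJ.comp Computable.fst)).not (c_sc4 hs)
  · refine CPj4.ball (p := fun a J' => ∃ i < sc (s a), rel ν (s a) i J') ?_ hJ
    exact CPj4.bex (p := fun (x : α × ℕ) i => rel ν (s x.1) i x.2)
      (CP_rel4 ν hν hs2 Computable.snd (Computable.snd.comp Computable.fst)) (c_sc4 hs1)
  · exact CPj4.ball (p := fun a j => (sg (s' a)).getD j 0 = (sg (s a)).getD j 0)
      (CPj4.eq (c_gn4 (c_sg4 hs1') Computable.snd) (c_gn4 (c_sg4 hs1) Computable.snd)) (c_rk4 hs)
  · refine CPj4.ball (p := fun a i => ((sA (s' a)).getD i []).length ≤ rk (s' a)) ?_ hlA'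
    exact CPj4.nle (Computable.list_length.comp (c_gl4 (c_sA4 hs1') Computable.snd)) (c_rk4 hs1')
  · refine CPj4.ball (p := fun a i' => ∀ j < rk (s' a), ent (s' a) i' j = ent (s a) i' j) ?_ hlA
    refine CPj4.ball (p := fun (x : α × ℕ) j => ent (s' x.1) x.2 j = ent (s x.1) x.2 j) ?_
      (c_rk4 hs1')
    have hi2 : Computable (fun x : (α × ℕ) × ℕ => x.1.2) := Computable.snd.comp Computable.fst
    exact CPj4.eq (c_ent4 hs2' hi2 Computable.snd) (c_ent4 hs2 hi2 Computable.snd)
  · refine CPj4.ball (p := fun a j => ent (s' a) (sA (s a)).length j =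
      if j = rk (s a) then sN (s a) else 0) ?_ (c_rk4 hs')
    refine CPj4.eq (c_ent4 hs1' (hlA.comp Computable.fst) Computable.snd) ?_
    exact CPj4.ite (CPj4.eq Computable.snd (c_rk4 hs1)) (c_sN4 hs1) (Computable.const 0)
  · exact CPj4.ball (p := fun a i' => (su (s' a)).getD i' 0 = (su (s a)).getD i' 0)
      (CPj4.eq (c_gn4 (c_su4 hs1') Computable.snd) (c_gn4 (c_su4 hs1) Computable.snd)) hlA

theorem CP_Chk (hν : Computable₂ (fun a b : ℕ => ν.symm (ν a + ν b))) :
    CPj4 (fun x : St × Cert => Chk ν x.1 x.2) := by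
  unfold Chk
  have hs : Computable (fun x : St × Cert => x.1) := Computable.fst
  have hs' : Computable (fun x : St × Cert => x.2.1) := Computable.fst.comp Computable.snd
  have hi : Computable (fun x : St × Cert => x.2.2.1) :=
    Computable.fst.comp (Computable.snd.comp Computable.snd)
  have hD : Computable (fun x : St × Cert => x.2.2.2.1) :=
    Computable.fst.comp (Computable.snd.comp (Computable.snd.comp Computable.snd))
  have hK : Computable (fun x : St × Cert => x.2.2.2.2) :=
    Computable.snd.comp (Computable.snd.comp (Computable.snd.comp Computable.snd))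
  have h3 : Computable (fun x : St × Cert => rk x.1 - 3) := c_nsub4 (c_rk4 hs) (Computable.const 3)
  have hg := CP_gdrop ν hν hs
  have hsd := CP_sdrop hs
  have hc := CP_cov ν hν hs
  have hdr := CP_dropRel ν hν hs hs' hD
  refine (hg.and (hdr.and (CPj4.eq (c_sd4 hs') (c_sd4 hs)))).or (CPj4.or ?_ (CPj4.or ?_ ?_))
  · exact hg.not.and (hsd.and (hdr.and ((CP_specRel hs hs' hi hK).and
      (CPj4.eq (c_sd4 hs') (Computable.list_cons.comp h3 (c_sd4 hs))))))
  · exact hg.not.and (hsd.not.and (hc.and (CP_covRel ν hν hs hs' hi)))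
  · exact hg.not.and (hsd.not.and (hc.not.and (CP_appRel ν hν hs hs' hi)))

end preds2

open Classical in
/-- The check is computable. -/
theorem computable_chk {H : Type} [AddCommGroup H] (ν : ℕ ≃ H)
    (hν : Computable₂ (fun a b : ℕ => ν.symm (ν a + ν b))) :
    Computable₂ (fun (s : St) (y : Cert) => decide (Chk ν s y)) :=
  (CP_Chk ν hν).computable

end Pool.Agent.Helper578.OG
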