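import Pool.Agent.Helper578.OG.Ev
import Pool.Agent.Helper578.OG.J4
set_option maxHeartbeats 4000000
namespace Pool.Agent.Helper578.OG

theorem j2870_sign {α : Type} [Primcodable α] {f : α → ℤ} (hf : Computable f) :
    Computable (fun a => Int.sign (f a)) := by
  have h1 : Computable (fun a => if 0 < f a then (1 : ℤ) else (if f a < 0 then (-1 : ℤ) else 0)) :=
    CPj4.ite (CPj4.ilt (Computable.const 0) hf) (Computable.const 1)
      (CPj4.ite (CPj4.ilt hf (Computable.const 0)) (Computable.const (-1)) (Computable.const 0))
  refine h1.of_eq fun a => ?_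
  split_ifs with h2 h3
  · exact (Int.sign_eq_one_of_pos h2).symm
  · exact (Int.sign_eq_neg_one_of_neg h3).symm
  · have : f a = 0 := by omega
    rw [this, Int.sign_zero]

/-- The committed signs form a computable function. -/
theorem computable_sgn (S : ℕ → St) (hS : Computable S) (hu : ∀ n, ∃ t, n < sc (S t)) :
    ∃ sgn : ℕ → ℤ, Computable sgn ∧
      ∀ n, ∃ t, n < sc (S t) ∧ sgn n = Int.sign (wl (S t) (wd n)) := by
  have hP : Computable₂ (fun n t : ℕ => decide (n < sc (S t))) :=
    Primrec.nat_lt.decide.to_comp.comp Computable.fst (c_sc4 (hS.comp Computable.snd))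
  have hu' : ∀ n, ∃ t, (fun n t : ℕ => decide (n < sc (S t))) n t = true := by
    intro n
    obtain ⟨t, ht⟩ := hu n
    exact ⟨t, decide_eq_true ht⟩
  have hτ := comp_find_j3 _ hP hu'
  refine ⟨fun n => Int.sign (wl (S (Nat.find (hu' n))) (wd n)),
    j2870_sign (c_wl4 (hS.comp hτ) (c_wd4 Computable.id)), fun n => ?_⟩
  exact ⟨Nat.find (hu' n), of_decide_eq_true (Nat.find_spec (hu' n)), rfl⟩

/-- Addition and scalar multiplication of words are computable on codes. -/
theorem computable_addW :
    Computable₂ (fun n n' : ℕ => Encodable.encode (addW (wd n) (wd n'))) := by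
  have h1 : Primrec₂ (fun m m' : List ℤ => addW m m') := by
    have h2 : Primrec (fun a : List ℤ × List ℤ =>
        (List.range (max a.1.length a.2.length)).map
          (fun i => a.1.getD i 0 + a.2.getD i 0)) := by
      apply Primrec.list_map
      · exact Primrec.list_range.comp (Primrec.nat_max.comp
          (Primrec.list_length.comp Primrec.fst) (Primrec.list_length.comp Primrec.snd))
      · exact prim_int_add_j3.comp
          ((Primrec.list_getD (0 : ℤ)).comp (Primrec.fst.comp Primrec.fst) Primrec.snd)
          ((Primrec.list_getD (0 : ℤ)).comp (Primrec.snd.comp Primrec.fst) Primrec.snd)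
    exact h2
  exact Computable.encode.comp (h1.to_comp.comp (c_wd4 Computable.fst) (c_wd4 Computable.snd))

theorem computable_mulW (k : ℤ) :
    Computable (fun n : ℕ => Encodable.encode (mulW k (wd n))) := by
  have h1 : Primrec (fun m : List ℤ => mulW k m) := by
    have h2 : Primrec (fun a : List ℤ =>
        (List.range a.length).map (fun i => k * a.getD i 0)) := by
      apply Primrec.list_map
      · exact Primrec.list_range.comp Primrec.list_length
      · exact prim_int_mul_j3.comp (Primrec.const k)
          ((Primrec.list_getD (0 : ℤ)).comp Primrec.fst Primrec.snd)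
    exact h2
  exact Computable.encode.comp (h1.to_comp.comp (c_wd4 Computable.id))

end Pool.Agent.Helper578.OG
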