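import Pool.Agent.Helper578.OG.Generic
set_option maxHeartbeats 4000000
namespace Pool.Agent.Helper578.OG

/-- If the computable orders of a computable group are exactly two, there is an oracle computing
an order whose degree is not the degree of an order. -/
theorem final_part {H : Type} [AddCommGroup H] (μ : ℕ ≃ H)
    (hμ : Computable₂ (fun a b : ℕ => μ.symm (μ a + μ b))) (P : Set H)
    (hP1 : ∀ a ∈ P, ∀ b ∈ P, a + b ∈ P) (hP2 : ∀ a : H, a ∈ P → -a ∈ P → a = 0)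
    (hP3 : ∀ a : H, a ∈ P ∨ -a ∈ P)
    (hPc : Computable (Set.indicator (μ ⁻¹' P) (fun _ => (1 : ℕ)) : ℕ → ℕ))
    (honly : ∀ Q : Set H, (∀ a ∈ Q, ∀ b ∈ Q, a + b ∈ Q) → (∀ a : H, a ∈ Q → -a ∈ Q → a = 0) →
      (∀ a : H, a ∈ Q ∨ -a ∈ Q) →
      Computable (Set.indicator (μ ⁻¹' Q) (fun _ => (1 : ℕ)) : ℕ → ℕ) →
      Q = P ∨ ∀ a, a ∈ Q ↔ -a ∈ P) :
    (∃ P : Set H,
      (∀ a ∈ P, ∀ b ∈ P, a + b ∈ P) ∧ (∀ a : H, a ∈ P → -a ∈ P → a = 0) ∧
        (∀ a : H, a ∈ P ∨ -a ∈ P) ∧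
        Computable (Set.indicator (μ ⁻¹' P) (fun _ => (1 : ℕ)) : ℕ → ℕ)) ∧
    ∃ P : Set H,
      (∀ a ∈ P, ∀ b ∈ P, a + b ∈ P) ∧ (∀ a : H, a ∈ P → -a ∈ P → a = 0) ∧
        (∀ a : H, a ∈ P ∨ -a ∈ P) ∧
        ∃ X : ℕ → ℕ,
          TuringReducible
            ((Set.indicator (μ ⁻¹' P) (fun _ => (1 : ℕ)) : ℕ → ℕ) : ℕ →. ℕ)
            ((X : ℕ → ℕ) : ℕ →. ℕ) ∧
          ∀ Q : Set H,
            (∀ a ∈ Q, ∀ b ∈ Q, a + b ∈ Q) →
            (∀ a : H, a ∈ Q → -a ∈ Q → a = 0) →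
            (∀ a : H, a ∈ Q ∨ -a ∈ Q) →
            ¬ (TuringReducible
                  ((Set.indicator (μ ⁻¹' Q) (fun _ => (1 : ℕ)) : ℕ → ℕ) : ℕ →. ℕ)
                  ((X : ℕ → ℕ) : ℕ →. ℕ) ∧
                TuringReducible ((X : ℕ → ℕ) : ℕ →. ℕ)
                  ((Set.indicator (μ ⁻¹' Q) (fun _ => (1 : ℕ)) : ℕ → ℕ) : ℕ →. ℕ)) := by
  classical
  refine ⟨⟨P, hP1, hP2, hP3, hPc⟩, P, hP1, hP2, hP3, ?_⟩
  have ind1 : ∀ (Q : Set H) (n : ℕ),
      (Set.indicator (μ ⁻¹' Q) (fun _ => (1 : ℕ)) : ℕ → ℕ) n = 1 ↔ μ n ∈ Q := by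
    intro Q n
    by_cases h : μ n ∈ Q
    · rw [Set.indicator_of_mem (show n ∈ μ ⁻¹' Q from h)]
      simp [h]
    · rw [Set.indicator_of_notMem (show n ∉ μ ⁻¹' Q from h)]
      simp [h]
  have ind01 : ∀ (Q : Set H) (n : ℕ),
      (Set.indicator (μ ⁻¹' Q) (fun _ => (1 : ℕ)) : ℕ → ℕ) n = 0 ∨
      (Set.indicator (μ ⁻¹' Q) (fun _ => (1 : ℕ)) : ℕ → ℕ) n = 1 := by
    intro Q n
    by_cases h : μ n ∈ Q
    · exact Or.inr (Set.indicator_of_mem (show n ∈ μ ⁻¹' Q from h) _)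
    · exact Or.inl (Set.indicator_of_notMem (show n ∉ μ ⁻¹' Q from h) _)
  let Ax : (ℕ → ℕ) → Prop := fun f => ∃ Q : Set H, (∀ a ∈ Q, ∀ b ∈ Q, a + b ∈ Q) ∧
    (∀ a : H, a ∈ Q → -a ∈ Q → a = 0) ∧ (∀ a : H, a ∈ Q ∨ -a ∈ Q) ∧
    f = (Set.indicator (μ ⁻¹' Q) (fun _ => (1 : ℕ)) : ℕ → ℕ)
  have key1 : ∀ f, Ax f → (∀ n, f n = 0 ∨ f n = 1) ∧
      (∀ a b, f a = 1 → f b = 1 → f (μ.symm (μ a + μ b)) = 1) ∧
      (∀ a, f a = 1 → f (μ.symm (-μ a)) = 1 → μ a = 0) ∧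
      (∀ a, f a = 1 ∨ f (μ.symm (-μ a)) = 1) := by
    rintro f ⟨Q, h1, h2, h3, rfl⟩
    refine ⟨fun n => ind01 Q n, ?_, ?_, ?_⟩
    · intro a b ha hb
      rw [ind1] at ha hb ⊢
      rw [Equiv.apply_symm_apply]
      exact h1 _ ha _ hb
    · intro a ha hb
      rw [ind1] at ha hb
      rw [Equiv.apply_symm_apply] at hb
      exact h2 _ ha hb
    · intro a
      rw [ind1, ind1, Equiv.apply_symm_apply]
      exact h3 (μ a)
  have key2 : ∀ f : ℕ → ℕ, (∀ n, f n = 0 ∨ f n = 1) →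
      (∀ a b, f a = 1 → f b = 1 → f (μ.symm (μ a + μ b)) = 1) →
      (∀ a, f a = 1 → f (μ.symm (-μ a)) = 1 → μ a = 0) →
      (∀ a, f a = 1 ∨ f (μ.symm (-μ a)) = 1) → Ax f := by
    intro f h1 h2 h3 h4
    refine ⟨{h | f (μ.symm h) = 1}, ?_, ?_, ?_, ?_⟩
    · intro a ha b hb
      have := h2 (μ.symm a) (μ.symm b) ha hb
      rw [Equiv.apply_symm_apply, Equiv.apply_symm_apply] at this
      exact this
    · intro a ha hb
      have := h3 (μ.symm a) ha
      rw [Equiv.apply_symm_apply] at this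
      exact this hb
    · intro a
      have := h4 (μ.symm a)
      rw [Equiv.apply_symm_apply] at this
      exact this
    · funext n
      have h5 := ind1 {h | f (μ.symm h) = 1} n
      have h6 : μ n ∈ {h | f (μ.symm h) = 1} ↔ f n = 1 := by
        show f (μ.symm (μ n)) = 1 ↔ f n = 1
        rw [Equiv.symm_apply_apply]
      rw [h6] at h5
      have h7 := ind01 {h | f (μ.symm h) = 1} n
      rcases h1 n with h8 | h8
      · rcases h7 with h9 | h9
        · rw [h8, h9]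
        · have := h5.mp h9
          omega
      · rw [h8, h5.mpr h8]
  have hcl : ∀ f, ¬ Ax f → ∃ m, ∀ f', (∀ i < m, f' i = f i) → ¬ Ax f' := by
    intro f hf
    by_contra hcon
    push Not at hcon
    apply hf
    apply key2
    · intro n
      obtain ⟨f', h1, h2⟩ := hcon (n + 1)
      have := (key1 f' h2).1 n
      rwa [h1 n (by omega)] at this
    · intro a b ha hb
      obtain ⟨f', h1, h2⟩ := hcon (a + b + μ.symm (μ a + μ b) + 1)
      have := (key1 f' h2).2.1 a b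
      rw [h1 a (by omega), h1 b (by omega), h1 (μ.symm (μ a + μ b)) (by omega)] at this
      exact this ha hb
    · intro a ha hb
      obtain ⟨f', h1, h2⟩ := hcon (a + μ.symm (-μ a) + 1)
      have := (key1 f' h2).2.2.1 a
      rw [h1 a (by omega), h1 (μ.symm (-μ a)) (by omega)] at this
      exact this ha hb
    · intro a
      obtain ⟨f', h1, h2⟩ := hcon (a + μ.symm (-μ a) + 1)
      have := (key1 f' h2).2.2.2 a
      rwa [h1 a (by omega), h1 (μ.symm (-μ a)) (by omega)] at this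
  have hc : ∀ f, Computable f → Ax f →
      f = (Set.indicator (μ ⁻¹' P) (fun _ => (1 : ℕ)) : ℕ → ℕ) ∨
      f = (Set.indicator (μ ⁻¹' {a : H | -a ∈ P}) (fun _ => (1 : ℕ)) : ℕ → ℕ) := by
    rintro f hf ⟨Q, h1, h2, h3, rfl⟩
    rcases honly Q h1 h2 h3 hf with h | h
    · left
      rw [h]
    · right
      have : Q = {a : H | -a ∈ P} := by
        ext a
        exact h a
      rw [this]
  obtain ⟨X, hX, hgen⟩ := exists_generic Ax hcl _ _ hc
  refine ⟨X, Partrec.turingReducible hPc, ?_⟩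
  rintro Q h1 h2 h3 ⟨hr1, hr2⟩
  have hneg : Computable (Set.indicator (μ ⁻¹' {a : H | -a ∈ P}) (fun _ => (1 : ℕ)) : ℕ → ℕ) := by
    have hp : Primrec (fun p : ℕ × ℕ => if p.1 = μ.symm 0 then 1 else 1 - p.2) :=
      Primrec.ite (Primrec.eq.comp Primrec.fst (Primrec.const (μ.symm 0))) (Primrec.const 1)
        (Primrec.nat_sub.comp (Primrec.const 1) Primrec.snd)
    have hq := hp.to_comp.comp (Computable.pair Computable.id hPc)
    refine hq.of_eq fun n => ?_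
    show (if n = μ.symm 0 then 1 else
      1 - (Set.indicator (μ ⁻¹' P) (fun _ => (1 : ℕ)) : ℕ → ℕ) n) = _
    have h0P : (0 : H) ∈ P := by
      rcases hP3 0 with h | h
      · exact h
      · rwa [neg_zero] at h
    have a1 := ind1 {a : H | -a ∈ P} n
    have a2 := ind01 {a : H | -a ∈ P} n
    have b1 := ind1 P n
    have b2 := ind01 P n
    have hm : μ n ∈ {a : H | -a ∈ P} ↔ -μ n ∈ P := Iff.rfl
    rw [hm] at a1
    split_ifs with hn
    · have : μ n = 0 := by rw [hn, Equiv.apply_symm_apply]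
      rw [this, neg_zero] at a1
      exact (a1.mpr h0P).symm
    · have hn0 : μ n ≠ 0 := by
        intro h0
        apply hn
        rw [← h0, Equiv.symm_apply_apply]
      by_cases hmem : μ n ∈ P
      · have h6 : ¬ (-μ n ∈ P) := fun h => hn0 (hP2 _ hmem h)
        rw [b1.mpr hmem]
        rcases a2 with h7 | h7
        · exact h7.symm
        · exact absurd (a1.mp h7) h6
      · have h6 : -μ n ∈ P := (hP3 (μ n)).resolve_left hmem
        rw [a1.mpr h6]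
        rcases b2 with h7 | h7
        · rw [h7]
        · exact absurd (b1.mp h7) hmem
  have hcomp : Computable (Set.indicator (μ ⁻¹' Q) (fun _ => (1 : ℕ)) : ℕ → ℕ) := by
    rcases hgen _ ⟨Q, h1, h2, h3, rfl⟩ hr1 with h | h
    · rw [h]
      exact hPc
    · rw [h]
      exact hneg
  have h5 : TuringReducible (X : ℕ →. ℕ) (fun _ : ℕ => Part.some 0) :=
    hr2.trans (Partrec.turingReducible hcomp)
  exact hX (TuringReducible.partrec_of_const h5)

end Pool.Agent.Helper578.OG
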