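import Mathlib

namespace Pool.Agent.Helper578.OG

theorem computable_find {α : Type} [Primcodable α] {p : α → ℕ → Bool} (hp : Computable₂ p)
    (g : α → ℕ) (hg : ∀ a, p a (g a) = true ∧ ∀ m < g a, p a m = false) : Computable g := by
  have h : Partrec fun a => Nat.rfind (fun n => (Part.some (p a n) : Part Bool)) :=
    Partrec.rfind (p := fun a n => (Part.some (p a n) : Part Bool)) (Computable₂.partrec₂ hp)
  refine h.of_eq fun a => ?_
  apply Part.eq_some_iff.2
  refine Nat.mem_rfind.2 ⟨?_, ?_⟩
  · rw [(hg a).1]; exact Part.mem_some _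
  · intro m hm
    rw [(hg a).2 m hm]; exact Part.mem_some _

/-- no `j < k` is equivalent to `i` -/
def noeq (eqb : ℕ → ℕ → Bool) (i k : ℕ) : Bool :=
  Nat.rec (motive := fun _ => Bool) true (fun j acc => acc && !(eqb j i)) k

theorem noeq_iff (eqb : ℕ → ℕ → Bool) (i k : ℕ) :
    noeq eqb i k = true ↔ ∀ j < k, eqb j i = false := by
  induction k with
  | zero => simp [noeq]
  | succ k ih =>
    have h : noeq eqb i (k + 1) = (noeq eqb i k && !(eqb k i)) := rfl
    rw [h, Bool.and_eq_true, ih]
    constructor
    · rintro ⟨h1, h2⟩ j hj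
      rcases Nat.lt_succ_iff_lt_or_eq.1 hj with h3 | h3
      · exact h1 j h3
      · subst h3
        simpa using h2
    · intro h1
      exact ⟨fun j hj => h1 j (Nat.lt_succ_of_lt hj), by simp [h1 k (Nat.lt_succ_self k)]⟩

def rep (eqb : ℕ → ℕ → Bool) (i : ℕ) : Bool := noeq eqb i i

theorem computable_rep {eqb : ℕ → ℕ → Bool} (heq : Computable₂ eqb) : Computable (rep eqb) := by
  have h := Computable.nat_rec (f := fun i : ℕ => i) (g := fun _ : ℕ => true)
    (h := fun (i : ℕ) (q : ℕ × Bool) => q.2 && !(eqb q.1 i)) Computable.id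
    (Computable.const true) ?_
  · exact h
  · have h1 : Computable fun q : ℕ × ℕ × Bool => eqb q.2.1 q.1 :=
      heq.comp (Computable.fst.comp Computable.snd) Computable.fst
    have h2 : Computable fun q : ℕ × ℕ × Bool => !(eqb q.2.1 q.1) :=
      (Primrec.not.to_comp).comp h1
    have h3 : Computable fun q : ℕ × ℕ × Bool => q.2.2 :=
      Computable.snd.comp Computable.snd
    exact (Primrec.and.to_comp).comp h3 h2

def cnt (eqb : ℕ → ℕ → Bool) (i : ℕ) : ℕ :=
  Nat.rec (motive := fun _ => ℕ) 0 (fun j acc => acc + (bif rep eqb j then 1 else 0)) i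

theorem cnt_eq (eqb : ℕ → ℕ → Bool) (i : ℕ) :
    cnt eqb i = Nat.count (fun j => rep eqb j = true) i := by
  induction i with
  | zero => simp [cnt]
  | succ i ih =>
    have h : cnt eqb (i + 1) = cnt eqb i + (bif rep eqb i then 1 else 0) := rfl
    rw [h, Nat.count_succ, ih]
    cases rep eqb i <;> simp

theorem computable_cnt {eqb : ℕ → ℕ → Bool} (heq : Computable₂ eqb) : Computable (cnt eqb) := by
  have h := Computable.nat_rec (f := fun i : ℕ => i) (g := fun _ : ℕ => 0)
    (h := fun (_ : ℕ) (q : ℕ × ℕ) => q.2 + (bif rep eqb q.1 then 1 else 0)) Computable.id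
    (Computable.const 0) ?_
  · exact h
  · have h1 : Computable fun q : ℕ × ℕ × ℕ => rep eqb q.2.1 :=
      (computable_rep heq).comp (Computable.fst.comp Computable.snd)
    have h2 : Computable fun q : ℕ × ℕ × ℕ => (bif rep eqb q.2.1 then 1 else 0) :=
      Computable.cond h1 (Computable.const 1) (Computable.const 0)
    have h3 : Computable fun q : ℕ × ℕ × ℕ => q.2.2 :=
      Computable.snd.comp Computable.snd
    exact (Primrec.nat_add.to_comp).comp h3 h2

/-- A computable quotient presentation of an infinite group yields a computable copy. -/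
theorem exists_copy {H : Type} [AddCommGroup H] [Infinite H] (f : ℕ → H)
    (hf : Function.Surjective f) (eqb : ℕ → ℕ → Bool) (heq : Computable₂ eqb)
    (heqf : ∀ i j, eqb i j = true ↔ f i = f j) (ad : ℕ → ℕ → ℕ) (had : Computable₂ ad)
    (hadf : ∀ i j, f (ad i j) = f i + f j) :
    ∃ (μ : ℕ ≃ H) (g h : ℕ → ℕ), Computable g ∧ Computable h ∧ (∀ n, μ n = f (g n)) ∧
      (∀ i, μ (h i) = f i) ∧ Computable₂ (fun a b : ℕ => μ.symm (μ a + μ b)) := by
  classical
  have hrep : ∀ i, rep eqb i = true ↔ ∀ j < i, f j ≠ f i := by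
    intro i
    unfold rep
    rw [noeq_iff]
    refine forall₂_congr fun j _ => ?_
    rw [← Bool.not_eq_true, heqf]
  have hex : ∀ i, ∃ j, eqb i j = true := fun i => ⟨i, (heqf i i).2 rfl⟩
  set lead : ℕ → ℕ := fun i => Nat.find (hex i) with hlead
  have hlead1 : ∀ i, f (lead i) = f i := fun i => ((heqf _ _).1 (Nat.find_spec (hex i))).symm
  have hlead2 : ∀ i, ∀ j < lead i, eqb i j = false := fun i j hj =>
    Bool.eq_false_iff.2 (Nat.find_min (hex i) hj)
  have hlead3 : ∀ i, rep eqb (lead i) = true := by
    intro i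
    rw [hrep]
    intro j hj h
    have h1 := hlead2 i j hj
    rw [hlead1 i] at h
    have h2 := (heqf i j).2 h.symm
    rw [h1] at h2
    exact Bool.noConfusion h2
  have hclead : Computable lead := by
    apply computable_find heq
    intro i
    exact ⟨Nat.find_spec (hex i), hlead2 i⟩
  have hinf : (setOf fun j => rep eqb j = true).Infinite := by
    intro hfin
    have h1 : (Set.univ : Set H) ⊆ f '' (setOf fun j => rep eqb j = true) := by
      intro y _
      obtain ⟨i, rfl⟩ := hf y
      exact ⟨lead i, hlead3 i, hlead1 i⟩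
    exact Set.infinite_univ ((hfin.image f).subset h1)
  set g : ℕ → ℕ := Nat.nth (fun j => rep eqb j = true) with hg
  have hgrep : ∀ n, rep eqb (g n) = true := fun n => Nat.nth_mem_of_infinite hinf n
  have hcg : ∀ n, cnt eqb (g n) = n := by
    intro n
    rw [cnt_eq, hg]
    exact Nat.count_nth_of_infinite hinf n
  have hgc : ∀ m, rep eqb m = true → g (cnt eqb m) = m := by
    intro m hm
    rw [cnt_eq, hg]
    exact Nat.nth_count (p := fun j => rep eqb j = true) hm
  have hcompg : Computable g := by
    apply computable_find (p := fun n i => rep eqb i && decide (cnt eqb i = n))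
    · have h1 : Computable fun q : ℕ × ℕ => rep eqb q.2 :=
        (computable_rep heq).comp Computable.snd
      have h2 : Computable fun q : ℕ × ℕ => decide (cnt eqb q.2 = q.1) :=
        (Primrec.beq (α := ℕ)).to_comp.comp ((computable_cnt heq).comp Computable.snd)
          Computable.fst |>.of_eq fun q => by simp [beq_eq_decide]
      exact (Primrec.and.to_comp).comp h1 h2
    · intro n
      refine ⟨by simp [hgrep, hcg], ?_⟩
      intro m hm
      by_contra hne
      rw [Bool.not_eq_false, Bool.and_eq_true, decide_eq_true_eq] at hne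
      have := hgc m hne.1
      rw [hne.2] at this
      omega
  have hcomph : Computable fun i => cnt eqb (lead i) := (computable_cnt heq).comp hclead
  have hbij : Function.Bijective fun n => f (g n) := by
    constructor
    · intro a b hab
      simp only at hab
      have h1 : g a = g b := by
        rcases lt_trichotomy (g a) (g b) with h | h | h
        · exact absurd hab ((hrep _).1 (hgrep b) _ h)
        · exact h
        · exact absurd hab.symm ((hrep _).1 (hgrep a) _ h)
      have h2 := congrArg (cnt eqb) h1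
      rwa [hcg, hcg] at h2
    · intro y
      obtain ⟨i, rfl⟩ := hf y
      refine ⟨cnt eqb (lead i), ?_⟩
      simp only
      rw [hgc _ (hlead3 i), hlead1]
  set μ : ℕ ≃ H := Equiv.ofBijective _ hbij with hμ
  have hμg : ∀ n, μ n = f (g n) := fun n => rfl
  have hμh : ∀ i, μ (cnt eqb (lead i)) = f i := by
    intro i
    rw [hμg, hgc _ (hlead3 i), hlead1]
  refine ⟨μ, g, fun i => cnt eqb (lead i), hcompg, hcomph, hμg, hμh, ?_⟩
  have h1 : ∀ a b, μ.symm (μ a + μ b) = cnt eqb (lead (ad (g a) (g b))) := by
    intro a b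
    rw [Equiv.symm_apply_eq, hμh, hadf, hμg, hμg]
  have h2 : Computable fun q : ℕ × ℕ => cnt eqb (lead (ad (g q.1) (g q.2))) :=
    hcomph.comp (had.comp (hcompg.comp Computable.fst) (hcompg.comp Computable.snd))
  exact h2.of_eq fun q => (h1 q.1 q.2).symm

end Pool.Agent.Helper578.OG
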