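import Pool.Agent.Helper578.OG.Win
import Pool.Agent.Helper578.OG.J2
import Pool.Agent.Helper578.OG.J10
import Pool.Agent.Helper578.OG.J11
import Pool.Agent.Helper578.OG.J13

/-! Every computable torsion-free abelian group of infinite rank has a computable copy with exactly
two computable orders, and with an oracle computing an order but not computable from... -/

namespace Pool.Agent.Helper578.OG

open Nat.Partrec (Code)

variable {H : Type} [AddCommGroup H]

/-- The initial state. -/
def init (d1 d2 : ℕ) : St := (0, 1, [[1], [0, 1]], [d1, d2], [0, 1], [1, 1], [])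

theorem init_inv (ν : ℕ ≃ H) (d1 d2 : ℕ) : FInv ν d1 d2 (init d1 d2) := by
  refine { lenA := rfl, lenu := rfl, rk2 := le_rfl, Npos := one_pos, rows := ?_, pos := ?_,
           g0 := rfl, g1 := rfl, hrel := ?_, nv := ?_, rho := one_pos, hd1 := rfl, hd2 := rfl,
           least := ?_, done := ?_ }
  · intro i hi
    have hi' : i < 2 := hi
    interval_cases i
    · show 1 ≤ 2
      norm_num
    · show 2 ≤ 2
      norm_num
  · intro j hj
    have hj' : j < 2 := hj
    interval_cases j
    · refine ⟨by show 0 < 2; norm_num, ?_⟩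
      intro l
      rcases l with _ | l
      · rfl
      · show (([] : List ℤ).getD l 0) = _
        simp
    · refine ⟨by show 1 < 2; norm_num, ?_⟩
      intro l
      rcases l with _ | _ | l
      · rfl
      · rfl
      · show (([] : List ℤ).getD l 0) = _
        simp
  · intro i hi
    have hi' : i < 2 := hi
    have hr : rk (init d1 d2) = 2 := rfl
    rw [hr, Finset.sum_range_succ, Finset.sum_range_succ, Finset.sum_range_zero, zero_add]
    interval_cases i
    · show (1 : ℤ) • ν d1 = (1 : ℤ) • ν d1 + (0 : ℤ) • ν d2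
      rw [zero_smul, add_zero]
    · show (1 : ℤ) • ν d2 = (0 : ℤ) • ν d1 + (1 : ℤ) • ν d2
      rw [zero_smul, zero_add]
  · intro i hi
    exact absurd hi (Nat.not_lt_zero i)
  · intro j hj2 hj
    have hj' : j < 2 := hj
    omega
  · intro e he
    exact absurd he (by show e ∉ ([] : List ℕ); simp)

theorem encode_wd (n : ℕ) : Encodable.encode (wd n) = n := by
  unfold wd
  have h2 : Encodable.decode (α := List ℤ) n = some (Denumerable.ofNat (List ℤ) n) :=
    Denumerable.decode_eq_ofNat (List ℤ) n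
  rw [h2]
  exact Denumerable.encode_ofNat (α := List ℤ) n

/-- Addition of codes of words. -/
def adW (n n' : ℕ) : ℕ := Encodable.encode (addW (wd n) (wd n'))

/-- Negation of codes of words. -/
def ngW (n : ℕ) : ℕ := Encodable.encode (mulW (-1) (wd n))

theorem wd_adW (n n' : ℕ) : wd (adW n n') = addW (wd n) (wd n') := wd_encode _

theorem wd_ngW (n : ℕ) : wd (ngW n) = mulW (-1) (wd n) := wd_encode _

theorem computable_adW : Computable₂ adW := computable_addW

theorem computable_ngW : Computable ngW := computable_mulW (-1)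

/-- Existence of a run. -/
theorem exists_run (htf : ∀ (n : ℕ) (x : H), n ≠ 0 → n • x = 0 → x = 0)
    (hinf : ∀ (k : ℕ) (b : ℕ → H), ∃ h : H, ∀ (z : ℕ) (l : List ℤ), l.length ≤ k →
      (z + 1) • h ≠ ev l b)
    (ν : ℕ ≃ H) (hν : Computable₂ (fun a b : ℕ => ν.symm (ν a + ν b))) :
    ∃ (d1 d2 : ℕ) (S : ℕ → St), ν d1 ≠ 0 ∧ Computable S ∧ Run ν d1 d2 S := by
  classical
  obtain ⟨h1, hh1⟩ := hinf 0 (fun _ => 0)
  obtain ⟨h2, hh2⟩ := hinf 1 (fun _ => h1)
  have hh1' : ∀ z : ℕ, (z + 1) • h1 ≠ 0 := by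
    intro z h
    apply hh1 z [] (by simp)
    rw [h]
    simp [ev]
  set d1 := ν.symm h1 with hd1
  set d2 := ν.symm h2 with hd2
  have e1 : ν d1 = h1 := Equiv.apply_symm_apply _ _
  have e2 : ν d2 = h2 := Equiv.apply_symm_apply _ _
  have hne : h1 ≠ 0 := by
    have := hh1' 0
    simpa using this
  have hd : ∀ a b : ℤ, a • ν d1 + b • ν d2 = 0 → a = 0 ∧ b = 0 := by
    intro a b hab
    rw [e1, e2] at hab
    have hb : b = 0 := by
      by_contra hb0
      obtain ⟨z, hz⟩ : ∃ z, b.natAbs = z + 1 :=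
        ⟨b.natAbs - 1, by have := Int.natAbs_ne_zero.2 hb0; omega⟩
      rcases Int.natAbs_eq b with h6 | h6
      · apply hh2 z [-a] (by simp)
        have : ev [-a] (fun _ => h1) = (-a) • h1 := by simp [ev]
        rw [this, ← hz, ← natCast_zsmul, ← h6, neg_smul]
        exact eq_neg_of_add_eq_zero_right hab
      · apply hh2 z [a] (by simp)
        have : ev [a] (fun _ => h1) = a • h1 := by simp [ev]
        rw [this, ← hz, ← natCast_zsmul]
        have h7 : ((b.natAbs : ℕ) : ℤ) = -b := by omega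
        rw [h7, neg_smul]
        exact (eq_neg_of_add_eq_zero_left hab).symm
    refine ⟨?_, hb⟩
    rw [hb, zero_smul, add_zero] at hab
    by_contra ha0
    apply hne
    apply htf a.natAbs h1 (Int.natAbs_ne_zero.2 ha0)
    rcases Int.natAbs_eq a with h1' | h1'
    · rw [h1', natCast_zsmul] at hab
      exact hab
    · rw [h1', neg_smul, natCast_zsmul, neg_eq_zero] at hab
      exact hab
  obtain ⟨S, hS, hS0, hSn⟩ := iter_search (init d1 d2)
    (fun (s : St) (y : Cert) => decide (Chk ν s y)) (fun (_ : St) (y : Cert) => y.1)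
    (computable_chk ν hν) (Computable.fst.comp Computable.snd) (FInv ν d1 d2)
    (init_inv ν d1 d2)
    (fun s hs => by
      obtain ⟨y, hy⟩ := chk_exists htf hd hs
      exact ⟨y, by simpa using hy⟩)
    (fun s y hs hy => chk_finv htf hd hs (by simpa using hy))
  refine ⟨d1, d2, S, by rw [e1]; exact hne, hS, ?_⟩
  refine { finv := fun t => (hSn t).1, step := fun t => ?_, tf := htf, inf := hinf }
  obtain ⟨y, hy, he⟩ := (hSn t).2
  exact ⟨y, by simpa using hy, he⟩

theorem main (htf : ∀ (n : ℕ) (x : H), n ≠ 0 → n • x = 0 → x = 0)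
    (hr : Cardinal.aleph0 ≤ Module.rank ℤ H)
    (ν : ℕ ≃ H) (hν : Computable₂ (fun a b : ℕ => ν.symm (ν a + ν b))) :
    ∃ μ : ℕ ≃ H, Computable₂ (fun a b : ℕ => μ.symm (μ a + μ b)) ∧
      ∃ P : Set H, (∀ a ∈ P, ∀ b ∈ P, a + b ∈ P) ∧ (∀ a : H, a ∈ P → -a ∈ P → a = 0) ∧
        (∀ a : H, a ∈ P ∨ -a ∈ P) ∧
        Computable (Set.indicator (μ ⁻¹' P) (fun _ => (1 : ℕ)) : ℕ → ℕ) ∧
        ∀ Q : Set H, (∀ a ∈ Q, ∀ b ∈ Q, a + b ∈ Q) → (∀ a : H, a ∈ Q → -a ∈ Q → a = 0) →
          (∀ a : H, a ∈ Q ∨ -a ∈ Q) →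
          Computable (Set.indicator (μ ⁻¹' Q) (fun _ => (1 : ℕ)) : ℕ → ℕ) →
          Q = P ∨ ∀ a, a ∈ Q ↔ -a ∈ P := by
  classical
  have : Infinite H := Infinite.of_injective ν ν.injective
  obtain ⟨d1, d2, S, hd, hS, R⟩ := exists_run htf (exists_indep hr) ν hν
  obtain ⟨U, hU⟩ := R.exists_U
  obtain ⟨σ, hσ⟩ := R.exists_sgn
  set x : ℕ → H := fun i => ν (U i) with hx
  obtain ⟨sgn, hsgn, hsgn'⟩ := computable_sgn S hS (fun n => by
    obtain ⟨T, hT⟩ := R.sc_unbounded (n + 1)
    exact ⟨T, hT T le_rfl⟩)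
  have hsg : ∀ n, sgn n = σ (wd n) := by
    intro n
    obtain ⟨t, ht, h⟩ := hsgn' n
    rw [h]
    exact hσ (wd n) t (by rw [encode_wd]; exact ht)
  set F : ℕ → H := fun n => ev (wd n) x with hF
  have hFs : Function.Surjective F := by
    intro h
    obtain ⟨m, hm⟩ := R.ev_surj hU h
    exact ⟨Encodable.encode m, by show ev (wd (Encodable.encode m)) x = h; rw [wd_encode]; exact hm⟩
  set eqb : ℕ → ℕ → Bool := fun n n' => decide (sgn (adW n (ngW n')) = 0) with heqb
  have hZ : CPj4 (fun z : ℤ => z = 0) := CPj4.eq Computable.id (Computable.const 0)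
  have heqc : Computable₂ eqb := by
    have h1 : Computable (fun p : ℕ × ℕ => sgn (adW p.1 (ngW p.2))) :=
      hsgn.comp (Computable₂.comp computable_adW Computable.fst
        (computable_ngW.comp Computable.snd))
    exact (hZ.comp h1).computable
  have heqf : ∀ i j, eqb i j = true ↔ F i = F j := by
    intro i j
    simp only [heqb, decide_eq_true_eq, hsg, wd_adW, wd_ngW]
    rw [hσ.zero_iff R hU, ev_addW, ev_mulW, neg_one_zsmul, add_neg_eq_zero]
  have hadf : ∀ i j, F (adW i j) = F i + F j := by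
    intro i j
    show ev (wd (adW i j)) x = ev (wd i) x + ev (wd j) x
    rw [wd_adW, ev_addW]
  obtain ⟨μ, g, h, hg, hh, hμg, hμh, hμ⟩ := exists_copy F hFs eqb heqc heqf adW
    computable_adW hadf
  have hcone := hσ.cone R hU
  refine ⟨μ, hμ, PP ν U σ, hcone.add, hcone.anti, hcone.tot, ?_, ?_⟩
  · have h1 : Computable (fun n => if sgn (g n) < 0 then (0 : ℕ) else 1) :=
      CPj4.ite (CPj4.ilt (hsgn.comp hg) (Computable.const 0)) (Computable.const 0)
        (Computable.const 1)
    refine h1.of_eq fun n => ?_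
    have h2 : n ∈ μ ⁻¹' (PP ν U σ) ↔ 0 ≤ sgn (g n) := by
      rw [Set.mem_preimage, hμg n, hsg]
      exact hσ.mem_PP R hU (wd (g n))
    by_cases h3 : n ∈ μ ⁻¹' (PP ν U σ)
    · rw [Set.indicator_of_mem h3, if_neg (not_lt.2 (h2.1 h3))]
    · rw [Set.indicator_of_notMem h3, if_pos]
      exact not_le.1 fun h4 => h3 (h2.2 h4)
  · intro Q hQ1 hQ2 hQ3 hQc
    have hcomp : Computable (fun n => (Set.indicator (μ ⁻¹' Q) (fun _ => (1 : ℕ)) : ℕ → ℕ) (h n)) :=
      hQc.comp hh
    obtain ⟨c, hc⟩ := Code.exists_code.1 (Partrec.nat_iff.1 hcomp)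
    apply R.only_two hd hU hσ (e := Encodable.encode c) ⟨hQ1, hQ2, hQ3⟩
    intro m
    rw [Denumerable.ofNat_encode, hc]
    have h1 : μ (h (Encodable.encode m)) = ev m x := by
      rw [hμh]
      show ev (wd (Encodable.encode m)) x = ev m x
      rw [wd_encode]
    show _ ∈ Part.some (Set.indicator (μ ⁻¹' Q) (fun _ => (1 : ℕ)) (h (Encodable.encode m)))
    rw [Part.mem_some_iff]
    by_cases h2 : ev m x ∈ Q
    · rw [if_pos h2, Set.indicator_of_mem]
      rw [Set.mem_preimage, h1]
      exact h2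
    · rw [if_neg h2, Set.indicator_of_notMem]
      rw [Set.mem_preimage, h1]
      exact h2

end Pool.Agent.Helper578.OG
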