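import Mathlib

/-! A sufficiently generic oracle computes a member of a closed class only if it computes one of
finitely many given members, when these are the only computable members. -/

namespace Pool.Agent.Helper578.OG

/-- Codes for oracle computations (from `Pool/Agent/S09830.lean`). -/
inductive OCode : Type
  | zero : OCode
  | succ : OCode
  | left : OCode
  | right : OCode
  | oracle : OCode
  | pair : OCode → OCode → OCode
  | comp : OCode → OCode → OCode
  | prec : OCode → OCode → OCode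
  | rfind : OCode → OCode
deriving Countable

/-- Semantics of the codes relative to an oracle. -/
def OCode.eval (g : ℕ → Part ℕ) : OCode → (ℕ → Part ℕ)
  | .zero => fun _ => Part.some 0
  | .succ => fun n => Part.some (Nat.succ n)
  | .left => fun n => Part.some (Nat.unpair n).1
  | .right => fun n => Part.some (Nat.unpair n).2
  | .oracle => g
  | .pair a b => fun n => (Nat.pair <$> a.eval g n <*> b.eval g n)
  | .comp a b => fun n => (b.eval g n).bind (a.eval g)
  | .prec a b => fun p =>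
        (Nat.unpair p).2.rec (a.eval g (Nat.unpair p).1) fun y IH =>
          IH.bind fun i => b.eval g (Nat.pair (Nat.unpair p).1 (Nat.pair y i))
  | .rfind a => fun x =>
        Nat.rfind fun n => (a.eval g (Nat.pair x n)).map (fun m => decide (m = 0))

theorem exists_code {g f : ℕ → Part ℕ} (h : Nat.RecursiveIn {g} f) :
    ∃ c : OCode, c.eval g = f := by
  induction h with
  | zero => exact ⟨.zero, rfl⟩
  | succ => exact ⟨.succ, rfl⟩
  | left => exact ⟨.left, rfl⟩
  | right => exact ⟨.right, rfl⟩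
  | oracle g' hg => exact ⟨.oracle, (Set.mem_singleton_iff.1 hg).symm⟩
  | pair _ _ ih1 ih2 =>
    obtain ⟨a, rfl⟩ := ih1; obtain ⟨b, rfl⟩ := ih2; exact ⟨.pair a b, rfl⟩
  | comp _ _ ih1 ih2 =>
    obtain ⟨a, rfl⟩ := ih1; obtain ⟨b, rfl⟩ := ih2; exact ⟨.comp a b, rfl⟩
  | prec _ _ ih1 ih2 =>
    obtain ⟨a, rfl⟩ := ih1; obtain ⟨b, rfl⟩ := ih2; exact ⟨.prec a b, rfl⟩
  | rfind _ ih1 =>
    obtain ⟨a, rfl⟩ := ih1; exact ⟨.rfind a, rfl⟩

/-- The use principle: a halting computation looks only at finitely many oracle values, and at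
these the oracle is defined. -/
theorem use_principle (c : OCode) (g : ℕ → Part ℕ) :
    ∀ n v, v ∈ c.eval g n →
      ∃ m : ℕ, ∀ g' : ℕ → Part ℕ, (∀ i < m, ∀ v ∈ g i, v ∈ g' i) → v ∈ c.eval g' n := by
  induction c with
  | zero => intro n v h; exact ⟨0, fun _ _ => h⟩
  | succ => intro n v h; exact ⟨0, fun _ _ => h⟩
  | left => intro n v h; exact ⟨0, fun _ _ => h⟩
  | right => intro n v h; exact ⟨0, fun _ _ => h⟩
  | oracle =>
    intro n v h
    exact ⟨n + 1, fun g' hg => hg n (Nat.lt_succ_self n) v h⟩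
  | pair a b iha ihb =>
    intro n v h
    simp only [OCode.eval, Seq.seq, Part.mem_bind_iff, Part.map_eq_map, Part.mem_map_iff] at h ⊢
    obtain ⟨f, ⟨x, hx, rfl⟩, y, hy, rfl⟩ := h
    obtain ⟨m1, h1⟩ := iha n x hx
    obtain ⟨m2, h2⟩ := ihb n y hy
    exact ⟨max m1 m2, fun g' hg =>
      ⟨_, ⟨x, h1 g' fun i hi => hg i (lt_of_lt_of_le hi (le_max_left _ _)), rfl⟩, y,
      h2 g' fun i hi => hg i (lt_of_lt_of_le hi (le_max_right _ _)), rfl⟩⟩
  | comp a b iha ihb =>
    intro n v h
    simp only [OCode.eval, Part.mem_bind_iff] at h ⊢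
    obtain ⟨x, hx, hv⟩ := h
    obtain ⟨m1, h1⟩ := ihb n x hx
    obtain ⟨m2, h2⟩ := iha x v hv
    exact ⟨max m1 m2, fun g' hg =>
      ⟨x, h1 g' fun i hi => hg i (lt_of_lt_of_le hi (le_max_left _ _)),
      h2 g' fun i hi => hg i (lt_of_lt_of_le hi (le_max_right _ _))⟩⟩
  | prec a b iha ihb =>
    intro p v h
    simp only [OCode.eval] at h ⊢
    generalize (Nat.unpair p).1 = x at h ⊢
    generalize (Nat.unpair p).2 = n at h ⊢
    induction n generalizing v with
    | zero => exact iha x v h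
    | succ k ih =>
      simp only [Part.mem_bind_iff] at h ⊢
      obtain ⟨i, hi, hv⟩ := h
      obtain ⟨m1, h1⟩ := ih i hi
      obtain ⟨m2, h2⟩ := ihb _ v hv
      exact ⟨max m1 m2, fun g' hg =>
        ⟨i, h1 g' fun i hi => hg i (lt_of_lt_of_le hi (le_max_left _ _)),
        h2 g' fun i hi => hg i (lt_of_lt_of_le hi (le_max_right _ _))⟩⟩
  | rfind a iha =>
    intro x v h
    obtain ⟨h1, hlt⟩ := Nat.mem_rfind.1 h
    obtain ⟨w, hw, hw'⟩ := (Part.mem_map_iff _).1 h1
    obtain ⟨m0, h0⟩ := iha _ w hw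
    have key : ∀ k ≤ v, ∃ M : ℕ, ∀ g' : ℕ → Part ℕ, (∀ i < M, ∀ v ∈ g i, v ∈ g' i) →
        ∀ m, m < k → ∃ u, u ∈ a.eval g' (Nat.pair x m) ∧ decide (u = 0) = false := by
      intro k
      induction k with
      | zero => intro _; exact ⟨0, fun _ _ m hm => absurd hm (Nat.not_lt_zero m)⟩
      | succ k ih =>
        intro hk
        obtain ⟨M, hM⟩ := ih (Nat.le_of_succ_le hk)
        obtain ⟨u, hu, hu'⟩ := (Part.mem_map_iff _).1 (@hlt k hk)
        obtain ⟨M', hM'⟩ := iha _ u hu
        refine ⟨max M M', fun g' hg m hm => ?_⟩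
        rcases Nat.lt_succ_iff_lt_or_eq.1 hm with hm | rfl
        · exact hM g' (fun i hi => hg i (lt_of_lt_of_le hi (le_max_left _ _))) m hm
        · exact ⟨u, hM' g' (fun i hi => hg i (lt_of_lt_of_le hi (le_max_right _ _))), hu'⟩
    obtain ⟨M, hM⟩ := key v le_rfl
    exact ⟨max m0 M, fun g' hg => Nat.mem_rfind.2
      ⟨(Part.mem_map_iff _).2
        ⟨w, h0 g' fun i hi => hg i (lt_of_lt_of_le hi (le_max_left _ _)), hw'⟩,
      fun {m} hm => (Part.mem_map_iff _).2
        (hM g' (fun i hi => hg i (lt_of_lt_of_le hi (le_max_right _ _))) m hm)⟩⟩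

/-- The finite oracle given by a list. -/
def lk (τ : List ℕ) : ℕ → Part ℕ := fun i => ((τ[i]? : Option ℕ) : Part ℕ)

theorem mem_lk {τ : List ℕ} {i v : ℕ} : v ∈ lk τ i ↔ τ[i]? = some v := by
  unfold lk
  exact Part.mem_coe

/-- Evaluation with finite oracles is partial recursive. -/
theorem eval_partrec (c : OCode) : Partrec (fun p : List ℕ × ℕ => c.eval (lk p.1) p.2) := by
  induction c with
  | zero => exact (Computable.const 0).partrec
  | succ => exact (Computable.succ.comp Computable.snd).partrec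
  | left => exact (Computable.fst.comp (Computable.unpair.comp Computable.snd)).partrec
  | right => exact (Computable.snd.comp (Computable.unpair.comp Computable.snd)).partrec
  | oracle =>
    have h : Computable (fun p : List ℕ × ℕ => (p.1[p.2]? : Option ℕ)) :=
      Computable.list_getElem?.comp Computable.fst Computable.snd
    exact h.ofOption
  | pair a b iha ihb =>
    have hb : Partrec (fun q : (List ℕ × ℕ) × ℕ => b.eval (lk q.1.1) q.1.2) :=
      ihb.comp Computable.fst
    have hm : Computable₂ (fun (q : (List ℕ × ℕ) × ℕ) (y : ℕ) => Nat.pair q.2 y) := by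
      have : Computable (fun r : ((List ℕ × ℕ) × ℕ) × ℕ => Nat.pair r.1.2 r.2) :=
        Primrec₂.natPair.to_comp.comp (Computable.snd.comp Computable.fst) Computable.snd
      exact this
    have h2 : Partrec₂ (fun (p : List ℕ × ℕ) (x : ℕ) =>
        (b.eval (lk p.1) p.2).map fun y => Nat.pair x y) := Partrec.map hb hm
    have h : Partrec (fun p : List ℕ × ℕ => (a.eval (lk p.1) p.2).bind fun x =>
        (b.eval (lk p.1) p.2).map fun y => Nat.pair x y) := Partrec.bind iha h2
    refine h.of_eq fun p => ?_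
    simp only [OCode.eval, Seq.seq]
    ext v
    simp [Part.mem_bind_iff, Part.mem_map_iff]
  | comp a b iha ihb =>
    have ha : Partrec (fun q : (List ℕ × ℕ) × ℕ => a.eval (lk q.1.1) q.2) := by
      have h0 : Computable (fun q : (List ℕ × ℕ) × ℕ => (q.1.1, q.2)) :=
        (Computable.fst.comp Computable.fst).pair Computable.snd
      exact Partrec.comp iha h0
    have h2 : Partrec₂ (fun (p : List ℕ × ℕ) (x : ℕ) => a.eval (lk p.1) x) := ha
    exact Partrec.bind ihb h2
  | prec a b iha ihb =>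
    have ha : Partrec (fun p : List ℕ × ℕ => a.eval (lk p.1) p.2.unpair.1) := by
      have h0 : Computable (fun p : List ℕ × ℕ => (p.1, p.2.unpair.1)) :=
        Computable.fst.pair (Computable.fst.comp (Computable.unpair.comp Computable.snd))
      exact Partrec.comp iha h0
    have hb : Partrec (fun q : (List ℕ × ℕ) × (ℕ × ℕ) =>
        b.eval (lk q.1.1) (Nat.pair q.1.2.unpair.1 (Nat.pair q.2.1 q.2.2))) := by
      have h0 : Computable (fun q : (List ℕ × ℕ) × (ℕ × ℕ) =>
          (q.1.1, Nat.pair q.1.2.unpair.1 (Nat.pair q.2.1 q.2.2))) := by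
        refine (Computable.fst.comp Computable.fst).pair ?_
        exact Primrec₂.natPair.to_comp.comp (Computable.fst.comp (Computable.unpair.comp
          (Computable.snd.comp Computable.fst))) (Primrec₂.natPair.to_comp.comp
            (Computable.fst.comp Computable.snd) (Computable.snd.comp Computable.snd))
      exact Partrec.comp ihb h0
    have hb2 : Partrec₂ (fun (p : List ℕ × ℕ) (q : ℕ × ℕ) =>
        b.eval (lk p.1) (Nat.pair p.2.unpair.1 (Nat.pair q.1 q.2))) := hb
    have hn : Computable (fun p : List ℕ × ℕ => p.2.unpair.2) :=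
      Computable.snd.comp (Computable.unpair.comp Computable.snd)
    exact Partrec.nat_rec hn ha hb2
  | rfind a iha =>
    have ha : Partrec (fun q : (List ℕ × ℕ) × ℕ => a.eval (lk q.1.1) (Nat.pair q.1.2 q.2)) := by
      have h0 : Computable (fun q : (List ℕ × ℕ) × ℕ => (q.1.1, Nat.pair q.1.2 q.2)) := by
        refine (Computable.fst.comp Computable.fst).pair ?_
        exact Primrec₂.natPair.to_comp.comp (Computable.snd.comp Computable.fst) Computable.snd
      exact Partrec.comp iha h0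
    have hm : Computable₂ (fun (_ : (List ℕ × ℕ) × ℕ) (m : ℕ) => decide (m = 0)) := by
      have h1 : Primrec (fun q : ((List ℕ × ℕ) × ℕ) × ℕ => decide (q.2 = 0)) :=
        (Primrec.eq.comp Primrec.snd (Primrec.const 0)).decide
      exact h1.to_comp
    have h2 : Partrec₂ (fun (p : List ℕ × ℕ) (n : ℕ) =>
        (a.eval (lk p.1) (Nat.pair p.2 n)).map (fun m => decide (m = 0))) :=
      Partrec.map ha hm
    exact Partrec.rfind h2

/-- Effective search for a second argument at which a partial computable function halts. -/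
theorem exists_search {α β γ : Type} [Primcodable α] [Primcodable β] [Primcodable γ]
    {F : α × β →. γ} (hF : Partrec F) :
    ∃ S : α →. β × γ, Partrec S ∧ (∀ a b c, (b, c) ∈ S a → c ∈ F (a, b)) ∧
      (∀ a b, (F (a, b)).Dom → (S a).Dom) := by
  obtain ⟨cF, hcF⟩ := Nat.Partrec.Code.exists_code.1 hF
  have hspec : ∀ a b v, v ∈ cF.eval (Encodable.encode (a, b)) ↔ ∃ c ∈ F (a, b),
      Encodable.encode c = v := by
    intro a b v
    rw [hcF]
    simp only [Encodable.encodek, Part.coe_some, Part.bind_some, Part.mem_map_iff]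
  let g : α → ℕ → Option (β × γ) := fun a s =>
    (Encodable.decode (α := β) s.unpair.2).bind fun b =>
      (Nat.Partrec.Code.evaln s.unpair.1 cF (Encodable.encode (a, b))).bind fun v =>
        (Encodable.decode (α := γ) v).map fun c => (b, c)
  have hg : Computable₂ g := by
    have h1 : Computable (fun q : (α × ℕ) × β =>
        Nat.Partrec.Code.evaln q.1.2.unpair.1 cF (Encodable.encode (q.1.1, q.2))) := by
      have hp : Primrec (fun q : (α × ℕ) × β =>
          Nat.Partrec.Code.evaln q.1.2.unpair.1 cF (Encodable.encode (q.1.1, q.2))) := by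
        have h01 : Primrec (fun q : (α × ℕ) × β => q.1.2.unpair.1) :=
          Primrec.fst.comp (Primrec.unpair.comp (Primrec.snd.comp Primrec.fst))
        have h02 : Primrec (fun q : (α × ℕ) × β => (q.1.1, q.2)) :=
          (Primrec.fst.comp Primrec.fst).pair Primrec.snd
        have h0 : Primrec (fun q : (α × ℕ) × β =>
            ((q.1.2.unpair.1, cF), Encodable.encode (q.1.1, q.2))) :=
          (h01.pair (Primrec.const cF)).pair (Primrec.encode.comp h02)
        exact Nat.Partrec.Code.primrec_evaln.comp h0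
      exact hp.to_comp
    have h2 : Computable (fun r : ((α × ℕ) × β) × ℕ =>
        (Encodable.decode (α := γ) r.2).map fun c => (r.1.2, c)) := by
      have hp : Primrec (fun r : ((α × ℕ) × β) × ℕ =>
          (Encodable.decode (α := γ) r.2).map fun c => (r.1.2, c)) := by
        refine Primrec.option_map (Primrec.decode.comp Primrec.snd) ?_
        have h5 : Primrec (fun t : (((α × ℕ) × β) × ℕ) × γ => (t.1.1.2, t.2)) :=
          (Primrec.snd.comp (Primrec.fst.comp Primrec.fst)).pair Primrec.snd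
        exact h5
      exact hp.to_comp
    have h3 : Computable (fun q : (α × ℕ) × β =>
        (Nat.Partrec.Code.evaln q.1.2.unpair.1 cF (Encodable.encode (q.1.1, q.2))).bind fun v =>
        (Encodable.decode (α := γ) v).map fun c => (q.2, c)) :=
      Computable.option_bind h1 h2
    have h4 : Computable (fun q : α × ℕ => (Encodable.decode (α := β) q.2.unpair.2)) :=
      (Primrec.decode.comp (Primrec.snd.comp (Primrec.unpair.comp Primrec.snd))).to_comp
    exact Computable.option_bind h4 h3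
  refine ⟨fun a => Nat.rfindOpt (g a), Partrec.rfindOpt hg, ?_, ?_⟩
  · intro a b c h
    obtain ⟨s, hs⟩ := Nat.rfindOpt_spec h
    simp only [g, Option.mem_def, Option.bind_eq_some_iff, Option.map_eq_some_iff] at hs
    obtain ⟨b', _, v, hv, c', hc', heq⟩ := hs
    obtain ⟨rfl, rfl⟩ := Prod.mk.inj heq
    obtain ⟨c'', hc'', hv''⟩ := (hspec a b' v).1 (Nat.Partrec.Code.evaln_sound hv)
    rw [← hv'', Encodable.encodek] at hc'
    rw [← Option.some_inj.1 hc']
    exact hc''
  · intro a b h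
    obtain ⟨c, hc⟩ := Part.dom_iff_mem.1 h
    have hv := (hspec a b (Encodable.encode c)).2 ⟨c, hc, rfl⟩
    obtain ⟨k, hk⟩ := Nat.Partrec.Code.evaln_complete.1 hv
    refine Nat.rfindOpt_dom.2 ⟨Nat.pair k (Encodable.encode b), (b, c), ?_⟩
    simp only [g, Nat.unpair_pair, Encodable.encodek, Option.bind_some, Option.mem_def]
    rw [hk]
    simp

/-- The total oracle extends the string. -/
def Ext (τ : List ℕ) (g : ℕ → ℕ) : Prop := ∀ i v, τ[i]? = some v → g i = v

theorem Ext.of_append {τ ρ : List ℕ} {g : ℕ → ℕ} (h : Ext (τ ++ ρ) g) : Ext τ g := by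
  intro i v hi
  apply h i v
  rw [List.getElem?_append_left]
  · exact hi
  · exact (List.getElem?_eq_some_iff.1 hi).1

/-- The initial segment of length `m`. -/
def seg (g : ℕ → ℕ) (m : ℕ) : List ℕ := (List.range m).map g

theorem seg_ext (g : ℕ → ℕ) (m : ℕ) : Ext (seg g m) g := by
  intro i v h
  simp only [seg, List.getElem?_map, Option.map_eq_some_iff] at h
  obtain ⟨a, ha, hv⟩ := h
  obtain ⟨h1, h2⟩ := List.getElem?_eq_some_iff.1 ha
  simp only [List.getElem_range] at h2
  rw [← hv, ← h2]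

theorem seg_getElem? (g : ℕ → ℕ) {m i : ℕ} (h : i < m) : (seg g m)[i]? = some (g i) := by
  simp [seg, List.getElem?_range h]

theorem ext_eq_seg {τ : List ℕ} {g : ℕ → ℕ} (h : Ext τ g) : τ = seg g τ.length := by
  apply List.ext_getElem?
  intro i
  by_cases hi : i < τ.length
  · rw [seg_getElem? g hi]
    obtain ⟨v, hv⟩ : ∃ v, τ[i]? = some v := ⟨τ[i], List.getElem?_eq_getElem hi⟩
    rw [hv, h i v hv]
  · rw [List.getElem?_eq_none (not_lt.1 hi), List.getElem?_eq_none]
    simp [seg]; omega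

theorem seg_append (g : ℕ → ℕ) {m n : ℕ} (h : m ≤ n) : ∃ ρ, seg g n = seg g m ++ ρ := by
  obtain ⟨d, rfl⟩ := Nat.exists_eq_add_of_le h
  refine ⟨(List.range d).map (fun i => g (m + i)), ?_⟩
  simp only [seg, List.range_add, List.map_append, List.map_map]
  rfl

theorem eval_mono_ext {c : OCode} {τ : List ℕ} {g : ℕ → ℕ} (h : Ext τ g) {n v : ℕ}
    (hv : v ∈ c.eval (lk τ) n) : v ∈ c.eval (fun i => Part.some (g i)) n := by
  obtain ⟨m, hm⟩ := use_principle c _ n v hv
  refine hm _ fun i _ w hw => ?_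
  rw [mem_lk] at hw
  rw [h i w hw]
  exact Part.mem_some _

theorem eval_mono_append {c : OCode} {τ ρ : List ℕ} {n v : ℕ}
    (hv : v ∈ c.eval (lk τ) n) : v ∈ c.eval (lk (τ ++ ρ)) n := by
  obtain ⟨m, hm⟩ := use_principle c _ n v hv
  refine hm _ fun i _ w hw => ?_
  rw [mem_lk] at hw ⊢
  rw [List.getElem?_append_left]
  · exact hw
  · exact (List.getElem?_eq_some_iff.1 hw).1

theorem eval_use {c : OCode} {g : ℕ → ℕ} {n v : ℕ}
    (hv : v ∈ c.eval (fun i => Part.some (g i)) n) : ∃ m, ∀ k, m ≤ k →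
      v ∈ c.eval (lk (seg g k)) n := by
  obtain ⟨m, hm⟩ := use_principle c _ n v hv
  refine ⟨m, fun k hk => hm _ fun i hi w hw => ?_⟩
  rw [mem_lk, seg_getElem? g (lt_of_lt_of_le hi hk)]
  rw [Part.mem_some_iff.1 hw]

/-- The density lemma: for each code, every string extends to one which forces the code not to
compute a member of the class different from `f1, f2`. -/
theorem dense_code (Ax : (ℕ → ℕ) → Prop)
    (hcl : ∀ f, ¬ Ax f → ∃ m, ∀ f', (∀ i < m, f' i = f i) → ¬ Ax f')
    (f1 f2 : ℕ → ℕ) (hc : ∀ f, Computable f → Ax f → f = f1 ∨ f = f2) (c : OCode)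
    (σ : List ℕ) : ∃ ρ : List ℕ, ∀ g : ℕ → ℕ, Ext (σ ++ ρ) g → ∀ f : ℕ → ℕ,
      (∀ n, f n ∈ c.eval (fun i => Part.some (g i)) n) → Ax f → f = f1 ∨ f = f2 := by
  by_contra hcon
  push Not at hcon
  -- initial string
  obtain ⟨g0, hg0, f0, hf0, hA0, h01, h02⟩ := hcon []
  rw [List.append_nil] at hg0
  obtain ⟨a, ha⟩ := Function.ne_iff.1 h01
  obtain ⟨b, hb⟩ := Function.ne_iff.1 h02
  obtain ⟨m1, hm1⟩ := eval_use (hf0 a)
  obtain ⟨m2, hm2⟩ := eval_use (hf0 b)
  set M := max (max m1 m2) σ.length with hM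
  have hσ : ∃ ρ, seg g0 M = σ ++ ρ := by
    obtain ⟨ρ, hρ⟩ := seg_append g0 (le_max_right (max m1 m2) σ.length)
    exact ⟨ρ, by rw [ext_eq_seg hg0]; rw [← ext_eq_seg hg0]; rw [hM, hρ, ← ext_eq_seg hg0]⟩
  obtain ⟨ρ0, hρ0⟩ := hσ
  have hA : f0 a ∈ c.eval (lk (seg g0 M)) a :=
    hm1 M (le_trans (le_max_left _ _) (le_max_left _ _))
  have hB : f0 b ∈ c.eval (lk (seg g0 M)) b :=
    hm2 M (le_trans (le_max_right _ _) (le_max_left _ _))
  -- every extension has a good total extension
  have hext : ∀ ρ : List ℕ, ∃ g : ℕ → ℕ, Ext (seg g0 M ++ ρ) g ∧ ∃ f : ℕ → ℕ,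
      (∀ n, f n ∈ c.eval (fun i => Part.some (g i)) n) ∧ Ax f := by
    intro ρ
    obtain ⟨g, hg, f, hf, hAx, _, _⟩ := hcon (ρ0 ++ ρ)
    refine ⟨g, ?_, f, hf, hAx⟩
    rw [hρ0, List.append_assoc]
    exact hg
  -- the search function
  let F : (List ℕ × ℕ) × List ℕ →. ℕ := fun q => c.eval (lk (q.1.1 ++ q.2)) q.1.2
  have hF : Partrec F := by
    have h0 : Computable (fun q : (List ℕ × ℕ) × List ℕ => (q.1.1 ++ q.2, q.1.2)) :=
      (Primrec.pair (Primrec.list_append.comp (Primrec.fst.comp Primrec.fst) Primrec.snd)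
        (Primrec.snd.comp Primrec.fst)).to_comp
    exact Partrec.comp (eval_partrec c) h0
  obtain ⟨S, hS, hS1, hS2⟩ := exists_search hF
  -- the sequence of strings
  let T : ℕ →. List ℕ := fun n => Nat.rec (Part.some (seg g0 M))
    (fun k IH => IH.bind fun τ => (S (τ, k)).map fun p => τ ++ p.1) n
  have hT : Partrec T := by
    have h1 : Partrec (fun q : ℕ × (ℕ × List ℕ) => S (q.2.2, q.2.1)) :=
      Partrec.comp hS ((Computable.snd.comp Computable.snd).pair
        (Computable.fst.comp Computable.snd))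
    have h2 : Computable₂ (fun (q : ℕ × (ℕ × List ℕ)) (p : List ℕ × ℕ) => q.2.2 ++ p.1) := by
      have : Computable (fun r : (ℕ × (ℕ × List ℕ)) × (List ℕ × ℕ) => r.1.2.2 ++ r.2.1) :=
        (Primrec.list_append.comp (Primrec.snd.comp (Primrec.snd.comp Primrec.fst))
          (Primrec.fst.comp Primrec.snd)).to_comp
      exact this
    have h3 : Partrec₂ (fun (_ : ℕ) (q : ℕ × List ℕ) =>
        (S (q.2, q.1)).map fun p => q.2 ++ p.1) := Partrec.map h1 h2
    exact Partrec.nat_rec (f := fun n : ℕ => n) (g := fun _ => Part.some (seg g0 M))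
      Computable.id (Computable.const _).partrec h3
  -- all members extend the initial string
  have hTdom : ∀ n, ∃ ρ, (seg g0 M ++ ρ) ∈ T n := by
    intro n
    induction n with
    | zero => exact ⟨[], by simp [T]⟩
    | succ k ih =>
      obtain ⟨ρ, hρ⟩ := ih
      obtain ⟨g, hg, f, hf, _⟩ := hext ρ
      obtain ⟨m, hm⟩ := eval_use (hf k)
      obtain ⟨ρ', hρ'⟩ := seg_append g (le_max_left (seg g0 M ++ ρ).length m)
      have hlen := ext_eq_seg hg
      have hd : (F ((seg g0 M ++ ρ, k), ρ')).Dom := by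
        have h5 : f k ∈ F ((seg g0 M ++ ρ, k), ρ') := by
          show f k ∈ c.eval (lk ((seg g0 M ++ ρ) ++ ρ')) k
          rw [hlen, ← hρ']
          exact hm _ (le_max_right _ _)
        exact Part.dom_iff_mem.2 ⟨_, h5⟩
      obtain ⟨p, hp⟩ := Part.dom_iff_mem.1 (hS2 _ _ hd)
      refine ⟨ρ ++ p.1, ?_⟩
      show _ ∈ (T k).bind fun τ => (S (τ, k)).map fun p => τ ++ p.1
      refine Part.mem_bind_iff.2 ⟨_, hρ, (Part.mem_map_iff _).2 ⟨p, hp, ?_⟩⟩
      rw [List.append_assoc]
  -- the computed function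
  let Y' : ℕ →. ℕ := fun n => (T n).bind fun τ => (S (τ, n)).map fun p => p.2
  have hY' : Partrec Y' := by
    have h1 : Partrec (fun q : ℕ × List ℕ => S (q.2, q.1)) :=
      Partrec.comp hS (Computable.snd.pair Computable.fst)
    have h2 : Computable₂ (fun (_ : ℕ × List ℕ) (p : List ℕ × ℕ) => p.2) := by
      have : Computable (fun r : (ℕ × List ℕ) × (List ℕ × ℕ) => r.2.2) :=
        Computable.snd.comp Computable.snd
      exact this
    have h3 : Partrec₂ (fun (n : ℕ) (τ : List ℕ) => (S (τ, n)).map fun p => p.2) :=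
      Partrec.map h1 h2
    exact Partrec.bind hT h3
  have hYdom : ∀ n, ∃ ρ v, (seg g0 M ++ ρ) ∈ T (n + 1) ∧ v ∈ Y' n ∧
      v ∈ c.eval (lk (seg g0 M ++ ρ)) n := by
    intro n
    obtain ⟨ρ, hρ⟩ := hTdom n
    obtain ⟨g, hg, f, hf, _⟩ := hext ρ
    obtain ⟨m, hm⟩ := eval_use (hf n)
    obtain ⟨ρ', hρ'⟩ := seg_append g (le_max_left (seg g0 M ++ ρ).length m)
    have hlen := ext_eq_seg hg
    have hd : (F ((seg g0 M ++ ρ, n), ρ')).Dom := by
      have h5 : f n ∈ F ((seg g0 M ++ ρ, n), ρ') := by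
        show f n ∈ c.eval (lk ((seg g0 M ++ ρ) ++ ρ')) n
        rw [hlen, ← hρ']
        exact hm _ (le_max_right _ _)
      exact Part.dom_iff_mem.2 ⟨_, h5⟩
    obtain ⟨p, hp⟩ := Part.dom_iff_mem.1 (hS2 _ _ hd)
    refine ⟨ρ ++ p.1, p.2, ?_, ?_, ?_⟩
    · show _ ∈ (T n).bind fun τ => (S (τ, n)).map fun p => τ ++ p.1
      refine Part.mem_bind_iff.2 ⟨_, hρ, (Part.mem_map_iff _).2 ⟨p, hp, ?_⟩⟩
      rw [List.append_assoc]
    · exact Part.mem_bind_iff.2 ⟨_, hρ, (Part.mem_map_iff _).2 ⟨p, hp, rfl⟩⟩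
    · have := hS1 _ _ _ hp
      rw [← List.append_assoc]
      exact this
  have hYex : ∀ n, ∃ v, v ∈ Y' n := fun n => by
    obtain ⟨_, v, _, h, _⟩ := hYdom n
    exact ⟨v, h⟩
  choose Y hY using hYex
  have hYc : Computable Y := by
    have : Y' = (Y : ℕ →. ℕ) := by
      funext n
      exact Part.eq_some_iff.2 (hY n)
    rw [this] at hY'
    exact hY'
  have hYv : ∀ n, ∃ ρ, (seg g0 M ++ ρ) ∈ T (n + 1) ∧ Y n ∈ c.eval (lk (seg g0 M ++ ρ)) n := by
    intro n
    obtain ⟨ρ, v, h1, h2, h3⟩ := hYdom n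
    have := Part.mem_unique h2 (hY n)
    subst this
    exact ⟨ρ, h1, h3⟩
  -- the strings are increasing
  have hTmono : ∀ n k τ, τ ∈ T n → ∀ τ', τ' ∈ T (n + k) → ∃ ρ, τ' = τ ++ ρ := by
    intro n k
    induction k with
    | zero =>
      intro τ h τ' h'
      exact ⟨[], by rw [List.append_nil]; exact Part.mem_unique h' h⟩
    | succ k ih =>
      intro τ h τ' h'
      have h'' : τ' ∈ (T (n + k)).bind fun τ => (S (τ, n + k)).map fun p => τ ++ p.1 := h'
      obtain ⟨τ1, h1, h2⟩ := Part.mem_bind_iff.1 h''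
      obtain ⟨p, _, rfl⟩ := (Part.mem_map_iff _).1 h2
      obtain ⟨ρ, rfl⟩ := ih τ h τ1 h1
      exact ⟨ρ ++ p.1, by rw [List.append_assoc]⟩
  -- values agree with members of the class on initial parts
  have hagree : ∀ m, ∃ f, Ax f ∧ ∀ i < m, f i = Y i := by
    intro m
    obtain ⟨ρ, hρ⟩ := hTdom m
    obtain ⟨g, hg, f, hf, hAx⟩ := hext ρ
    refine ⟨f, hAx, fun i hi => ?_⟩
    obtain ⟨ρi, hi1, hi2⟩ := hYv i
    obtain ⟨d, hd⟩ := Nat.exists_eq_add_of_le (Nat.succ_le_of_lt hi)
    obtain ⟨ρ', hρ'⟩ := hTmono (i + 1) d _ hi1 (seg g0 M ++ ρ) (by rw [← hd]; exact hρ)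
    have h1 : Y i ∈ c.eval (lk (seg g0 M ++ ρ)) i := by
      rw [hρ']
      exact eval_mono_append hi2
    have h2 := eval_mono_ext hg h1
    exact Part.mem_unique (hf i) h2
  have hAxY : Ax Y := by
    by_contra hn
    obtain ⟨m, hm⟩ := hcl Y hn
    obtain ⟨f, hf, hfm⟩ := hagree m
    exact hm f hfm hf
  have hY0 : ∀ n, f0 n ∈ c.eval (lk (seg g0 M)) n → Y n = f0 n := by
    intro n hn
    obtain ⟨ρ, _, h⟩ := hYv n
    exact Part.mem_unique h (eval_mono_append hn)
  rcases hc Y hYc hAxY with h | h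
  · apply ha
    rw [← hY0 a hA, h]
  · apply hb
    rw [← hY0 b hB, h]

/-- A generic oracle computes no member of a closed class other than the given two, if these are
the only computable members. -/
theorem exists_generic (Ax : (ℕ → ℕ) → Prop)
    (hcl : ∀ f, ¬ Ax f → ∃ m, ∀ f', (∀ i < m, f' i = f i) → ¬ Ax f')
    (f1 f2 : ℕ → ℕ) (hc : ∀ f, Computable f → Ax f → f = f1 ∨ f = f2) :
    ∃ X : ℕ → ℕ, ¬ Computable X ∧ ∀ f : ℕ → ℕ, Ax f →
      TuringReducible (f : ℕ →. ℕ) (X : ℕ →. ℕ) → f = f1 ∨ f = f2 := by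
  classical
  have : Nonempty OCode := ⟨OCode.zero⟩
  obtain ⟨en, hen⟩ := exists_surjective_nat OCode
  -- one step of the construction
  have hstep : ∀ (k : ℕ) (σ : List ℕ), ∃ ρ : List ℕ, ρ ≠ [] ∧
      ∀ g : ℕ → ℕ, Ext (σ ++ ρ) g →
        (∀ f : ℕ → ℕ, (∀ n, f n ∈ (en k).eval (fun i => Part.some (g i)) n) → Ax f →
          f = f1 ∨ f = f2) ∧
        ¬ (∀ n, g n ∈ (en k).eval (fun _ => Part.some 0) n) := by
    intro k σ
    obtain ⟨ρ, hρ⟩ := dense_code Ax hcl f1 f2 hc (en k) σ
    by_cases hd : ∃ v, v ∈ (en k).eval (fun _ => Part.some 0) (σ ++ ρ).length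
    · obtain ⟨v, hv⟩ := hd
      refine ⟨ρ ++ [v + 1], by simp, fun g hg => ⟨?_, ?_⟩⟩
      · refine hρ g ?_
        rw [← List.append_assoc] at hg
        exact hg.of_append
      · intro hall
        have h1 := hall (σ ++ ρ).length
        have h2 := Part.mem_unique h1 hv
        have h3 : g (σ ++ ρ).length = v + 1 := by
          apply hg
          rw [← List.append_assoc]
          simp
        omega
    · refine ⟨ρ ++ [0], by simp, fun g hg => ⟨?_, ?_⟩⟩
      · refine hρ g ?_
        rw [← List.append_assoc] at hg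
        exact hg.of_append
      · intro hall
        exact hd ⟨_, hall _⟩
  choose nx hne hnx using hstep
  let T : ℕ → List ℕ := fun n => Nat.rec [] (fun k τ => τ ++ nx k τ) n
  have hTs : ∀ n, T (n + 1) = T n ++ nx n (T n) := fun n => rfl
  have hTlen : ∀ n, n ≤ (T n).length := by
    intro n
    induction n with
    | zero => exact Nat.zero_le _
    | succ k ih =>
      rw [hTs, List.length_append]
      have := List.length_pos_iff.2 (hne k (T k))
      omega
  have hTmono : ∀ n k, ∃ ρ, T (n + k) = T n ++ ρ := by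
    intro n k
    induction k with
    | zero => exact ⟨[], by simp⟩
    | succ k ih =>
      obtain ⟨ρ, hρ⟩ := ih
      refine ⟨ρ ++ nx (n + k) (T (n + k)), ?_⟩
      rw [← Nat.add_assoc, hTs, hρ, List.append_assoc]
  let X : ℕ → ℕ := fun i => ((T (i + 1))[i]?).getD 0
  have hX : ∀ n, Ext (T n) X := by
    intro n i v hi
    show ((T (i + 1))[i]?).getD 0 = v
    have hlt : i < (T (i + 1)).length := hTlen (i + 1)
    rcases le_total n (i + 1) with h | h
    · obtain ⟨d, hd⟩ := Nat.exists_eq_add_of_le h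
      obtain ⟨ρ, hρ⟩ := hTmono n d
      rw [hd, hρ, List.getElem?_append_left (List.getElem?_eq_some_iff.1 hi).1, hi]
      rfl
    · obtain ⟨d, hd⟩ := Nat.exists_eq_add_of_le h
      obtain ⟨ρ, hρ⟩ := hTmono (i + 1) d
      rw [hd, hρ, List.getElem?_append_left hlt] at hi
      rw [hi]
      rfl
  refine ⟨X, ?_, ?_⟩
  · intro hcomp
    have h0 : Nat.RecursiveIn {fun _ : ℕ => Part.some 0} (X : ℕ →. ℕ) := by
      have := Partrec.turingReducible (f := (X : ℕ →. ℕ)) (g := fun _ : ℕ => Part.some 0) hcomp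
      exact RecursiveIn.iff_nat.1 this
    obtain ⟨c, hc'⟩ := exists_code h0
    obtain ⟨k, rfl⟩ := hen c
    apply (hnx k (T k) X (hX (k + 1))).2
    intro n
    rw [hc']
    exact Part.mem_some _
  · intro f hf hred
    obtain ⟨c, hc'⟩ := exists_code (g := (X : ℕ →. ℕ)) (RecursiveIn.iff_nat.1 hred)
    obtain ⟨k, rfl⟩ := hen c
    refine (hnx k (T k) X (hX (k + 1))).1 f ?_ hf
    intro n
    have : (fun i => Part.some (X i)) = (X : ℕ →. ℕ) := rfl
    rw [this, hc']
    exact Part.mem_some _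

end Pool.Agent.Helper578.OG
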