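import Pool.Agent.Helper578.OG.Ev

/-! The invariant of the construction. -/

namespace Pool.Agent.Helper578.OG

variable {H : Type} [AddCommGroup H] (ν : ℕ ≃ H)

/-- The structural invariant. -/
structure Inv (s : St) : Prop where
  lenA : (sA s).length = sc s + 2
  lenu : (su s).length = sc s + 2
  rk2 : 2 ≤ rk s
  Npos : 0 < sN s
  rows : ∀ i < sc s + 2, ((sA s).getD i []).length ≤ rk s
  pos : ∀ j < rk s, (sg s).getD j 0 < sc s + 2 ∧
    ∀ l, ent s ((sg s).getD j 0) l = if l = j then sN s else 0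
  g0 : (sg s).getD 0 0 = 0
  g1 : (sg s).getD 1 0 = 1
  hrel : ∀ i < sc s + 2, sN s • uH ν s i = ∑ j ∈ Finset.range (rk s), ent s i j • bb ν s j
  nv : nonvan s
  rho : 0 < (sr s).getD 0 0

variable {ν} {s : St}

theorem Inv.ent_zero (hI : Inv ν s) {i j : ℕ} (hi : i < sc s + 2) (hj : rk s ≤ j) :
    ent s i j = 0 := by
  unfold ent
  exact List.getD_eq_default _ _ ((hI.rows i hi).trans hj)

theorem Inv.wc_zero (hI : Inv ν s) {m : List ℤ} (hm : m.length ≤ sc s + 2) {j : ℕ}
    (hj : rk s ≤ j) : wc s m j = 0 := by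
  unfold wc
  rw [ev_congr m (y := fun _ => (0 : ℤ)) (fun i hi => hI.ent_zero (lt_of_lt_of_le hi hm) hj)]
  exact ev_zero m

theorem Inv.wh_eq (hI : Inv ν s) {m : List ℤ} (hm : m.length ≤ sc s + 2) :
    sN s • wh ν s m = ∑ j ∈ Finset.range (rk s), wc s m j • bb ν s j := by
  unfold wh wc
  rw [← ev_smul, ev_congr m (fun i hi => hI.hrel i (lt_of_lt_of_le hi hm)), ev_sum]
  apply Finset.sum_congr rfl
  intro j _
  rw [ev_mul_right]

theorem wc_unitw (s : St) (i j : ℕ) : wc s (unitw i) j = ent s i j := by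
  unfold wc
  rw [ev_unitw]

theorem wh_unitw (s : St) (i : ℕ) : wh ν s (unitw i) = uH ν s i := by
  unfold wh
  rw [ev_unitw]

theorem wl_unitw (s : St) (i : ℕ) : wl s (unitw i) = rv s i := by
  unfold wl
  rw [ev_unitw]

theorem unitw_zero : unitw 0 = [1] := rfl

theorem length_unitw (i : ℕ) : (unitw i).length = i + 1 := by simp [unitw]

theorem wc_addW (s : St) (m m' : List ℤ) (j : ℕ) : wc s (addW m m') j = wc s m j + wc s m' j := by
  unfold wc
  rw [ev_addW]

theorem wc_mulW (s : St) (k : ℤ) (m : List ℤ) (j : ℕ) : wc s (mulW k m) j = k * wc s m j := by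
  unfold wc
  rw [ev_mulW, smul_eq_mul]

theorem wl_addW (s : St) (m m' : List ℤ) : wl s (addW m m') = wl s m + wl s m' := by
  unfold wl
  rw [ev_addW]

theorem wl_mulW (s : St) (k : ℤ) (m : List ℤ) : wl s (mulW k m) = k * wl s m := by
  unfold wl
  rw [ev_mulW, smul_eq_mul]

theorem wh_addW (s : St) (m m' : List ℤ) : wh ν s (addW m m') = wh ν s m + wh ν s m' := by
  unfold wh
  rw [ev_addW]

theorem wh_mulW (s : St) (k : ℤ) (m : List ℤ) : wh ν s (mulW k m) = k • wh ν s m := by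
  unfold wh
  rw [ev_mulW]

/-- The functional vanishes on words with zero coordinates. -/
theorem Inv.wl_of_wc (hI : Inv ν s) {m : List ℤ} (hm : m.length ≤ sc s + 2)
    (h : ∀ j < rk s, wc s m j = 0) : wl s m = 0 := by
  rw [wl_eq]
  apply Finset.sum_eq_zero
  intro j _
  by_cases hj : j < rk s
  · rw [h j hj, mul_zero]
  · rw [hI.wc_zero hm (not_lt.1 hj), mul_zero]

theorem Inv.ent_g (hI : Inv ν s) {j : ℕ} (hj : j < rk s) (l : ℕ) :
    ent s ((sg s).getD j 0) l = if l = j then sN s else 0 := (hI.pos j hj).2 l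

end Pool.Agent.Helper578.OG
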