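import Mathlib

namespace Pool.Agent.Helper578.OG

/-- Bounded existential quantifiers preserve computability. -/
theorem computable_bex {α : Type} [Primcodable α] {f : α → ℕ → Bool} (hf : Computable₂ f)
    {b : α → ℕ} (hb : Computable b) :
    Computable (fun a => decide (∃ i < b a, f a i = true)) := by
  have h1 : Computable (fun a => Nat.rec (motive := fun _ => Bool) false
      (fun i ih => ih || f a i) (b a)) := by
    refine Computable.nat_rec (h := fun a (p : ℕ × Bool) => p.2 || f a p.1) hb
      (Computable.const false) ?_
    exact Primrec.or.to_comp.comp (Computable.snd.comp Computable.snd)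
      (hf.comp Computable.fst (Computable.fst.comp Computable.snd))
  refine h1.of_eq fun a => ?_
  have h2 : ∀ n : ℕ, (Nat.rec (motive := fun _ => Bool) false (fun i ih => ih || f a i) n) =
      decide (∃ i < n, f a i = true) := by
    intro n
    induction n with
    | zero => simp
    | succ n ih =>
      show ((Nat.rec (motive := fun _ => Bool) false (fun i ih => ih || f a i) n) || f a n) = _
      rw [ih, Bool.eq_iff_iff]
      simp only [Bool.or_eq_true, decide_eq_true_eq]
      constructor
      · rintro (⟨i, hi, h⟩ | h)
        · exact ⟨i, by omega, h⟩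
        · exact ⟨n, by omega, h⟩
      · rintro ⟨i, hi, h⟩
        rcases Nat.lt_succ_iff_lt_or_eq.mp hi with h' | rfl
        · exact Or.inl ⟨i, h', h⟩
        · exact Or.inr h
  exact h2 (b a)

/-- Bounded universal quantifiers preserve computability. -/
theorem computable_ball {α : Type} [Primcodable α] {f : α → ℕ → Bool} (hf : Computable₂ f)
    {b : α → ℕ} (hb : Computable b) :
    Computable (fun a => decide (∀ i < b a, f a i = true)) := by
  have h1 : Computable (fun a => Nat.rec (motive := fun _ => Bool) true
      (fun i ih => ih && f a i) (b a)) := by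
    refine Computable.nat_rec (h := fun a (p : ℕ × Bool) => p.2 && f a p.1) hb
      (Computable.const true) ?_
    exact Primrec.and.to_comp.comp (Computable.snd.comp Computable.snd)
      (hf.comp Computable.fst (Computable.fst.comp Computable.snd))
  refine h1.of_eq fun a => ?_
  have h2 : ∀ n : ℕ, (Nat.rec (motive := fun _ => Bool) true (fun i ih => ih && f a i) n) =
      decide (∀ i < n, f a i = true) := by
    intro n
    induction n with
    | zero => simp
    | succ n ih =>
      show ((Nat.rec (motive := fun _ => Bool) true (fun i ih => ih && f a i) n) && f a n) = _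
      rw [ih, Bool.eq_iff_iff]
      simp only [Bool.and_eq_true, decide_eq_true_eq]
      constructor
      · rintro ⟨h, h'⟩ i hi
        rcases Nat.lt_succ_iff_lt_or_eq.mp hi with h'' | rfl
        · exact h i h''
        · exact h'
      · intro h
        exact ⟨fun i hi => h i (by omega), h n (by omega)⟩
  exact h2 (b a)

/-- Iterated search: from a computable check and a computable move, a computable sequence. -/
theorem iter_search {σ Y : Type} [Primcodable σ] [Primcodable Y] (init : σ)
    (check : σ → Y → Bool) (app : σ → Y → σ) (hc : Computable₂ check) (ha : Computable₂ app)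
    (Inv : σ → Prop) (h0 : Inv init) (hex : ∀ s, Inv s → ∃ y, check s y = true)
    (hinv : ∀ s y, Inv s → check s y = true → Inv (app s y)) :
    ∃ S : ℕ → σ, Computable S ∧ S 0 = init ∧
      ∀ n, Inv (S n) ∧ ∃ y, check (S n) y = true ∧ S (n + 1) = app (S n) y := by
  let F : σ → ℕ → Option Y := fun s n =>
    (Encodable.decode (α := Y) n).bind (fun y => bif check s y then some y else none)
  have hF : Computable₂ F := by
    refine Computable.option_bind (Computable.decode.comp Computable.snd) ?_
    exact Computable.cond
      (hc.comp (Computable.fst.comp Computable.fst) Computable.snd)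
      (Computable.option_some.comp Computable.snd) (Computable.const none)
  let step : σ →. σ := fun s => (Nat.rfindOpt (F s)).map (app s)
  have hstep : Partrec step := (Partrec.rfindOpt hF).map ha
  let P : ℕ →. σ := fun n => Nat.rec (Part.some init) (fun _ IH => IH.bind fun s => step s) n
  have hP : Partrec P :=
    Partrec.nat_rec (f := fun n : ℕ => n) (g := fun _ => Part.some init)
      (h := fun _ (p : ℕ × σ) => step p.2) Computable.id (Partrec.some.comp (Computable.const init))
      (hstep.comp (Computable.snd.comp Computable.snd))
  have hmem : ∀ (s y : σ), y ∈ step s → ∃ z, check s z = true ∧ y = app s z := by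
    intro s y hy
    obtain ⟨z, hz, rfl⟩ := (Part.mem_map_iff _).mp hy
    obtain ⟨m, hm⟩ := Nat.rfindOpt_spec hz
    refine ⟨z, ?_, rfl⟩
    have hm' : (Encodable.decode (α := Y) m).bind
      (fun y => bif check s y then some y else none) = some z := hm
    rw [Option.bind_eq_some_iff] at hm'
    obtain ⟨w, -, hw⟩ := hm'
    cases hcw : check s w
    · rw [hcw] at hw
      simp at hw
    · rw [hcw] at hw
      simp at hw
      rw [← hw]
      exact hcw
  have htot : ∀ s, Inv s → ∃ y, y ∈ step s := by
    intro s hs
    obtain ⟨z, hz⟩ := hex s hs
    have hd : (Nat.rfindOpt (F s)).Dom := by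
      rw [Nat.rfindOpt_dom]
      refine ⟨Encodable.encode z, z, ?_⟩
      show (Encodable.decode (α := Y) (Encodable.encode z)).bind
        (fun y => bif check s y then some y else none) = some z
      rw [Encodable.encodek]
      simp [hz]
    exact ⟨app s ((Nat.rfindOpt (F s)).get hd), Part.mem_map _ (Part.get_mem hd)⟩
  have hall : ∀ n, ∃ s, s ∈ P n ∧ Inv s := by
    intro n
    induction n with
    | zero => exact ⟨init, Part.mem_some _, h0⟩
    | succ n ih =>
      obtain ⟨s, hs, hI⟩ := ih
      obtain ⟨y, hy⟩ := htot s hI
      obtain ⟨z, hz, rfl⟩ := hmem s y hy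
      exact ⟨app s z, Part.mem_bind hs hy, hinv s z hI hz⟩
  choose S hS hSI using hall
  refine ⟨S, hP.of_eq_tot hS, ?_, ?_⟩
  · exact Part.mem_some_iff.mp (hS 0)
  · intro n
    refine ⟨hSI n, ?_⟩
    have h1 : S (n + 1) ∈ (P n).bind fun s => step s := hS (n + 1)
    obtain ⟨s, hs, hy⟩ := Part.mem_bind_iff.mp h1
    have h2 : s = S n := Part.mem_unique hs (hS n)
    rw [h2] at hy
    exact hmem _ _ hy

end Pool.Agent.Helper578.OG
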