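import Mathlib

namespace Pool.Agent.Helper578.OG

/-- The arithmetic core: `v ↦ v - (π v / g) D` with `D = w - y0 - sg (A0 p0 - A x)` almost preserves
the values of the perturbed functional `Q λ + κ`, for suitable large `Q, A0, A`. -/
theorem core {V : Type} [AddCommGroup V] (π lam κ : V →+ ℤ) (w p0 x y0 : V)
    (g β : ℤ) (hg : 0 < g) (hw : π w = g)
    (hlp : 0 < lam p0) (hκp : κ p0 = 0)
    (hlx : 0 < lam x) (hβ : κ x = β) (hβ0 : β ≠ 0)
    (sg : ℤ) (hs : sg = 1 ∨ sg = -1) (S : Finset V) (hS : ∀ v ∈ S, g ∣ π v) (B : ℤ) :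
    ∃ Q A0 A : ℤ, 0 < Q ∧ B ≤ A0 ∧ B ≤ A ∧ ∀ v ∈ S, lam v ≠ 0 →
      Int.sign ((Q • lam + κ) (v - (π v / g) • (w - y0 - sg • (A0 • p0 - A • x)))) =
        Int.sign (lam v) := by
  set α := lam p0 with hα
  set u0 := lam x with hu0
  set Sg : ℤ := ∑ v ∈ S, (|κ v| + |π v / g| * |β|) with hSg
  have hterm : ∀ v ∈ S, |κ v| + |π v / g| * |β| ≤ Sg := by
    intro v hv
    exact Finset.single_le_sum (f := fun v => |κ v| + |π v / g| * |β|)
      (fun v _ => by positivity) hv
  have hSg0 : 0 ≤ Sg := Finset.sum_nonneg (fun v _ => by positivity)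
  set L : ℤ := 2 + Sg with hL
  have hL2 : 2 ≤ L := by linarith
  have hβp : 0 < |β| := abs_pos.2 hβ0
  have hβ1 : 1 ≤ |β| := hβp
  have hβsq : β ^ 2 = |β| * |β| := by rw [← sq, sq_abs]
  set f : ℤ := β * α * L with hf
  set Q : ℤ := β * f with hQ
  have hQ' : Q = β ^ 2 * α * L := by rw [hQ, hf]; ring
  have hQL : |β| * L ≤ Q := by
    rw [hQ', hβsq]
    have h1 : 1 ≤ |β| * α := by nlinarith
    have h2 : |β| * L * 1 ≤ |β| * L * (|β| * α) := by
      apply mul_le_mul_of_nonneg_left h1
      positivity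
    calc |β| * L = |β| * L * 1 := by ring
      _ ≤ |β| * L * (|β| * α) := h2
      _ = |β| * |β| * α * L := by ring
  have hQ1 : L ≤ Q := by nlinarith
  have hQ0 : 0 < Q := by linarith
  have hQβ : |β| < Q := by nlinarith
  set P : ℤ := Q * α with hP
  set X : ℤ := Q * u0 + β with hX
  have hP0 : 1 ≤ P := by
    have : 0 < P := mul_pos hQ0 hlp
    linarith
  have hX0 : 1 ≤ X := by
    have h1 : Q ≤ Q * u0 := le_mul_of_one_le_right hQ0.le hlx
    have h2 := neg_abs_le β
    linarith
  -- coprimality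
  have hcop : IsCoprime (f * α) (f * u0 + 1) := by
    have h1 : IsCoprime f (f * u0 + 1) := by
      refine ⟨-u0, 1, ?_⟩
      ring
    have h2 : IsCoprime α (f * u0 + 1) := by
      refine h1.of_isCoprime_of_dvd_left ?_
      exact ⟨β * L, by rw [hf]; ring⟩
    exact h1.mul_left h2
  obtain ⟨a, b, hab⟩ := hcop
  set τ : ℤ := (Q • lam + κ) (w - y0) with hτ
  set T : ℤ := (sg * τ) / β with hT
  set K : ℤ := |a * T| + |b * T| + |B| with hK
  set A0 : ℤ := a * T + X * K with hA0
  set A : ℤ := -(b * T) + P * K with hA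
  have hK0 : 0 ≤ K := by positivity
  have hA0B : B ≤ A0 := by
    have h1 : K ≤ X * K := le_mul_of_one_le_left hK0 hX0
    have h2 := neg_abs_le (a * T)
    have h3 := le_abs_self B
    have h4 := abs_nonneg (b * T)
    linarith
  have hAB : B ≤ A := by
    have h1 : K ≤ P * K := le_mul_of_one_le_left hK0 hP0
    have h2 := le_abs_self (b * T)
    have h3 := le_abs_self B
    have h4 := abs_nonneg (a * T)
    linarith
  have hkey : A0 * P - A * X = β * T := by
    have h1 : P = β * (f * α) := by rw [hP, hQ]; ring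
    have h2 : X = β * (f * u0 + 1) := by rw [hX, hQ]; ring
    calc A0 * P - A * X = (a * T) * P + (b * T) * X := by rw [hA0, hA]; ring
      _ = β * T * (a * (f * α) + b * (f * u0 + 1)) := by rw [h1, h2]; ring
      _ = β * T := by rw [hab, mul_one]
  refine ⟨Q, A0, A, hQ0, hA0B, hAB, ?_⟩
  intro v hv hlv
  set n := π v / g with hn
  -- value at D
  have hD : (Q • lam + κ) (w - y0 - sg • (A0 • p0 - A • x)) = τ - sg * (β * T) := by
    rw [map_sub _ (w - y0), map_zsmul, map_sub _ (A0 • p0), map_zsmul, map_zsmul]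
    have e1 : (Q • lam + κ) p0 = P := by
      rw [AddMonoidHom.add_apply, hκp, add_zero]
      rfl
    have e2 : (Q • lam + κ) x = X := by
      rw [AddMonoidHom.add_apply, hβ]
      rfl
    rw [e1, e2, smul_eq_mul, smul_eq_mul, smul_eq_mul, hkey]
  have hDabs : |τ - sg * (β * T)| < |β| := by
    have h1 : τ - sg * (β * T) = sg * ((sg * τ) % β) := by
      have h2 := Int.emod_add_mul_ediv (sg * τ) β
      rw [← hT] at h2
      have h3 : sg * sg = 1 := by
        rcases hs with h | h <;> rw [h] <;> norm_num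
      have h4 : (sg * τ) % β = sg * τ - β * T := by linarith
      rw [h4]
      linear_combination (-τ) * h3
    rw [h1, abs_mul]
    have h5 : |sg| = 1 := by
      rcases hs with h | h <;> rw [h] <;> norm_num
    rw [h5, one_mul, abs_of_nonneg (Int.emod_nonneg _ hβ0)]
    exact Int.emod_lt_abs _ hβ0
  have hval : (Q • lam + κ) (v - n • (w - y0 - sg • (A0 • p0 - A • x))) =
      Q * lam v + (κ v - n * (τ - sg * (β * T))) := by
    rw [map_sub, map_zsmul, hD, AddMonoidHom.add_apply, smul_eq_mul]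
    have : (Q • lam) v = Q * lam v := rfl
    rw [this]
    ring
  have herr : |κ v - n * (τ - sg * (β * T))| < Q := by
    have h1 : |κ v - n * (τ - sg * (β * T))| ≤ |κ v| + |n| * |β| := by
      refine (abs_sub _ _).trans ?_
      rw [abs_mul]
      have := mul_le_mul_of_nonneg_left hDabs.le (abs_nonneg n)
      linarith
    have h2 := hterm v hv
    rw [← hn] at h2
    linarith
  rw [hval]
  rw [abs_lt] at herr
  rcases lt_or_gt_of_ne hlv with h | h
  · have h1 : Q * lam v ≤ -Q := by nlinarith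
    rw [Int.sign_eq_neg_one_of_neg h, Int.sign_eq_neg_one_of_neg (by linarith)]
  · have h1 : Q ≤ Q * lam v := by nlinarith
    rw [Int.sign_eq_one_of_pos h, Int.sign_eq_one_of_pos (by linarith)]

end Pool.Agent.Helper578.OG
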