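import Pool.Agent.Helper578.OG.Inv
namespace Pool.Agent.Helper578.OG

variable {H : Type} [AddCommGroup H] {ν : ℕ ≃ H} {s s' : St}

/-- Linearity of the drop move. -/
theorem drop_lin (hI : Inv ν s) {D : List ℤ} (h : dropRel ν s s' D) {m : List ℤ}
    (hm : m.length ≤ sc s + 2) :
    ∃ n : ℤ, wc s D (rk s') * n = wc s m (rk s') ∧
      (∀ j < rk s, wc s' m j = wc s m j - n * wc s D j) ∧
      wh ν s' m = wh ν s m - n • wh ν s D := by
  obtain ⟨_, _, _, _, _, _, _, _, h9, h10, _, h12, h13⟩ := h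
  have hlen := hI.lenA
  refine ⟨ev m (fun i => ent s i (rk s') / wc s D (rk s')), ?_, ?_, ?_⟩
  · have h1 := ev_smul m (fun i => ent s i (rk s') / wc s D (rk s')) (wc s D (rk s'))
    rw [smul_eq_mul] at h1
    rw [← h1]
    conv_rhs => unfold wc
    apply ev_congr
    intro i hi
    rw [smul_eq_mul]
    exact Int.mul_ediv_cancel' (Int.dvd_of_emod_eq_zero (h10 i (by omega)))
  · intro j hj
    have h1 : wc s' m j = ev m (fun i => ent s i j -
        (ent s i (rk s') / wc s D (rk s')) • wc s D j) := by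
      unfold wc
      apply ev_congr
      intro i hi
      rw [smul_eq_mul]
      exact h12 i (by omega) j hj
    rw [h1, ev_sub, ev_mul_right, smul_eq_mul]
    rfl
  · have h1 : wh ν s' m = ev m (fun i => uH ν s i -
        (ent s i (rk s') / wc s D (rk s')) • wh ν s D) := by
      unfold wh
      apply ev_congr
      intro i hi
      conv_lhs => unfold uH
      rw [h13 i (by omega), Equiv.apply_symm_apply]
      rfl
    rw [h1, ev_sub, ev_mul_right]
    rfl

theorem drop_ent_zero (hI : Inv ν s) {D : List ℤ} (h : dropRel ν s s' D) {i j : ℕ}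
    (hi : i < sc s + 2) (hj : rk s' ≤ j) : ent s' i j = 0 := by
  obtain ⟨_, _, _, _, _, _, _, _, _, _, h11, _, _⟩ := h
  have hlen := hI.lenA
  unfold ent
  exact List.getD_eq_default _ _ ((h11 i (by omega)).trans hj)

/-- Words with vanishing top coordinate are not changed. -/
theorem drop_low (hI : Inv ν s) {D : List ℤ} (h : dropRel ν s s' D) {m : List ℤ}
    (hm : m.length ≤ sc s + 2) (h0 : wc s m (rk s') = 0) :
    (∀ j, wc s' m j = wc s m j) ∧ wh ν s' m = wh ν s m := by
  obtain ⟨n, hn1, hn2, hn3⟩ := drop_lin hI h hm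
  have hg : 0 < wc s D (rk s') := h.2.2.2.2.2.2.2.2.1
  have hrk : rk s' + 1 = rk s := h.2.2.2.2.2.1
  have hn0 : n = 0 := by
    rw [h0] at hn1
    exact (mul_eq_zero.1 hn1).resolve_left hg.ne'
  subst hn0
  refine ⟨fun j => ?_, ?_⟩
  · by_cases hj : j < rk s
    · rw [hn2 j hj, zero_mul, sub_zero]
    · rw [hI.wc_zero hm (not_lt.1 hj)]
      unfold wc
      rw [ev_congr m (y := fun _ => (0 : ℤ))
        (fun i hi => drop_ent_zero hI h (lt_of_lt_of_le hi hm) (by omega))]
      exact ev_zero m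
  · rw [hn3, zero_smul, sub_zero]

/-- Generators with vanishing top coordinate are not changed. -/
theorem drop_gen (hI : Inv ν s) {D : List ℤ} (h : dropRel ν s s' D) {i : ℕ}
    (hi : i < sc s + 2) (h0 : ent s i (rk s') = 0) :
    (∀ j, ent s' i j = ent s i j) ∧ (su s').getD i 0 = (su s).getD i 0 := by
  have hlen := hI.lenA
  have h13 := h.2.2.2.2.2.2.2.2.2.2.2.2
  have h1 := drop_low hI h (m := unitw i) (by rw [length_unitw]; omega)
    (by rw [wc_unitw]; exact h0)
  refine ⟨fun j => ?_, ?_⟩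
  · have := h1.1 j
    rwa [wc_unitw, wc_unitw] at this
  · have h2 := h13 i (by omega)
    rw [h0, Int.zero_ediv, zero_smul, sub_zero] at h2
    rw [h2]
    unfold uH
    rw [Equiv.symm_apply_apply]

/-- Vanishing words keep vanishing. -/
theorem drop_zero (hI : Inv ν s) {D : List ℤ} (h : dropRel ν s s' D) {m : List ℤ}
    (hm : m.length ≤ sc s + 2) (h0 : ∀ j < rk s, wc s m j = 0) :
    ∀ j, wc s' m j = 0 := by
  have hrk : rk s' + 1 = rk s := h.2.2.2.2.2.1
  have h1 := drop_low hI h hm (h0 _ (by omega))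
  intro j
  rw [h1.1 j]
  by_cases hj : j < rk s
  · exact h0 j hj
  · exact hI.wc_zero hm (not_lt.1 hj)

/-- The elements at the remaining positions are not changed. -/
theorem drop_bb (hI : Inv ν s) {D : List ℤ} (h : dropRel ν s s' D) {j : ℕ} (hj : j < rk s') :
    bb ν s' j = bb ν s j ∧ (su s').getD ((sg s').getD j 0) 0 = (su s).getD ((sg s).getD j 0) 0 := by
  have hrk : rk s' + 1 = rk s := h.2.2.2.2.2.1
  have h7 := h.2.2.2.2.2.2.1
  have hj' : j < rk s := by omega
  have h1 : ent s ((sg s).getD j 0) (rk s') = 0 := by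
    rw [hI.ent_g hj', if_neg (by omega)]
  have h2 := (drop_gen hI h (hI.pos j hj').1 h1).2
  have h3 : (su s').getD ((sg s').getD j 0) 0 = (su s).getD ((sg s).getD j 0) 0 := by
    rw [h7 j hj, h2]
  refine ⟨?_, h3⟩
  unfold bb uH
  rw [h3]

theorem drop_inv (hI : Inv ν s) {D : List ℤ} (h : dropRel ν s s' D) (h3 : 3 ≤ rk s) :
    Inv ν s' := by
  have hc := h
  obtain ⟨k1, k2, k3, k4, k5, k6, k7, k8, k9, k10, k11, k12, k13⟩ := hc
  have hlen := hI.lenA
  have hlenu := hI.lenu
  refine ⟨by omega, by omega, by omega, by rw [k3]; exact hI.Npos, ?_, ?_, ?_, ?_, ?_, ?_, k1.1⟩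
  · intro i hi
    exact k11 i (by omega)
  · intro j hj
    have hj' : j < rk s := by omega
    have h1 : ent s ((sg s).getD j 0) (rk s') = 0 := by
      rw [hI.ent_g hj', if_neg (by omega)]
    have h2 := (drop_gen hI h (hI.pos j hj').1 h1).1
    rw [k7 j hj]
    refine ⟨by rw [k2]; exact (hI.pos j hj').1, fun l => ?_⟩
    rw [h2, hI.ent_g hj', k3]
  · rw [k7 0 (by omega)]; exact hI.g0
  · rw [k7 1 (by omega)]; exact hI.g1
  · intro i hi
    rw [k2] at hi
    have e1 : uH ν s' i = uH ν s i - (ent s i (rk s') / wc s D (rk s')) • wh ν s D := by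
      conv_lhs => unfold uH
      rw [k13 i (by omega), Equiv.apply_symm_apply]
    rw [k3, e1, smul_sub, smul_comm, hI.hrel i hi, hI.wh_eq (by omega), Finset.smul_sum,
      ← Finset.sum_sub_distrib, ← k6, Finset.sum_range_succ]
    have e2 : ent s i (rk s') • bb ν s (rk s') -
        (ent s i (rk s') / wc s D (rk s')) • wc s D (rk s') • bb ν s (rk s') = 0 := by
      rw [smul_smul, Int.ediv_mul_cancel (Int.dvd_of_emod_eq_zero (k10 i (by omega))), sub_self]
    rw [e2, add_zero]
    apply Finset.sum_congr rfl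
    intro j hj
    have hj1 := Finset.mem_range.1 hj
    rw [(drop_bb hI h hj1).1, k12 i (by omega) j (by omega), smul_smul, ← sub_smul]
  · intro i hi h0 j _
    rw [k2] at hi
    have h1 := k1.2 i hi
    rw [h0, Int.sign_zero] at h1
    have h2 : wl s (wd i) = 0 := Int.sign_eq_zero_iff_zero.1 h1.symm
    have h4 := hI.nv i hi h2
    exact drop_zero hI h (by have := length_wd_le i; omega) h4 j

end Pool.Agent.Helper578.OG
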