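import Pool.Agent.Helper578.OG.Inv
namespace Pool.Agent.Helper578.OG

variable {H : Type} [AddCommGroup H] {ν : ℕ ≃ H} {s s' : St}

theorem cov_wc_ent (hI : Inv ν s) {i : ℕ} (h : covRel ν s s' i) {i' : ℕ} (hi' : i' < sc s + 2)
    (j : ℕ) : ent s' i' j = ((rl i).1 + 1 : ℤ) * ent s i' j := by
  obtain ⟨hrelJ, hmin, hsign, hnv, hsc, hN, hlA, hlu, hrk, hg, hsd, hrows, hent, hentnew, hu,
    hunew⟩ := h
  by_cases hj : j < rk s
  · exact hent i' (by rw [hI.lenA]; exact hi') j hj
  · rw [hI.ent_zero hi' (not_lt.1 hj), mul_zero]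
    unfold ent
    refine List.getD_eq_default _ _ ((hrows i' ?_).trans ?_)
    · rw [hlA, hI.lenA]; omega
    · rw [hrk]; exact not_lt.1 hj

theorem cov_wc (hI : Inv ν s) {i : ℕ} (h : covRel ν s s' i) {m : List ℤ}
    (hm : m.length ≤ sc s + 2) :
    (∀ j, wc s' m j = ((rl i).1 + 1 : ℤ) * wc s m j) ∧ wh ν s' m = wh ν s m := by
  have hE := fun {i' : ℕ} (hi' : i' < sc s + 2) (j : ℕ) => cov_wc_ent hI h hi' j
  obtain ⟨hrelJ, hmin, hsign, hnv, hsc, hN, hlA, hlu, hrk, hg, hsd, hrows, hent, hentnew, hu,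
    hunew⟩ := h
  constructor
  · intro j
    unfold wc
    have h1 := ev_smul m (fun i => ent s i j) ((rl i).1 + 1 : ℤ)
    simp only [smul_eq_mul] at h1
    rw [← h1]
    exact ev_congr m fun i' hi' => hE (lt_of_lt_of_le hi' hm) j
  · unfold wh
    refine ev_congr m fun i' hi' => ?_
    unfold uH
    rw [hu i' (by rw [hI.lenA]; omega)]

theorem cov_bb (hI : Inv ν s) {i : ℕ} (h : covRel ν s s' i) {j : ℕ} (hj : j < rk s) :
    bb ν s' j = bb ν s j ∧ (su s').getD ((sg s').getD j 0) 0 = (su s).getD ((sg s).getD j 0) 0 := by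
  obtain ⟨hrelJ, hmin, hsign, hnv, hsc, hN, hlA, hlu, hrk, hg, hsd, hrows, hent, hentnew, hu,
    hunew⟩ := h
  have h1 : (su s').getD ((sg s').getD j 0) 0 = (su s).getD ((sg s).getD j 0) 0 := by
    rw [hg j hj]
    exact hu _ (by rw [hI.lenA]; exact (hI.pos j hj).1)
  refine ⟨?_, h1⟩
  unfold bb uH
  rw [h1]

theorem cov_inv (hI : Inv ν s) {i : ℕ} (h : covRel ν s s' i) : Inv ν s' := by
  have hE := fun {i' : ℕ} (hi' : i' < sc s + 2) (j : ℕ) => cov_wc_ent hI h hi' j
  have hB := fun {j : ℕ} (hj : j < rk s) => (cov_bb hI h hj).1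
  obtain ⟨hrelJ, hmin, hsign, hnv, hsc, hN, hlA, hlu, hrk, hg, hsd, hrows, hent, hentnew, hu,
    hunew⟩ := h
  have hrk2 := hI.rk2
  have hlenA := hI.lenA
  have hlenu := hI.lenu
  constructor
  · rw [hlA, hsc, hlenA]
  · rw [hlu, hsc, hlenu]
  · rw [hrk]; exact hrk2
  · rw [hN]
    have := hI.Npos
    positivity
  · intro i' hi'
    exact hrows i' (by rw [hlA, hlenA]; omega)
  · intro j hj
    rw [hrk] at hj
    rw [hg j hj]
    refine ⟨by have := (hI.pos j hj).1; omega, fun l => ?_⟩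
    rw [hE (hI.pos j hj).1 l, (hI.pos j hj).2 l, hN]
    split_ifs
    · rfl
    · rw [mul_zero]
  · rw [hg 0 (by omega)]; exact hI.g0
  · rw [hg 1 (by omega)]; exact hI.g1
  · intro i' hi'
    rw [hrk]
    by_cases h1 : i' < sc s + 2
    · have h2 : uH ν s' i' = uH ν s i' := by
        unfold uH
        rw [hu i' (by rw [hlenA]; exact h1)]
      rw [h2, hN, mul_smul, hI.hrel i' h1, Finset.smul_sum]
      refine Finset.sum_congr rfl fun j hj => ?_
      rw [hE h1 j, hB (Finset.mem_range.1 hj), smul_smul]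
    · have h2 : i' = (sA s).length := by omega
      subst h2
      have h3 : uH ν s' (sA s).length = ν (att s) := by
        unfold uH
        rw [hunew]
      obtain ⟨hr1, hr2⟩ := hrelJ
      have h4 : ((rl i).1 + 1 : ℤ) • ν (att s) = ev (rl i).2 (bb ν s) := by
        rw [← hr2, ← natCast_zsmul]
        push_cast
        rfl
      rw [h3, hN, mul_comm, mul_smul, h4, ev_eq _ _ hr1, Finset.smul_sum]
      refine Finset.sum_congr rfl fun j hj => ?_
      rw [hentnew j (Finset.mem_range.1 hj), hB (Finset.mem_range.1 hj), smul_smul]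
  · exact hnv
  · exact hsign.1

theorem app_wc_ent (hI : Inv ν s) {J : ℕ} (h : appRel ν s s' J) {i' : ℕ} (hi' : i' < sc s + 2)
    (j : ℕ) : ent s' i' j = ent s i' j := by
  obtain ⟨h1, h2, hsign, hnv, hsc, hN, hlA, hlu, hrk, hg, hgnew, hsd, hrows, hent, hentnew, hu,
    hunew⟩ := h
  by_cases hj : j < rk s'
  · exact hent i' (by rw [hI.lenA]; exact hi') j hj
  · rw [hI.ent_zero hi' (by omega)]
    unfold ent
    refine List.getD_eq_default _ _ ((hrows i' ?_).trans (not_lt.1 hj))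
    rw [hlA, hI.lenA]; omega

theorem app_wc (hI : Inv ν s) {J : ℕ} (h : appRel ν s s' J) {m : List ℤ}
    (hm : m.length ≤ sc s + 2) :
    (∀ j, wc s' m j = wc s m j) ∧ wh ν s' m = wh ν s m := by
  have hE := fun {i' : ℕ} (hi' : i' < sc s + 2) (j : ℕ) => app_wc_ent hI h hi' j
  obtain ⟨h1, h2, hsign, hnv, hsc, hN, hlA, hlu, hrk, hg, hgnew, hsd, hrows, hent, hentnew, hu,
    hunew⟩ := h
  constructor
  · intro j
    unfold wc
    exact ev_congr m fun i' hi' => hE (lt_of_lt_of_le hi' hm) j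
  · unfold wh
    refine ev_congr m fun i' hi' => ?_
    unfold uH
    rw [hu i' (by rw [hI.lenA]; omega)]

theorem app_bb (hI : Inv ν s) {J : ℕ} (h : appRel ν s s' J) {j : ℕ} (hj : j < rk s) :
    bb ν s' j = bb ν s j ∧ (su s').getD ((sg s').getD j 0) 0 = (su s).getD ((sg s).getD j 0) 0 := by
  obtain ⟨h1, h2, hsign, hnv, hsc, hN, hlA, hlu, hrk, hg, hgnew, hsd, hrows, hent, hentnew, hu,
    hunew⟩ := h
  have h1 : (su s').getD ((sg s').getD j 0) 0 = (su s).getD ((sg s).getD j 0) 0 := by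
    rw [hg j hj]
    exact hu _ (by rw [hI.lenA]; exact (hI.pos j hj).1)
  refine ⟨?_, h1⟩
  unfold bb uH
  rw [h1]

theorem app_bb_new (hI : Inv ν s) {J : ℕ} (h : appRel ν s s' J) :
    bb ν s' (rk s) = ν J ∧ (su s').getD ((sg s').getD (rk s) 0) 0 = J := by
  obtain ⟨h1, h2, hsign, hnv, hsc, hN, hlA, hlu, hrk, hg, hgnew, hsd, hrows, hent, hentnew, hu,
    hunew⟩ := h
  have h1 : (su s').getD ((sg s').getD (rk s) 0) 0 = J := by
    rw [hgnew]; exact hunew
  refine ⟨?_, h1⟩
  unfold bb uH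
  rw [h1]

theorem app_inv (hI : Inv ν s) {J : ℕ} (h : appRel ν s s' J) : Inv ν s' := by
  have hE := fun {i' : ℕ} (hi' : i' < sc s + 2) (j : ℕ) => app_wc_ent hI h hi' j
  have hB := fun {j : ℕ} (hj : j < rk s) => (app_bb hI h hj).1
  have hBn := (app_bb_new hI h).1
  obtain ⟨h1, h2, hsign, hnv, hsc, hN, hlA, hlu, hrk, hg, hgnew, hsd, hrows, hent, hentnew, hu,
    hunew⟩ := h
  have hrk2 := hI.rk2
  have hlenA := hI.lenA
  have hlenu := hI.lenu
  have hnew : ∀ l, ent s' (sA s).length l = if l = rk s then sN s else 0 := by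
    intro l
    by_cases hl : l < rk s'
    · exact hentnew l hl
    · rw [if_neg (by omega)]
      unfold ent
      refine List.getD_eq_default _ _ ((hrows _ ?_).trans (not_lt.1 hl))
      rw [hlA]; omega
  constructor
  · rw [hlA, hsc, hlenA]
  · rw [hlu, hsc, hlenu]
  · rw [hrk]; omega
  · rw [hN]
    exact hI.Npos
  · intro i' hi'
    exact hrows i' (by rw [hlA, hlenA]; omega)
  · intro j hj
    rw [hrk] at hj
    by_cases hj' : j < rk s
    · rw [hg j hj']
      refine ⟨by have := (hI.pos j hj').1; omega, fun l => ?_⟩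
      rw [hE (hI.pos j hj').1 l, (hI.pos j hj').2 l, hN]
    · have hj2 : j = rk s := by omega
      subst hj2
      rw [hgnew]
      refine ⟨by omega, fun l => ?_⟩
      rw [hnew, hN]
  · rw [hg 0 (by omega)]; exact hI.g0
  · rw [hg 1 (by omega)]; exact hI.g1
  · intro i' hi'
    rw [hrk]
    by_cases h1 : i' < sc s + 2
    · have h2 : uH ν s' i' = uH ν s i' := by
        unfold uH
        rw [hu i' (by rw [hlenA]; exact h1)]
      rw [h2, hN, hI.hrel i' h1, Finset.sum_range_succ, hE h1, hI.ent_zero h1 le_rfl, zero_smul,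
        add_zero]
      refine Finset.sum_congr rfl fun j hj => ?_
      rw [hE h1 j, hB (Finset.mem_range.1 hj)]
    · have h2 : i' = (sA s).length := by omega
      subst h2
      have h3 : uH ν s' (sA s).length = ν J := by
        unfold uH
        rw [hunew]
      rw [h3, hN, Finset.sum_range_succ, hnew, if_pos rfl, hBn, Finset.sum_eq_zero, zero_add]
      intro j hj
      rw [hnew, if_neg (by have := Finset.mem_range.1 hj; omega), zero_smul]
  · exact hnv
  · exact hsign.1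

end Pool.Agent.Helper578.OG
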