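import Pool.Agent.Helper578.OG.Inv
namespace Pool.Agent.Helper578.OG

variable {H : Type} [AddCommGroup H] {ν : ℕ ≃ H} {s s' : St}

theorem getD_addW (m m' : List ℤ) (i : ℕ) :
    (addW m m').getD i 0 = m.getD i 0 + m'.getD i 0 := by
  unfold addW
  rw [getD_toW]
  split_ifs with h
  · rfl
  · rw [not_lt] at h
    rw [List.getD_eq_default _ _ ((le_max_left _ _).trans h),
      List.getD_eq_default _ _ ((le_max_right _ _).trans h), add_zero]

theorem getD_mulW (k : ℤ) (m : List ℤ) (i : ℕ) : (mulW k m).getD i 0 = k * m.getD i 0 := by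
  unfold mulW
  rw [getD_toW]
  split_ifs with h
  · rfl
  · rw [not_lt] at h
    rw [List.getD_eq_default _ _ h, mul_zero]

theorem exists_bound (n : ℕ) (f : ℕ → ℤ) : ∃ Q : ℤ, 0 < Q ∧ ∀ i < n, |f i| < Q := by
  refine ⟨1 + ∑ i ∈ Finset.range n, |f i|, ?_, fun i hi => ?_⟩
  · have : 0 ≤ ∑ i ∈ Finset.range n, |f i| := Finset.sum_nonneg fun _ _ => abs_nonneg _
    omega
  · have := Finset.single_le_sum (f := fun i => |f i|) (fun i _ => abs_nonneg _)
      (Finset.mem_range.2 hi)
    omega

theorem sign_aux {k Q a b : ℤ} (hk : 0 < k) (hQ : |b| < Q) (h : a = 0 → b = 0) :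
    Int.sign (Q * (k * a) + k * b) = Int.sign a := by
  have h1 : Q * (k * a) + k * b = k * (Q * a + b) := by ring
  rw [h1, Int.sign_mul, Int.sign_eq_one_of_pos hk, one_mul]
  rcases lt_trichotomy a 0 with ha | ha | ha
  · rw [Int.sign_eq_neg_one_of_neg ha]
    apply Int.sign_eq_neg_one_of_neg
    have := abs_lt.1 hQ
    nlinarith
  · rw [h ha, ha]; simp
  · rw [Int.sign_eq_one_of_pos ha]
    apply Int.sign_eq_one_of_pos
    have := abs_lt.1 hQ
    nlinarith

/-- Given new rows for a new state in which the old committed words have proportional coordinates,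
a functional exists which keeps all signs and does not vanish at the committed words. -/
theorem exists_functional (hI : Inv ν s) (A : List (List ℤ)) (k : ℤ) (r : ℕ) (hk : 0 < k)
    (hr : rk s ≤ r) (hA : ∀ i < A.length, (A.getD i []).length ≤ r)
    (hlen : A.length = sc s + 3)
    (hold : ∀ i < sc s + 2, ∀ j, (A.getD i []).getD j 0 = k * ent s i j) :
    ∃ ρ : List ℤ, 0 < ρ.getD 0 0 ∧
      (∀ i < sc s, Int.sign (ev (wd i) (fun i' => ev ρ (fun j => (A.getD i' []).getD j 0))) =
        Int.sign (wl s (wd i))) ∧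
      (∀ i < sc s + 1, ev (wd i) (fun i' => ev ρ (fun j => (A.getD i' []).getD j 0)) = 0 →
        ∀ j < r, ev (wd i) (fun i' => (A.getD i' []).getD j 0) = 0) := by
  have hw : ∀ i < sc s + 1, (wd i).length ≤ sc s + 2 := fun i hi => by
    have := length_wd_le i
    omega
  have hco : ∀ m : List ℤ, m.length ≤ sc s + 2 → ∀ j,
      ev m (fun i' => (A.getD i' []).getD j 0) = k * wc s m j := by
    intro m hm j
    rw [ev_congr m (y := fun i => k • ent s i j)
      (fun i hi => by rw [hold i (lt_of_lt_of_le hi hm), smul_eq_mul]), ev_smul, smul_eq_mul]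
    rfl
  have hva : ∀ m : List ℤ, m.length ≤ sc s + 2 →
      ev m (fun i' => ev (sr s) (fun j => (A.getD i' []).getD j 0)) = k * wl s m := by
    intro m hm
    rw [ev_congr m (y := fun i => k • rv s i) (fun i hi => ?_), ev_smul, smul_eq_mul]
    · rfl
    · unfold rv
      rw [← ev_smul]
      refine ev_congr _ fun j _ => ?_
      rw [hold i (lt_of_lt_of_le hi hm), smul_eq_mul]
  have hz : ∀ m : List ℤ, m.length ≤ sc s + 2 → (∀ j < rk s, wc s m j = 0) → ∀ j,
      wc s m j = 0 := by
    intro m hm h j
    by_cases hj : j < rk s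
    · exact h j hj
    · exact hI.wc_zero hm (not_lt.1 hj)
  by_cases hcase : wl s (wd (sc s)) = 0 → ∀ j < rk s, wc s (wd (sc s)) j = 0
  · refine ⟨sr s, hI.rho, fun i hi => ?_, fun i hi h0 j _ => ?_⟩
    · rw [hva _ (hw i (by omega)), Int.sign_mul, Int.sign_eq_one_of_pos hk, one_mul]
    · rw [hva _ (hw i hi)] at h0
      have h1 : wl s (wd i) = 0 := by
        rcases mul_eq_zero.1 h0 with h | h
        · omega
        · exact h
      rw [hco _ (hw i hi)]
      have h2 : ∀ j < rk s, wc s (wd i) j = 0 := by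
        rcases Nat.lt_succ_iff_lt_or_eq.1 hi with h | h
        · exact hI.nv i h h1
        · subst h; exact hcase h1
      rw [hz _ (hw i hi) h2, mul_zero]
  · push Not at hcase
    obtain ⟨hm0, j0, hj0, hj1⟩ := hcase
    obtain ⟨Q, hQ, hQb⟩ := exists_bound (sc s) (fun i => wc s (wd i) j0)
    have hval : ∀ m : List ℤ, m.length ≤ sc s + 2 →
        ev m (fun i' => ev (addW (mulW Q (sr s)) (unitw j0))
          (fun j => (A.getD i' []).getD j 0)) = Q * (k * wl s m) + k * wc s m j0 := by
      intro m hm
      have h1 : (fun i' => ev (addW (mulW Q (sr s)) (unitw j0))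
          (fun j => (A.getD i' []).getD j 0)) = fun i' =>
          Q • ev (sr s) (fun j => (A.getD i' []).getD j 0) + (A.getD i' []).getD j0 0 := by
        funext i'
        rw [ev_addW, ev_mulW, ev_unitw]
      rw [h1, ev_add, ev_smul, hva m hm, hco m hm, smul_eq_mul]
    have hsign : ∀ i < sc s, Int.sign (ev (wd i) (fun i' => ev (addW (mulW Q (sr s)) (unitw j0))
          (fun j => (A.getD i' []).getD j 0))) = Int.sign (wl s (wd i)) := by
      intro i hi
      rw [hval _ (hw i (by omega))]
      exact sign_aux hk (hQb i hi) (fun h => hI.nv i hi h j0 hj0)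
    refine ⟨addW (mulW Q (sr s)) (unitw j0), ?_, hsign, fun i hi h0 j _ => ?_⟩
    · rw [getD_addW, getD_mulW]
      have h1 : 0 ≤ (unitw j0).getD 0 0 := by
        cases j0 with
        | zero => simp [unitw]
        | succ n => simp [unitw, List.replicate_succ]
      have := mul_pos hQ hI.rho
      omega
    · rcases Nat.lt_succ_iff_lt_or_eq.1 hi with h | h
      · have h1 := hsign i h
        rw [h0, Int.sign_zero] at h1
        have h2 : wl s (wd i) = 0 := Int.sign_eq_zero_iff_zero.1 h1.symm
        rw [hco _ (hw i hi), hz _ (hw i hi) (hI.nv i h h2), mul_zero]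
      · subst h
        rw [hval _ (hw _ hi), hm0, mul_zero, mul_zero, zero_add] at h0
        rcases mul_eq_zero.1 h0 with h | h
        · omega
        · exact absurd h hj1

theorem getD_append_left' {α : Type} (l : List α) (a : α) (d : α) {i : ℕ} (hi : i < l.length) :
    (l ++ [a]).getD i d = l.getD i d := by
  rw [List.getD_eq_getElem?_getD, List.getElem?_append_left hi, ← List.getD_eq_getElem?_getD]

theorem getD_append_last {α : Type} (l : List α) (a : α) (d : α) :
    (l ++ [a]).getD l.length d = a := by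
  rw [List.getD_eq_getElem?_getD, List.getElem?_append_right le_rfl]
  simp

theorem exists_cover (hI : Inv ν s) (hc : ∃ i, rel ν s i (att s)) :
    ∃ s' i, covRel ν s s' i := by
  classical
  set i0 := Nat.find hc with hi0
  have hrel : rel ν s i0 (att s) := Nat.find_spec hc
  set z : ℤ := ((rl i0).1 + 1 : ℤ) with hz
  have hzp : 0 < z := by positivity
  set A : List (List ℤ) := (sA s).map (fun r => mulW z r) ++ [mulW (sN s) (rl i0).2] with hAdef
  have hmaplen : ((sA s).map (fun r => mulW z r)).length = (sA s).length := List.length_map _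
  have hAlen : A.length = (sA s).length + 1 := by
    rw [hAdef, List.length_append, hmaplen]; rfl
  have hAold : ∀ i < (sA s).length, A.getD i [] = mulW z ((sA s).getD i []) := by
    intro i hi
    rw [hAdef, getD_append_left' _ _ _ (by rw [hmaplen]; exact hi)]
    rw [List.getD_eq_getElem?_getD, List.getElem?_map, List.getD_eq_getElem?_getD,
      List.getElem?_eq_getElem hi]
    rfl
  have hAnew : A.getD (sA s).length [] = mulW (sN s) (rl i0).2 := by
    rw [hAdef, ← hmaplen, getD_append_last]
  have hrows : ∀ i < A.length, (A.getD i []).length ≤ rk s := by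
    intro i hi
    rw [hAlen] at hi
    rcases Nat.lt_succ_iff_lt_or_eq.1 hi with h | h
    · rw [hAold i h, length_mulW]
      exact hI.rows i (by rw [← hI.lenA]; exact h)
    · rw [h, hAnew, length_mulW]
      exact hrel.1
  have hold : ∀ i < sc s + 2, ∀ j, (A.getD i []).getD j 0 = z * ent s i j := by
    intro i hi j
    rw [hAold i (by rw [hI.lenA]; exact hi), getD_mulW]
    rfl
  obtain ⟨ρ, hρ0, hρs, hρn⟩ := exists_functional hI A z (rk s) hzp le_rfl hrows
    (by rw [hAlen, hI.lenA]) hold
  refine ⟨(sc s + 1, z * sN s, A, su s ++ [att s], sg s, ρ, sd s), i0, hrel,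
    fun i' hi' => Nat.find_min hc hi', ⟨hρ0, hρs⟩, ?_, rfl, rfl, hAlen, ?_, rfl,
    fun _ _ => rfl, rfl, hrows, ?_, ?_, ?_, ?_⟩
  · intro i hi h0 j hj
    exact hρn i hi h0 j hj
  · show (su s ++ [att s]).length = (su s).length + 1
    simp
  · intro i' hi' j _
    exact hold i' (by rw [← hI.lenA]; exact hi') j
  · intro j _
    show (A.getD (sA s).length []).getD j 0 = _
    rw [hAnew, getD_mulW]
  · intro i' hi'
    exact getD_append_left' _ _ _ (by rw [hI.lenu, ← hI.lenA]; exact hi')
  · show (su s ++ [att s]).getD (sA s).length 0 = att s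
    rw [hI.lenA, ← hI.lenu, getD_append_last]

theorem rel_unique (htf : ∀ (n : ℕ) (x : H), n ≠ 0 → n • x = 0 → x = 0) {i J J' : ℕ}
    (h : rel ν s i J) (h' : rel ν s i J') : J = J' := by
  have h1 : ((rl i).1 + 1) • (ν J - ν J') = 0 := by
    rw [smul_sub, h.2, h'.2, sub_self]
  exact ν.injective (sub_eq_zero.1 (htf _ _ (Nat.succ_ne_zero _) h1))

theorem exists_append (hI : Inv ν s)
    (htf : ∀ (n : ℕ) (x : H), n ≠ 0 → n • x = 0 → x = 0) : ∃ s' J, appRel ν s s' J := by
  classical
  have hex : ∃ J, ∀ i < sc s, ¬ rel ν s i J := by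
    by_contra hcon
    push Not at hcon
    choose f hf1 hf2 using hcon
    obtain ⟨x, hx, y, hy, hxy, hfxy⟩ := Finset.exists_ne_map_eq_of_card_lt_of_maps_to
      (s := Finset.range (sc s + 1)) (t := Finset.range (sc s)) (f := f) (by simp)
      (fun x _ => Finset.mem_coe.2 (Finset.mem_range.2 (hf1 x)))
    have h1 := hf2 x
    rw [hfxy] at h1
    exact hxy (rel_unique htf h1 (hf2 y))
  set J := Nat.find hex with hJ
  set A : List (List ℤ) := sA s ++ [toW (rk s + 1) (fun j => if j = rk s then sN s else 0)]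
    with hAdef
  have hAlen : A.length = (sA s).length + 1 := by
    rw [hAdef, List.length_append]; rfl
  have hAold : ∀ i < (sA s).length, A.getD i [] = (sA s).getD i [] := by
    intro i hi
    rw [hAdef, getD_append_left' _ _ _ hi]
  have hAnew : A.getD (sA s).length [] =
      toW (rk s + 1) (fun j => if j = rk s then sN s else 0) := by
    rw [hAdef, getD_append_last]
  have hrows : ∀ i < A.length, (A.getD i []).length ≤ rk s + 1 := by
    intro i hi
    rw [hAlen] at hi
    rcases Nat.lt_succ_iff_lt_or_eq.1 hi with h | h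
    · rw [hAold i h]
      exact (hI.rows i (by rw [← hI.lenA]; exact h)).trans (Nat.le_succ _)
    · rw [h, hAnew, length_toW]
  have hold : ∀ i < sc s + 2, ∀ j, (A.getD i []).getD j 0 = 1 * ent s i j := by
    intro i hi j
    rw [hAold i (by rw [hI.lenA]; exact hi), one_mul]
    rfl
  obtain ⟨ρ, hρ0, hρs, hρn⟩ := exists_functional hI A 1 (rk s + 1) one_pos (Nat.le_succ _) hrows
    (by rw [hAlen, hI.lenA]) hold
  have hrk : (sg s ++ [(sA s).length]).length = rk s + 1 := by
    rw [List.length_append]; rfl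
  refine ⟨(sc s + 1, sN s, A, su s ++ [J], sg s ++ [(sA s).length], ρ, sd s), J,
    Nat.find_spec hex, fun J' hJ' => ?_, ⟨hρ0, hρs⟩, ?_, rfl, rfl, hAlen, ?_, hrk, ?_, ?_, rfl,
    ?_, ?_, ?_, ?_, ?_⟩
  · have := Nat.find_min hex hJ'
    push Not at this
    exact this
  · intro i hi h0 j hj
    exact hρn i hi h0 j (lt_of_lt_of_eq hj hrk)
  · show (su s ++ [J]).length = (su s).length + 1
    simp
  · intro j hj
    exact getD_append_left' _ _ _ hj
  · exact getD_append_last _ _ _
  · intro i' hi'
    exact (hrows i' hi').trans_eq hrk.symm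
  · intro i' hi' j _
    have := hold i' (by rw [← hI.lenA]; exact hi') j
    rw [one_mul] at this
    exact this
  · intro j hj
    show (A.getD (sA s).length []).getD j 0 = _
    rw [hAnew, getD_toW, if_pos (lt_of_lt_of_eq hj hrk)]
  · intro i' hi'
    exact getD_append_left' _ _ _ (by rw [hI.lenu, ← hI.lenA]; exact hi')
  · show (su s ++ [J]).getD (sA s).length 0 = J
    rw [hI.lenA, ← hI.lenu, getD_append_last]

end Pool.Agent.Helper578.OG
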