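import Pool.Agent.Helper578.OG.Inv
import Pool.Agent.Helper578.OG.J5
set_option maxHeartbeats 4000000
namespace Pool.Agent.Helper578.OG

variable {H : Type} [AddCommGroup H] {ν : ℕ ≃ H} {s s' : St}

theorem x_getD_map_range {α : Type} (f : ℕ → α) (n i : ℕ) (d : α) (h : i < n) :
    ((List.range n).map f).getD i d = f i := by
  rw [List.getD_eq_getElem?_getD, List.getElem?_map, List.getElem?_range h]
  rfl

/-- coordinate vector of a word -/
noncomputable def vec (s : St) (m : List ℤ) : ℕ → ℤ := fun j => wc s m j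

/-- the functional as a homomorphism -/
noncomputable def lamH (r : List ℤ) : (ℕ → ℤ) →+ ℤ where
  toFun v := ∑ j ∈ Finset.range r.length, r.getD j 0 * v j
  map_zero' := by simp
  map_add' v w := by
    rw [← Finset.sum_add_distrib]
    apply Finset.sum_congr rfl
    intro j _
    rw [Pi.add_apply, mul_add]

theorem lamH_apply (r : List ℤ) (v : ℕ → ℤ) :
    lamH r v = ∑ j ∈ Finset.range r.length, r.getD j 0 * v j := rfl

theorem lamH_vec (s : St) (m : List ℤ) : lamH (sr s) (vec s m) = wl s m := (wl_eq s m).symm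

/-- coordinate -/
def crd (j : ℕ) : (ℕ → ℤ) →+ ℤ := Pi.evalAddMonoidHom (fun _ => ℤ) j

theorem crd_apply (j : ℕ) (v : ℕ → ℤ) : crd j v = v j := rfl

/-- the new functional -/
def newr (r : List ℤ) (Q : ℤ) (j0 : ℕ) : List ℤ :=
  toW (max r.length (j0 + 1)) (fun j => Q * r.getD j 0 + if j = j0 then 1 else 0)

theorem lamH_newr (r : List ℤ) (Q : ℤ) (j0 : ℕ) (v : ℕ → ℤ) :
    lamH (newr r Q j0) v = (Q • lamH r + crd j0) v := by
  rw [AddMonoidHom.add_apply, crd_apply]
  have h1 : (Q • lamH r) v = Q * lamH r v := rfl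
  rw [h1, lamH_apply, lamH_apply]
  have h2 : ∑ j ∈ Finset.range r.length, r.getD j 0 * v j =
      ∑ j ∈ Finset.range (max r.length (j0 + 1)), r.getD j 0 * v j := by
    apply Finset.sum_subset
    · intro i hi
      exact Finset.mem_range.2 (lt_of_lt_of_le (Finset.mem_range.1 hi) (le_max_left _ _))
    · intro i _ hi
      rw [Finset.mem_range, not_lt] at hi
      rw [List.getD_eq_default _ _ hi, zero_mul]
  rw [h2]
  have hl : (newr r Q j0).length = max r.length (j0 + 1) := length_toW _ _
  rw [hl]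
  have h3 : ∀ j ∈ Finset.range (max r.length (j0 + 1)), (newr r Q j0).getD j 0 * v j =
      Q * (r.getD j 0 * v j) + if j = j0 then v j else 0 := by
    intro j hj
    unfold newr
    rw [getD_toW, if_pos (Finset.mem_range.1 hj)]
    split_ifs <;> ring
  rw [Finset.sum_congr rfl h3, Finset.sum_add_distrib, ← Finset.mul_sum]
  congr 1
  rw [Finset.sum_ite_eq' (Finset.range (max r.length (j0 + 1))) j0]
  rw [if_pos]
  exact Finset.mem_range.2 (lt_of_lt_of_le (Nat.lt_succ_self _) (le_max_right _ _))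

theorem newr_zero (r : List ℤ) (Q : ℤ) (hQ : 0 < Q) (hr : 0 < r.getD 0 0) (j0 : ℕ) :
    0 < (newr r Q j0).getD 0 0 := by
  unfold newr
  rw [getD_toW, if_pos (lt_of_lt_of_le (Nat.succ_pos _) (le_max_right _ _))]
  have h1 : 0 < Q * r.getD 0 0 := mul_pos hQ hr
  split_ifs <;> linarith

theorem dvd_wc {s : St} (n p : ℕ) (g : ℤ) (h : ∀ i < n, g ∣ ent s i p) (m : List ℤ)
    (hm : m.length ≤ n) : g ∣ wc s m p := by
  unfold wc ev
  apply Finset.dvd_sum
  intro i hi
  exact Dvd.dvd.mul_left (h i (lt_of_lt_of_le (Finset.mem_range.1 hi) hm)) _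

theorem build (hI : Inv ν s) (h3 : 3 ≤ rk s) (d : List ℕ) (D : List ℤ)
    (hDl : D.length ≤ sc s + 2) (hg : 0 < wc s D (rk s - 1))
    (hdvd : ∀ i < sc s + 2, wc s D (rk s - 1) ∣ ent s i (rk s - 1))
    (Q : ℤ) (hQ : 0 < Q) (j0 : ℕ)
    (hsign : ∀ i < sc s, wl s (wd i) ≠ 0 →
      Int.sign ((Q • lamH (sr s) + crd j0) (vec s (wd i) -
        (wc s (wd i) (rk s - 1) / wc s D (rk s - 1)) • vec s D)) = Int.sign (wl s (wd i))) :
    ∃ s', dropRel ν s s' D ∧ sd s' = d ∧ rk s' = rk s - 1 := by
  set p := rk s - 1 with hp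
  have hrkp : rk s = p + 1 := by omega
  set g := wc s D p with hgdef
  let s' : St := (sc s, sN s, (List.range (sc s + 2)).map (fun i =>
      toW p (fun j => ent s i j - (ent s i p / g) * wc s D j)),
    (List.range (sc s + 2)).map (fun i => ν.symm (uH ν s i - (ent s i p / g) • wh ν s D)),
    (sg s).take p, newr (sr s) Q j0, d)
  have hrk : rk s' = p := by
    show ((sg s).take p).length = p
    rw [List.length_take]
    have : (sg s).length = rk s := rfl
    omega
  have hA : ∀ i < sc s + 2, (sA s').getD i [] =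
      toW p (fun j => ent s i j - (ent s i p / g) * wc s D j) := by
    intro i hi
    exact x_getD_map_range _ _ _ _ hi
  have hent : ∀ i < sc s + 2, ∀ j, ent s' i j =
      ent s i j - (ent s i p / g) * wc s D j := by
    intro i hi j
    unfold ent
    rw [hA i hi, getD_toW]
    split_ifs with h
    · rfl
    · show 0 = ent s i j - (ent s i p / g) * wc s D j
      rcases eq_or_lt_of_le (not_lt.1 h) with h1 | h1
      · rw [← h1, ← hgdef, Int.ediv_mul_cancel (hdvd i hi), sub_self]
      · rw [hI.ent_zero hi (by omega), hI.wc_zero hDl (by omega)]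
        ring
  have hwl : ∀ m : List ℤ, m.length ≤ sc s + 2 → wl s' m =
      (Q • lamH (sr s) + crd j0) (vec s m - (wc s m p / g) • vec s D) := by
    intro m hm
    rw [← lamH_newr]
    have h1 : wl s' m = lamH (newr (sr s) Q j0) (vec s' m) := (lamH_vec s' m).symm
    rw [h1]
    congr 1
    funext j
    show wc s' m j = wc s m j - (wc s m p / g) * wc s D j
    unfold wc
    rw [ev_congr m (fun i hi => hent i (lt_of_lt_of_le hi hm) j), ev_sub]
    congr 1
    have h2 : ev m (fun i => ent s i p / g * wc s D j) =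
        ev m (fun i => (ent s i p / g) • (ev D fun i => ent s i j)) := rfl
    have h3 : ev m (fun i => ent s i p / g) = ev m (fun i => ent s i p) / g := by
      have h4 : ev m (fun i => ent s i p) = g * ev m (fun i => ent s i p / g) := by
        rw [← smul_eq_mul, ← ev_smul]
        apply ev_congr
        intro i hi
        rw [smul_eq_mul, Int.mul_ediv_cancel' (hdvd i (lt_of_lt_of_le hi hm))]
      rw [h4, Int.mul_ediv_cancel_left _ (ne_of_gt hg)]
    rw [h2, ev_mul_right, h3, smul_eq_mul]
  refine ⟨s', ?_, rfl, hrk⟩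
  unfold dropRel
  rw [hrk]
  refine ⟨⟨?_, ?_⟩, rfl, rfl, ?_, ?_, ?_, ?_, ?_, hg, ?_, ?_, ?_, ?_⟩
  · exact newr_zero _ _ hQ hI.rho _
  · intro i hi
    have hl : (wd i).length ≤ sc s + 2 := by
      have := length_wd_le i
      omega
    by_cases h0 : wl s (wd i) = 0
    · have h1 := hI.nv i hi h0
      have h2 : vec s (wd i) = 0 := by
        funext j
        show wc s (wd i) j = 0
        by_cases hj : j < rk s
        · exact h1 j hj
        · exact hI.wc_zero hl (not_lt.1 hj)
      rw [hwl _ hl, h2, h0]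
      have h3' : wc s (wd i) p = 0 := h1 p (by omega)
      rw [h3', Int.zero_ediv, zero_smul, sub_zero, map_zero]
    · rw [hwl _ hl]
      exact hsign i hi h0
  · show ((List.range (sc s + 2)).map _).length = _
    rw [List.length_map, List.length_range, hI.lenA]
  · show ((List.range (sc s + 2)).map _).length = _
    rw [List.length_map, List.length_range, hI.lenu]
  · omega
  · intro j hj
    show ((sg s).take p).getD j 0 = (sg s).getD j 0
    rw [List.getD_eq_getElem?_getD, List.getElem?_take, if_pos hj, List.getD_eq_getElem?_getD]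
  · rw [hI.lenA]; exact hDl
  · intro i hi
    rw [hI.lenA] at hi
    exact Int.emod_eq_zero_of_dvd (hdvd i hi)
  · intro i hi
    rw [hI.lenA] at hi
    rw [hA i hi, length_toW]
  · intro i hi j _
    rw [hI.lenA] at hi
    exact hent i hi j
  · intro i hi
    rw [hI.lenA] at hi
    exact x_getD_map_range _ _ _ _ hi

theorem bez (a : ℕ → ℤ) (n : ℕ) : ∃ c : ℕ → ℤ, ∀ i < n,
    (∑ j ∈ Finset.range n, c j * a j) ∣ a i := by
  induction n with
  | zero => exact ⟨fun _ => 0, fun i hi => absurd hi (Nat.not_lt_zero i)⟩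
  | succ n ih =>
    obtain ⟨c, hc⟩ := ih
    set G := ∑ j ∈ Finset.range n, c j * a j with hG
    refine ⟨fun j => if j < n then Int.gcdA G (a n) * c j else Int.gcdB G (a n), ?_⟩
    have h1 : ∑ j ∈ Finset.range (n + 1),
        (if j < n then Int.gcdA G (a n) * c j else Int.gcdB G (a n)) * a j =
        (Int.gcd G (a n) : ℤ) := by
      rw [Finset.sum_range_succ, if_neg (lt_irrefl n), Int.gcd_eq_gcd_ab]
      have h2 : ∑ j ∈ Finset.range n,
          (if j < n then Int.gcdA G (a n) * c j else Int.gcdB G (a n)) * a j =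
          G * Int.gcdA G (a n) := by
        rw [hG, Finset.sum_mul]
        apply Finset.sum_congr rfl
        intro j hj
        rw [if_pos (Finset.mem_range.1 hj)]
        ring
      rw [h2]
      ring
    intro i hi
    show ∑ j ∈ Finset.range (n + 1),
        (if j < n then Int.gcdA G (a n) * c j else Int.gcdB G (a n)) * a j ∣ a i
    rw [h1]
    rcases Nat.lt_succ_iff_lt_or_eq.1 hi with h | h
    · exact (Int.gcd_dvd_left _ _).trans (hc i h)
    · rw [h]
      exact Int.gcd_dvd_right _ _

theorem exists_W (hI : Inv ν s) {p : ℕ} (hp : p < rk s) : ∃ W : List ℤ,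
    W.length ≤ sc s + 2 ∧ 0 < wc s W p ∧ ∀ i < sc s + 2, wc s W p ∣ ent s i p := by
  obtain ⟨c, hc⟩ := bez (fun i => ent s i p) (sc s + 2)
  have h1 : wc s (toW (sc s + 2) c) p = ∑ j ∈ Finset.range (sc s + 2), c j * ent s j p := by
    unfold wc
    rw [ev_toW]
    rfl
  rw [← h1] at hc
  have hN := (hI.pos p hp).2 p
  rw [if_pos rfl] at hN
  have hdN := hc _ (hI.pos p hp).1
  rw [hN] at hdN
  have hne : wc s (toW (sc s + 2) c) p ≠ 0 := by
    intro h0
    rw [h0, zero_dvd_iff] at hdN
    exact absurd hdN (ne_of_gt hI.Npos)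
  rcases lt_or_gt_of_ne hne with h | h
  · refine ⟨mulW (-1) (toW (sc s + 2) c), ?_, ?_, ?_⟩
    · rw [length_mulW, length_toW]
    · rw [wc_mulW]; linarith
    · intro i hi
      rw [wc_mulW, neg_one_mul, neg_dvd]
      exact hc i hi
  · refine ⟨toW (sc s + 2) c, ?_, h, hc⟩
    rw [length_toW]

theorem lamH_single (r : List ℤ) (hr : 0 < r.getD 0 0) (v : ℕ → ℤ) (N : ℤ)
    (hv : ∀ j, v j = if j = 0 then N else 0) : lamH r v = r.getD 0 0 * N := by
  rw [lamH_apply]
  have hl : 0 < r.length := by
    by_contra h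
    rw [List.getD_eq_default _ _ (not_lt.1 h)] at hr
    exact lt_irrefl _ hr
  rw [Finset.sum_eq_single 0]
  · rw [hv, if_pos rfl]
  · intro j _ hj
    rw [hv, if_neg hj, mul_zero]
  · intro h
    exact absurd (Finset.mem_range.2 hl) h

/-- A general drop move exists. -/
theorem exists_drop (hI : Inv ν s) (h3 : 3 ≤ rk s) (d : List ℕ) :
    ∃ s' D, dropRel ν s s' D ∧ sd s' = d := by
  classical
  set p := rk s - 1 with hp
  obtain ⟨W, hWl, hWp, hWd⟩ := exists_W hI (p := p) (by omega)
  set g := wc s W p with hg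
  have h00 : ∀ l, wc s (unitw 0) l = if l = 0 then sN s else 0 := by
    intro l
    rw [wc_unitw]
    have := (hI.pos 0 (by omega)).2 l
    rw [hI.g0] at this
    exact this
  have h11 : ∀ l, wc s (unitw 1) l = if l = 1 then sN s else 0 := by
    intro l
    rw [wc_unitw]
    have := (hI.pos 1 (by omega)).2 l
    rw [hI.g1] at this
    exact this
  have hN := hI.Npos
  have hlp : 0 < lamH (sr s) (vec s (unitw 0)) := by
    rw [lamH_single (sr s) hI.rho (vec s (unitw 0)) (sN s) h00]
    exact mul_pos hI.rho hN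
  set K : ℤ := 1 + |lamH (sr s) (vec s (unitw 1))| with hK
  have hlx : 0 < lamH (sr s) (vec s (unitw 1) + K • vec s (unitw 0)) := by
    rw [map_add, map_zsmul, smul_eq_mul]
    have h1 := neg_abs_le (lamH (sr s) (vec s (unitw 1)))
    have h2 : 0 ≤ |lamH (sr s) (vec s (unitw 1))| := abs_nonneg _
    nlinarith
  have hS : ∀ v ∈ (Finset.range (sc s)).image (fun i => vec s (wd i)), g ∣ crd p v := by
    intro v hv
    obtain ⟨i, hi, rfl⟩ := Finset.mem_image.1 hv
    have hi' := Finset.mem_range.1 hi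
    exact dvd_wc (sc s + 2) p g hWd (wd i) (by have := length_wd_le i; omega)
  obtain ⟨Q, A0, A, hQ, -, -, hcore⟩ := core (crd p) (lamH (sr s)) (crd 1) (vec s W)
    (vec s (unitw 0)) (vec s (unitw 1) + K • vec s (unitw 0)) 0 g (sN s) hWp rfl hlp
    (by
      show wc s (unitw 0) 1 = 0
      rw [h00]; rfl) hlx
    (by
      show wc s (unitw 1) 1 + K * wc s (unitw 0) 1 = sN s
      rw [h00, h11, if_pos rfl, if_neg (by norm_num), mul_zero, add_zero])
    (ne_of_gt hN) 1 (Or.inl rfl)
    ((Finset.range (sc s)).image (fun i => vec s (wd i))) hS 0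
  set D : List ℤ := addW W (addW (mulW (A * K - A0) (unitw 0)) (mulW A (unitw 1))) with hD
  have hDv : vec s D = vec s W - 0 - (1 : ℤ) • (A0 • vec s (unitw 0) -
      A • (vec s (unitw 1) + K • vec s (unitw 0))) := by
    funext j
    show wc s D j = wc s W j - 0 - 1 * (A0 * wc s (unitw 0) j -
      A * (wc s (unitw 1) j + K * wc s (unitw 0) j))
    rw [hD, wc_addW, wc_addW, wc_mulW, wc_mulW]
    ring
  have hDp : wc s D p = g := by
    rw [hD, wc_addW, wc_addW, wc_mulW, wc_mulW, h00, h11, if_neg (by omega), if_neg (by omega)]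
    ring
  have hDl : D.length ≤ sc s + 2 := by
    rw [hD, length_addW, length_addW, length_mulW, length_mulW, length_unitw, length_unitw]
    omega
  obtain ⟨s', h1, h2, -⟩ := build hI h3 d D hDl (by rw [← hp, hDp]; exact hWp)
    (by rw [← hp, hDp]; exact hWd) Q hQ 1 (by
      intro i hi h0
      have h4 := hcore (vec s (wd i)) (Finset.mem_image.2 ⟨i, Finset.mem_range.2 hi, rfl⟩)
        (by rw [lamH_vec]; exact h0)
      rw [← hDv, lamH_vec] at h4
      rw [← hp, hDp]
      exact h4)
  exact ⟨s', D, h1, h2⟩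

/-- A special drop move exists. -/
theorem exists_special (hI : Inv ν s) (hs : sdrop s) (d : List ℕ) :
    ∃ s' D i Kx, dropRel ν s s' D ∧ specRel s s' i Kx ∧ sd s' = d := by
  classical
  obtain ⟨h3, hready⟩ := hs
  obtain ⟨-, -, ⟨i, hi, hdisx⟩, -⟩ := hready
  have hdisx' := hdisx
  obtain ⟨⟨hwx, -, -, hne⟩, hlow, ⟨j0, hj0, hj01, hj0x⟩⟩ := hdisx'
  set p := rk s - 1 with hp
  have hp2 : 2 ≤ p := by omega
  have hprk : p < rk s := by omega
  obtain ⟨W, hWl, hWp, hWd⟩ := exists_W hI (p := p) hprk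
  set g := wc s W p with hg
  have hgl : ∀ j < rk s, ∀ l, wc s (unitw ((sg s).getD j 0)) l = if l = j then sN s else 0 := by
    intro j hj l
    rw [wc_unitw]
    exact (hI.pos j hj).2 l
  have h00 : ∀ l, wc s (unitw 0) l = if l = 0 then sN s else 0 := by
    intro l
    have := hgl 0 (by omega) l
    rw [hI.g0] at this
    exact this
  have hN := hI.Npos
  have hN1 : 1 ≤ sN s := hN
  have hxp : wc s (wd i) p = 0 := hlow p hprk (by omega)
  have hj0p : j0 < p := by
    rcases lt_or_ge j0 p with h | h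
    · exact h
    · exfalso
      exact hj0x (hlow j0 hj0 (by omega))
  -- signs
  let σ : ℕ → ℤ := fun j => qs (sc s) (rk s - 3) (unitw ((sg s).getD j 0))
  set σx : ℤ := qs (sc s) (rk s - 3) (wd i) with hσx
  have hqs : ∀ m, qs (sc s) (rk s - 3) m = 1 ∨ qs (sc s) (rk s - 3) m = -1 := by
    intro m
    unfold qs
    split_ifs
    · exact Or.inl rfl
    · exact Or.inr rfl
  have hσ1 : ∀ j, σ j = 1 ∨ σ j = -1 := fun j => hqs _
  have hσ2 : ∀ j, σ j * σ j = 1 := by
    intro j
    rcases hσ1 j with h | h <;> rw [h] <;> norm_num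
  have hσ0 : σ 0 = qs (sc s) (rk s - 3) [1] := by
    show qs (sc s) (rk s - 3) (unitw ((sg s).getD 0 0)) = _
    rw [hI.g0]
    rfl
  have hσx0 : σx = - σ 0 := by
    rw [← hσ0] at hne
    rcases hqs (wd i) with h | h <;> rcases hσ1 0 with h' | h'
    · exact absurd (h.trans h'.symm) hne
    · rw [hσx, h, h']; norm_num
    · rw [hσx, h, h']
    · exact absurd (h.trans h'.symm) hne
  set σw : ℤ := σ p with hσw
  -- the numbers
  have hdN : g ∣ sN s := by
    have h1 := hWd _ (hI.pos p hprk).1
    have h2 := (hI.pos p hprk).2 p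
    rw [if_pos rfl] at h2
    rwa [h2] at h1
  set n := sN s / g with hn
  have hng : n * g = sN s := Int.ediv_mul_cancel hdN
  have hn0 : 0 < n := by
    by_contra h
    push Not at h
    nlinarith
  have hn1 : 1 ≤ n := hn0
  set y : ℕ → ℤ := fun j => wc s (unitw ((sg s).getD p 0)) j - n * wc s W j with hy
  set c : ℕ → ℤ := fun j => if j = 0 then 0 else σw * σ j * (1 + |y j|) with hc
  obtain ⟨Y, hYl, hYe⟩ := exists_sumW p (fun j => mulW (c j) (unitw ((sg s).getD j 0)))
    (sc s + 2) (by
      intro j hj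
      rw [length_mulW, length_unitw]
      have := (hI.pos j (by omega)).1
      omega)
  have hYc : ∀ l, wc s Y l = if l < p then c l * sN s else 0 := by
    intro l
    unfold wc
    rw [hYe]
    have h1 : ∀ j ∈ Finset.range p, ev (mulW (c j) (unitw ((sg s).getD j 0)))
        (fun i => ent s i l) = if l = j then c j * sN s else 0 := by
      intro j hj
      rw [Finset.mem_range] at hj
      have h2 := wc_mulW s (c j) (unitw ((sg s).getD j 0)) l
      rw [hgl j (by omega) l] at h2
      unfold wc at h2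
      rw [h2]
      split_ifs <;> simp
    rw [Finset.sum_congr rfl h1, Finset.sum_ite_eq (Finset.range p) l]
    simp only [Finset.mem_range]
  have hlp : 0 < lamH (sr s) (vec s (unitw 0)) := by
    rw [lamH_single (sr s) hI.rho (vec s (unitw 0)) (sN s) h00]
    exact mul_pos hI.rho hN
  have hlx : 0 < lamH (sr s) (vec s (wd i)) := by
    rw [lamH_vec]
    exact hwx
  have hS : ∀ v ∈ (Finset.range (sc s)).image (fun i => vec s (wd i)), g ∣ crd p v := by
    intro v hv
    obtain ⟨i, hi, rfl⟩ := Finset.mem_image.1 hv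
    have hi' := Finset.mem_range.1 hi
    exact dvd_wc (sc s + 2) p g hWd (wd i) (by have := length_wd_le i; omega)
  set sgn : ℤ := -(σw * σ 0) with hsgn
  have hsgn1 : sgn = 1 ∨ sgn = -1 := by
    rcases hσ1 p with h | h <;> rcases hσ1 0 with h' | h' <;> rw [hsgn, hσw, h, h'] <;> norm_num
  obtain ⟨Q, A0, A, hQ, hA0, hA, hcore⟩ := core (crd p) (lamH (sr s)) (crd j0) (vec s W)
    (vec s (unitw 0)) (vec s (wd i)) (-(vec s Y)) g (wc s (wd i) j0) hWp rfl hlp
    (by
      show wc s (unitw 0) j0 = 0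
      rw [h00, if_neg (by omega)]) hlx rfl hj0x sgn hsgn1
    ((Finset.range (sc s)).image (fun i => vec s (wd i))) hS (1 + |y 0|)
  set D : List ℤ := addW (addW W Y) (addW (mulW (-(sgn * A0)) (unitw 0))
    (mulW (sgn * A) (wd i))) with hD
  have hDw : ∀ j, wc s D j = wc s W j + wc s Y j + (-(sgn * A0) * wc s (unitw 0) j +
      sgn * A * wc s (wd i) j) := by
    intro j
    rw [hD, wc_addW, wc_addW, wc_addW, wc_mulW, wc_mulW]
  have hDv : vec s D = vec s W - (-(vec s Y)) - sgn • (A0 • vec s (unitw 0) -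
      A • vec s (wd i)) := by
    funext j
    show wc s D j = wc s W j - (-(wc s Y j)) - sgn * (A0 * wc s (unitw 0) j -
      A * wc s (wd i) j)
    rw [hDw]
    ring
  have hDp : wc s D p = g := by
    rw [hDw, hYc, h00, hxp, if_neg (lt_irrefl _), if_neg (by omega)]
    ring
  have hil : (wd i).length ≤ sc s + 2 := by
    have := length_wd_le i
    omega
  have hDl : D.length ≤ sc s + 2 := by
    rw [hD, length_addW, length_addW, length_addW, length_mulW, length_mulW, length_unitw]
    omega
  obtain ⟨s', h1, h2, hrk'⟩ := build hI h3 d D hDl (by rw [← hp, hDp]; exact hWp)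
    (by rw [← hp, hDp]; exact hWd) Q hQ j0 (by
      intro k hk h0
      have h4 := hcore (vec s (wd k)) (Finset.mem_image.2 ⟨k, Finset.mem_range.2 hk, rfl⟩)
        (by rw [lamH_vec]; exact h0)
      rw [← hDv, lamH_vec] at h4
      rw [← hp, hDp]
      exact h4)
  rw [← hp] at hrk'
  have hA1 : 1 ≤ A := le_trans (by have := abs_nonneg (y 0); linarith) hA
  refine ⟨s', D, i, n * A, h1, ⟨hi, hdisx, ?_, ?_⟩, h2⟩
  · exact mul_pos hn0 (by linarith)
  · rw [hrk']
    intro j hj
    have hent := h1.2.2.2.2.2.2.2.2.2.2.2.1 ((sg s).getD p 0)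
      (by rw [hI.lenA]; exact (hI.pos p hprk).1) j (by omega)
    rw [hrk', hDp, hDw, hYc, if_pos hj, h00] at hent
    have hE1 : ent s ((sg s).getD p 0) p = sN s := by
      rw [(hI.pos p hprk).2 p, if_pos rfl]
    have hE2 : wc s (unitw ((sg s).getD p 0)) j = ent s ((sg s).getD p 0) j := wc_unitw _ _ _
    rw [hE1, ← hn] at hent
    have hyj : y j = ent s ((sg s).getD p 0) j - n * wc s W j := by
      rw [hy, ← hE2]
    -- bound
    have hbd : ∀ A' : ℤ, 1 + |y j| ≤ A' → σ j * σw * y j - n * A' * sN s < 0 := by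
      intro A' hA'
      have h5 : |σ j * σw * y j| = |y j| := by
        rw [abs_mul, abs_mul]
        rcases hσ1 j with h | h <;> rcases hσ1 p with h' | h' <;> rw [hσw, h, h'] <;> simp
      have h6 : σ j * σw * y j ≤ |y j| := by
        rw [← h5]; exact le_abs_self _
      have h7 : 0 ≤ |y j| := abs_nonneg _
      have h8 : 1 ≤ n * sN s := by nlinarith
      have h9 : A' ≤ A' * (n * sN s) := le_mul_of_one_le_right (by linarith) h8
      nlinarith
    show σ j * (σw * ent s' ((sg s).getD p 0) j + n * A * σx * wc s (wd i) j) < 0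
    rw [hent, hσx0]
    by_cases hj0' : j = 0
    · subst hj0'
      rw [if_pos rfl]
      have hc0 : c 0 = 0 := by rw [hc]; simp
      rw [hc0]
      have h5 := hbd A0 hA0
      have h6 : σ 0 * (σw * (ent s ((sg s).getD p 0) 0 - n * (wc s W 0 + 0 * sN s +
          (-(sgn * A0) * sN s + sgn * A * wc s (wd i) 0))) + n * A * -σ 0 * wc s (wd i) 0) =
          σ 0 * σw * y 0 - n * A0 * sN s := by
        rw [hyj, hsgn]
        have e1 := hσ2 0
        have e2 : σw * σw = 1 := hσ2 p
        linear_combination (-(n * A0 * sN s) * (σw * σw) + n * A * wc s (wd i) 0 * (σw * σw) -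
          n * A * wc s (wd i) 0) * e1 + (-(n * A0 * sN s) + n * A * wc s (wd i) 0) * e2
      rw [h6]
      exact h5
    · rw [if_neg hj0']
      have hcj : c j = σw * σ j * (1 + |y j|) := by rw [hc]; simp [hj0']
      rw [hcj]
      have h5 := hbd (1 + |y j|) le_rfl
      have h6 : σ j * (σw * (ent s ((sg s).getD p 0) j - n * (wc s W j +
          σw * σ j * (1 + |y j|) * sN s +
          (-(sgn * A0) * 0 + sgn * A * wc s (wd i) j))) + n * A * -σ 0 * wc s (wd i) j) =
          σ j * σw * y j - n * (1 + |y j|) * sN s := by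
        rw [hyj, hsgn]
        have e1 := hσ2 j
        have e2 : σw * σw = 1 := hσ2 p
        generalize |ent s ((sg s).getD p 0) j - n * wc s W j| = Y'
        linear_combination (-(n * (1 + Y') * sN s) * (σw * σw)) * e1 +
          (-(n * (1 + Y') * sN s) + σ j * n * A * wc s (wd i) j * σ 0) * e2
      rw [h6]
      exact h5

end Pool.Agent.Helper578.OG
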