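import Pool.Agent.Helper578.OG.Stab

/-! The limit of the construction. -/

namespace Pool.Agent.Helper578.OG

open Nat.Partrec (Code)

variable {H : Type} [AddCommGroup H] {ν : ℕ ≃ H} {d1 d2 : ℕ} {S : ℕ → St}

theorem Run.zsmul_eq_zero (R : Run ν d1 d2 S) {k : ℤ} (hk : k ≠ 0) {x : H} (h : k • x = 0) :
    x = 0 := by
  apply R.tf k.natAbs x (Int.natAbs_ne_zero.2 hk)
  rcases Int.natAbs_eq k with h1 | h1
  · rw [h1, natCast_zsmul] at h
    exact h
  · rw [h1, neg_smul, natCast_zsmul, neg_eq_zero] at h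
    exact h

theorem Run.lowgen_step (R : Run ν d1 d2 S) (t : ℕ) {i l : ℕ} (hi : i < sc (S t) + 2)
    (h : ∀ j, l ≤ j → ent (S t) i j = 0) : ∀ j, l ≤ j → ent (S (t + 1)) i j = 0 := by
  have hI := (R.finv t).toInv
  have hI' := (R.finv (t + 1)).toInv
  have hm : (unitw i).length ≤ sc (S t) + 2 := by rw [length_unitw]; omega
  intro j hj
  rcases R.cases' t with ⟨_, ⟨D, hD⟩, _⟩ | ⟨_, _, i', hD⟩ | ⟨_, _, J, hD⟩
  · by_cases hl : l ≤ rk (S (t + 1))
    · rw [(drop_gen hI hD hi (h _ hl)).1 j]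
      exact h j hj
    · exact hI'.ent_zero (by rw [hD.hsc]; exact hi) (by omega)
  · have := (cov_wc hI hD hm).1 j
    rw [wc_unitw, wc_unitw] at this
    rw [this, h j hj, mul_zero]
  · have := (app_wc hI hD hm).1 j
    rw [wc_unitw, wc_unitw] at this
    rw [this, h j hj]

theorem Run.lowgen (R : Run ν d1 d2 S) {t t' : ℕ} (hle : t ≤ t') {i l : ℕ}
    (hi : i < sc (S t) + 2) (h : ∀ j, l ≤ j → ent (S t) i j = 0) :
    ∀ j, l ≤ j → ent (S t') i j = 0 := by
  induction t', hle using Nat.le_induction with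
  | base => exact h
  | succ n hn ih =>
    have := R.sc_mono hn
    exact R.lowgen_step n (by omega) ih

theorem Run.su_step (R : Run ν d1 d2 S) (t : ℕ) {i l : ℕ} (hi : i < sc (S t) + 2)
    (h : ∀ j, l ≤ j → ent (S t) i j = 0) (hl : l ≤ rk (S (t + 1))) :
    (su (S (t + 1))).getD i 0 = (su (S t)).getD i 0 := by
  have hI := (R.finv t).toInv
  rcases R.cases' t with ⟨_, ⟨D, hD⟩, _⟩ | ⟨_, _, i', hD⟩ | ⟨_, _, J, hD⟩
  · exact (drop_gen hI hD hi (h _ hl)).2
  · obtain ⟨_, _, _, _, _, _, _, _, _, _, _, _, _, _, h1, _⟩ := hD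
    exact h1 i (by rw [hI.lenA]; exact hi)
  · obtain ⟨_, _, _, _, _, _, _, _, _, _, _, _, _, _, _, h1, _⟩ := hD
    exact h1 i (by rw [hI.lenA]; exact hi)

theorem Run.su_const (R : Run ν d1 d2 S) {T l : ℕ} (hT : ∀ t, T ≤ t → l ≤ rk (S t)) {i : ℕ}
    (hi : i < sc (S T) + 2) (h : ∀ j, l ≤ j → ent (S T) i j = 0) {t : ℕ} (ht : T ≤ t) :
    (su (S t)).getD i 0 = (su (S T)).getD i 0 := by
  induction t, ht using Nat.le_induction with
  | base => rfl
  | succ n hn ih =>
    have := R.sc_mono hn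
    rw [R.su_step n (by omega) (R.lowgen hn hi h) (hT (n + 1) (by omega)), ih]

theorem Run.exists_lim (R : Run ν d1 d2 S) (i : ℕ) : ∃ T u, ∀ t, T ≤ t →
    i < sc (S t) + 2 ∧ (su (S t)).getD i 0 = u := by
  obtain ⟨t0, ht0⟩ := R.sc_unbounded i
  have hi0 : i < sc (S t0) + 2 := by have := ht0 t0 le_rfl; omega
  obtain ⟨T1, hT1⟩ := R.liminf (rk (S t0))
  have h0 : ∀ j, rk (S t0) ≤ j → ent (S t0) i j = 0 :=
    fun j hj => (R.finv t0).toInv.ent_zero hi0 hj
  have h1 := R.lowgen (le_max_left t0 T1) hi0 h0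
  have hsc := R.sc_mono (le_max_left t0 T1)
  refine ⟨max t0 T1, (su (S (max t0 T1))).getD i 0, fun t ht => ⟨?_, ?_⟩⟩
  · have := R.sc_mono ht; omega
  · exact R.su_const (fun t ht => hT1 t ((le_max_right _ _).trans ht)) (by omega) h1 ht

/-- The final images. -/
def IsLim (S : ℕ → St) (U : ℕ → ℕ) : Prop :=
  ∀ i, ∃ T, ∀ t, T ≤ t → i < sc (S t) + 2 ∧ (su (S t)).getD i 0 = U i

theorem Run.exists_U (R : Run ν d1 d2 S) : ∃ U, IsLim S U := by
  have h : ∀ i, ∃ u, ∃ T, ∀ t, T ≤ t → i < sc (S t) + 2 ∧ (su (S t)).getD i 0 = u := by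
    intro i
    obtain ⟨T, u, h⟩ := R.exists_lim i
    exact ⟨u, T, h⟩
  choose U hU using h
  exact ⟨U, hU⟩

variable {U : ℕ → ℕ}

theorem IsLim.bdd (hU : IsLim S U) (n : ℕ) : ∃ T, ∀ t, T ≤ t → ∀ i < n,
    i < sc (S t) + 2 ∧ (su (S t)).getD i 0 = U i := by
  induction n with
  | zero => exact ⟨0, fun _ _ i hi => absurd hi (Nat.not_lt_zero i)⟩
  | succ n ih =>
    obtain ⟨T, hT⟩ := ih
    obtain ⟨T', hT'⟩ := hU n
    refine ⟨max T T', fun t ht i hi => ?_⟩
    rcases Nat.lt_succ_iff_lt_or_eq.1 hi with hi | hi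
    · exact hT t ((le_max_left _ _).trans ht) i hi
    · rw [hi]; exact hT' t ((le_max_right _ _).trans ht)

/-- Final evaluation of words. -/
theorem IsLim.wh (hU : IsLim S U) (m : List ℤ) : ∃ T, ∀ t, T ≤ t →
    m.length ≤ sc (S t) + 2 ∧ wh ν (S t) m = ev m (fun i => ν (U i)) := by
  obtain ⟨T, hT⟩ := hU.bdd (m.length)
  refine ⟨T, fun t ht => ⟨?_, ?_⟩⟩
  · rcases Nat.eq_zero_or_pos m.length with h | h
    · omega
    · have := (hT t ht (m.length - 1) (by omega)).1
      omega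
  · unfold OG.wh
    apply ev_congr
    intro i hi
    unfold uH
    rw [(hT t ht i hi).2]

/-- Formally vanishing words. -/
theorem Run.zero_step (R : Run ν d1 d2 S) (t : ℕ) {m : List ℤ} (hm : m.length ≤ sc (S t) + 2)
    (h : ∀ j, wc (S t) m j = 0) : ∀ j, wc (S (t + 1)) m j = 0 := by
  have hI := (R.finv t).toInv
  intro j
  rcases R.cases' t with ⟨_, ⟨D, hD⟩, _⟩ | ⟨_, _, i', hD⟩ | ⟨_, _, J, hD⟩
  · exact drop_zero hI hD hm (fun j _ => h j) j
  · rw [(cov_wc hI hD hm).1 j, h j, mul_zero]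
  · rw [(app_wc hI hD hm).1 j, h j]

theorem Run.zero_const (R : Run ν d1 d2 S) {t t' : ℕ} (hle : t ≤ t') {m : List ℤ}
    (hm : m.length ≤ sc (S t) + 2) (h : ∀ j, wc (S t) m j = 0) : ∀ j, wc (S t') m j = 0 := by
  induction t', hle using Nat.le_induction with
  | base => exact h
  | succ n hn ih =>
    have := R.sc_mono hn
    exact R.zero_step n (by omega) ih

/-- Formally vanishing words vanish in the limit. -/
theorem Run.zero_lim (R : Run ν d1 d2 S) (hU : IsLim S U) {t : ℕ} {m : List ℤ}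
    (hm : m.length ≤ sc (S t) + 2) (h : ∀ j, wc (S t) m j = 0) :
    ev m (fun i => ν (U i)) = 0 := by
  obtain ⟨T, hT⟩ := hU.wh (ν := ν) m
  have h1 := hT (max T t) (le_max_left _ _)
  have h2 := R.zero_const (le_max_right T t) hm h
  have hI := (R.finv (max T t)).toInv
  have h3 := hI.wh_eq h1.1
  rw [← h1.2]
  apply R.zsmul_eq_zero hI.Npos.ne'
  rw [h3]
  apply Finset.sum_eq_zero
  intro j _
  rw [h2 j, zero_smul]

/-- The permanent sign of a word. -/
theorem Run.exists_sg (R : Run ν d1 d2 S) (m : List ℤ) : ∃ σ : ℤ,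
    (∀ t, Encodable.encode m < sc (S t) → Int.sign (wl (S t) m) = σ) := by
  obtain ⟨T, hT⟩ := R.sc_unbounded (Encodable.encode m + 1)
  refine ⟨Int.sign (wl (S T) m), fun t ht => ?_⟩
  have hTs : Encodable.encode m < sc (S T) := hT T le_rfl
  have h1 := R.signs (le_max_left T t) hTs
  have h2 := R.signs (le_max_right T t) ht
  rw [wd_encode] at h1 h2
  rw [← h2, h1]

/-- Sign functions. -/
def IsSg (S : ℕ → St) (σ : List ℤ → ℤ) : Prop :=
  ∀ m t, Encodable.encode m < sc (S t) → Int.sign (wl (S t) m) = σ m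

theorem Run.exists_sgn (R : Run ν d1 d2 S) : ∃ σ, IsSg S σ := by
  choose σ hσ using R.exists_sg
  exact ⟨σ, hσ⟩

variable {σ : List ℤ → ℤ}

theorem IsSg.large (R : Run ν d1 d2 S) (hσ : IsSg S σ) (m : List ℤ) :
    ∃ T, ∀ t, T ≤ t → Int.sign (wl (S t) m) = σ m := by
  obtain ⟨T, hT⟩ := R.sc_unbounded (Encodable.encode m + 1)
  exact ⟨T, fun t ht => hσ m t (hT t ht)⟩

theorem IsSg.zero_iff (R : Run ν d1 d2 S) (hU : IsLim S U) (hσ : IsSg S σ) (m : List ℤ) :
    σ m = 0 ↔ ev m (fun i => ν (U i)) = 0 := by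
  obtain ⟨T, hT⟩ := hU.wh (ν := ν) m
  constructor
  · intro h0
    obtain ⟨t, ht, _, hc⟩ := R.exists_N_large T (Encodable.encode m + 1)
    have hI := (R.finv t).toInv
    have h1 := hσ m t hc
    rw [h0, Int.sign_eq_zero_iff_zero] at h1
    have h2 := hI.nv (Encodable.encode m) hc
    rw [wd_encode] at h2
    have h3 := h2 h1
    rw [← (hT t ht).2]
    apply R.zsmul_eq_zero hI.Npos.ne'
    rw [hI.wh_eq (hT t ht).1]
    apply Finset.sum_eq_zero
    intro j hj
    rw [h3 j (Finset.mem_range.1 hj), zero_smul]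
  · intro h0
    obtain ⟨t, ht, hN, hc⟩ := R.exists_N_large T (Encodable.encode m + 1)
    have hI := (R.finv t).toInv
    have h1 := hN.wc_zero (i := Encodable.encode m) (by omega)
      (by rw [wd_encode, (hT t ht).2]; exact h0)
    rw [wd_encode] at h1
    rw [← hσ m t hc, hI.wl_of_wc (hT t ht).1 h1]
    rfl

theorem IsSg.pos_iff (R : Run ν d1 d2 S) (hσ : IsSg S σ) (m : List ℤ) :
    ∃ T, ∀ t, T ≤ t → (0 ≤ σ m ↔ 0 ≤ wl (S t) m) ∧ (0 < σ m ↔ 0 < wl (S t) m) := by
  obtain ⟨T, hT⟩ := hσ.large R m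
  refine ⟨T, fun t ht => ?_⟩
  rw [← hT t ht]
  exact ⟨Int.sign_nonneg_iff, Int.sign_pos_iff⟩

theorem IsSg.add (R : Run ν d1 d2 S) (hσ : IsSg S σ) {m m' : List ℤ} (h : 0 ≤ σ m)
    (h' : 0 ≤ σ m') : 0 ≤ σ (addW m m') := by
  obtain ⟨T1, hT1⟩ := hσ.pos_iff R m
  obtain ⟨T2, hT2⟩ := hσ.pos_iff R m'
  obtain ⟨T3, hT3⟩ := hσ.pos_iff R (addW m m')
  set t := max T1 (max T2 T3)
  have h1 := (hT1 t (le_max_left _ _)).1.1 h
  have h2 := (hT2 t ((le_max_left _ _).trans (le_max_right _ _))).1.1 h'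
  apply (hT3 t ((le_max_right _ _).trans (le_max_right _ _))).1.2
  rw [wl_addW]
  omega

theorem IsSg.neg (R : Run ν d1 d2 S) (hσ : IsSg S σ) (m : List ℤ) :
    σ (mulW (-1) m) = - σ m := by
  obtain ⟨T1, hT1⟩ := hσ.large R m
  obtain ⟨T2, hT2⟩ := hσ.large R (mulW (-1) m)
  rw [← hT1 _ (le_max_left T1 T2), ← hT2 _ (le_max_right T1 T2), wl_mulW, neg_one_mul,
    Int.sign_neg]

/-- Words with the same value have the same sign. -/
theorem IsSg.congr (R : Run ν d1 d2 S) (hU : IsLim S U) (hσ : IsSg S σ) {m m' : List ℤ}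
    (h : ev m (fun i => ν (U i)) = ev m' (fun i => ν (U i))) : σ m = σ m' := by
  have h0 : σ (addW m (mulW (-1) m')) = 0 := by
    rw [hσ.zero_iff R hU, ev_addW, ev_mulW, h, neg_one_zsmul, add_neg_cancel]
  obtain ⟨T1, hT1⟩ := hσ.large R m
  obtain ⟨T2, hT2⟩ := hσ.large R m'
  obtain ⟨T3, hT3⟩ := hσ.large R (addW m (mulW (-1) m'))
  set t := max T1 (max T2 T3)
  rw [← hT1 t (le_max_left _ _), ← hT2 t ((le_max_left _ _).trans (le_max_right _ _))]
  have h3 := hT3 t ((le_max_right _ _).trans (le_max_right _ _))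
  rw [h0, Int.sign_eq_zero_iff_zero, wl_addW, wl_mulW] at h3
  have h4 : wl (S t) m = wl (S t) m' := by linarith
  rw [h4]

/-- Every value of the counter is attained at a normal stage. -/
theorem Run.exists_N_eq (R : Run ν d1 d2 S) (T n : ℕ) (hn : sc (S T) ≤ n) :
    ∃ t, T ≤ t ∧ NS ν (S t) ∧ sc (S t) = n := by
  obtain ⟨d, rfl⟩ := Nat.exists_eq_add_of_le hn
  induction d with
  | zero =>
    classical
    -- the first normal stage after `T`
    have hex := R.exists_N T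
    set t := Nat.find hex with ht
    obtain ⟨h1, h2⟩ := Nat.find_spec hex
    refine ⟨t, h1, h2, ?_⟩
    have key : ∀ k, T + k ≤ t → sc (S (T + k)) = sc (S T) := by
      intro k
      induction k with
      | zero => intro _; rfl
      | succ k ih =>
        intro hk
        have hnot : ¬ NS ν (S (T + k)) := fun hN =>
          Nat.find_min hex (m := T + k) (by omega) ⟨Nat.le_add_right _ _, hN⟩
        obtain ⟨D, hD⟩ := R.rk_of_drop hnot
        have := hD.hsc
        rw [← ih (by omega)]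
        exact this
    obtain ⟨k, hk⟩ := Nat.exists_eq_add_of_le h1
    have := key k (by omega)
    rw [← hk] at this
    exact this
  | succ d ih =>
    obtain ⟨t1, ht1, hN1, hc1⟩ := ih (Nat.le_add_right _ _)
    classical
    have hex := R.exists_N (t1 + 1)
    set t := Nat.find hex with ht
    obtain ⟨h1, h2⟩ := Nat.find_spec hex
    refine ⟨t, by omega, h2, ?_⟩
    have key : ∀ k, t1 + 1 + k ≤ t → sc (S (t1 + 1 + k)) = sc (S (t1 + 1)) := by
      intro k
      induction k with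
      | zero => intro _; rfl
      | succ k ih =>
        intro hk
        have hnot : ¬ NS ν (S (t1 + 1 + k)) := fun hN =>
          Nat.find_min hex (m := t1 + 1 + k) (by omega) ⟨Nat.le_add_right _ _, hN⟩
        obtain ⟨D, hD⟩ := R.rk_of_drop hnot
        have := hD.hsc
        rw [← ih (by omega)]
        exact this
    obtain ⟨k, hk⟩ := Nat.exists_eq_add_of_le h1
    have := key k (by omega)
    rw [← hk, R.sc_of_N hN1, hc1] at this
    exact this

/-- Every element depends on finitely many permanent positions. -/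
theorem Run.exists_dep (R : Run ν d1 d2 S) (J : ℕ) : ∃ k T, (∀ t, T ≤ t → k ≤ rk (S t)) ∧
    ∃ (z : ℕ) (l : List ℤ), l.length ≤ k ∧ (z + 1) • ν J = ev l (bb ν (S T)) := by
  by_contra hcon
  push Not at hcon
  obtain ⟨T, hT⟩ := R.liminf (J + 4)
  have h1 := hcon (J + 4) T hT
  have hF := R.finv T
  have h2 : ∀ j ∈ Finset.range (J + 2), (su (S T)).getD ((sg (S T)).getD (j + 2) 0) 0 ∈
      Finset.range (J + 1) := by
    intro j hj
    rw [Finset.mem_range] at hj ⊢
    have hr := hT T le_rfl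
    have := hF.least (j + 2) (by omega) (by omega) J
      (fun z l hl => h1 z l (by omega))
    omega
  obtain ⟨a, ha, b, hb, hab, heq⟩ := Finset.exists_ne_map_eq_of_card_lt_of_maps_to
    (s := Finset.range (J + 2)) (t := Finset.range (J + 1)) (by simp) h2
  rw [Finset.mem_range] at ha hb
  have h3 : bb ν (S T) (a + 2) = bb ν (S T) (b + 2) := by
    unfold bb uH
    rw [heq]
  have h4 := R.indep hT (fun j => (if j = a + 2 then 1 else 0) - (if j = b + 2 then 1 else 0)) (by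
    simp only [sub_smul, Finset.sum_sub_distrib, ite_smul, one_smul, zero_smul]
    rw [Finset.sum_ite_eq' , Finset.sum_ite_eq', if_pos (Finset.mem_range.2 (by omega)),
      if_pos (Finset.mem_range.2 (by omega)), h3, sub_self]) (a + 2) (by omega)
  simp only [if_true] at h4
  rw [if_neg (by omega)] at h4
  omega

/-- The images exhaust the group. -/
theorem Run.U_surj (R : Run ν d1 d2 S) (hU : IsLim S U) (J : ℕ) : ∃ q, U q = J := by
  obtain ⟨k, T, hT, z, l, hl, hrel⟩ := R.exists_dep J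
  set i0 := Encodable.encode (z, l) with hi0
  obtain ⟨T', hT'⟩ := R.liminf (i0 + 1)
  set T2 := max T T' with hT2
  set M := sc (S T2) + i0 + 1 with hM
  set n := 2 * Nat.pair J M + 1 with hn
  have hMn : M ≤ n := by have := Nat.right_le_pair J M; omega
  obtain ⟨t, ht, hN, hc⟩ := R.exists_N_eq T2 n (by omega)
  have htT : T ≤ t := (le_max_left _ _).trans ht
  have htT' : T' ≤ t := (le_max_right _ _).trans ht
  have hatt : att (S t) = J := by
    unfold att
    rw [hc, hn]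
    have : (2 * Nat.pair J M + 1) / 2 = Nat.pair J M := by omega
    rw [this, Nat.unpair_pair]
  have hrel' : rel ν (S t) i0 (att (S t)) := by
    rw [hatt]
    refine ⟨?_, ?_⟩
    · rw [hi0, rl_encode]
      exact hl.trans (hT t htT)
    · rw [hi0, rl_encode, hrel]
      apply ev_congr
      intro j hj
      exact ((R.sg_const hT htT (lt_of_lt_of_le hj hl)).2.1).symm
  have hcov : cov ν (S t) := ⟨by rw [hc, hn]; omega, i0, by omega, hrel'⟩
  have hI := (R.finv t).toInv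
  rcases R.cases' t with ⟨h1, _⟩ | ⟨_, _, i, hD⟩ | ⟨_, h1, _⟩
  · exact absurd hN h1
  · have hI' := (R.finv (t + 1)).toInv
    have hii0 : i ≤ i0 := by
      by_contra hlt
      exact hD.2.1 i0 (by omega) hrel'
    have hscD := hD.hsc
    have hrkD := hD.hrk
    obtain ⟨hr, _, _, _, _, _, _, _, _, _, _, _, _, hent, _, hsu⟩ := hD
    rw [hI.lenA] at hent hsu
    set q := sc (S t) + 2 with hq
    have hlow : ∀ j, i0 + 1 ≤ j → ent (S (t + 1)) q j = 0 := by
      intro j hj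
      by_cases hjr : j < rk (S t)
      · rw [hent j hjr]
        have hlen := length_rl_le i
        rw [List.getD_eq_default _ _ (by omega), mul_zero]
      · exact hI'.ent_zero (by omega) (by omega)
    refine ⟨q, ?_⟩
    obtain ⟨T3, hT3⟩ := hU q
    have h5 := (hT3 (max T3 (t + 1)) (le_max_left _ _)).2
    rw [← h5, R.su_const (T := t + 1) (l := i0 + 1) (fun t' ht' => hT' t' (by omega))
      (by omega) hlow (le_max_right _ _), hsu, hatt]
  · exact absurd hcov h1

theorem Run.ev_surj (R : Run ν d1 d2 S) (hU : IsLim S U) (h : H) :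
    ∃ m : List ℤ, ev m (fun i => ν (U i)) = h := by
  obtain ⟨q, hq⟩ := R.U_surj hU (ν.symm h)
  refine ⟨unitw q, ?_⟩
  rw [ev_unitw, hq, Equiv.apply_symm_apply]

/-- The order of the construction. -/
def PP (ν : ℕ ≃ H) (U : ℕ → ℕ) (σ : List ℤ → ℤ) : Set H :=
  {h | ∃ m : List ℤ, ev m (fun i => ν (U i)) = h ∧ 0 ≤ σ m}

theorem IsSg.mem_PP (R : Run ν d1 d2 S) (hU : IsLim S U) (hσ : IsSg S σ) (m : List ℤ) :
    ev m (fun i => ν (U i)) ∈ PP ν U σ ↔ 0 ≤ σ m := by
  constructor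
  · rintro ⟨m', h, h0⟩
    rw [hσ.congr R hU h] at h0
    exact h0
  · intro h
    exact ⟨m, rfl, h⟩

theorem IsSg.cone (R : Run ν d1 d2 S) (hU : IsLim S U) (hσ : IsSg S σ) :
    IsCone (PP ν U σ) := by
  refine ⟨?_, ?_, ?_⟩
  · rintro a ⟨m, rfl, hm⟩ b ⟨m', rfl, hm'⟩
    exact ⟨addW m m', ev_addW _ _ _, hσ.add R hm hm'⟩
  · rintro a ⟨m, rfl, hm⟩ h
    have h1 : ev (mulW (-1) m) (fun i => ν (U i)) ∈ PP ν U σ := by
      rw [ev_mulW, neg_one_zsmul]; exact h
    rw [hσ.mem_PP R hU, hσ.neg R] at h1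
    rw [← hσ.zero_iff R hU]
    omega
  · intro a
    obtain ⟨m, rfl⟩ := R.ev_surj hU a
    rcases le_total 0 (σ m) with h | h
    · left; exact ⟨m, rfl, h⟩
    · right
      refine ⟨mulW (-1) m, by rw [ev_mulW, neg_one_zsmul], ?_⟩
      rw [hσ.neg R]
      omega

end Pool.Agent.Helper578.OG
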