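import Pool.Agent.Helper578.OG.Step

/-! The priority argument: all positions stabilise. -/

namespace Pool.Agent.Helper578.OG

open Nat.Partrec (Code)

variable {H : Type} [AddCommGroup H] {ν : ℕ ≃ H} {d1 d2 : ℕ} {S : ℕ → St}

/-- A run of the construction. -/
structure Run (ν : ℕ ≃ H) (d1 d2 : ℕ) (S : ℕ → St) : Prop where
  finv : ∀ t, FInv ν d1 d2 (S t)
  step : ∀ t, ∃ y, Chk ν (S t) y ∧ S (t + 1) = y.1
  tf : ∀ (n : ℕ) (x : H), n ≠ 0 → n • x = 0 → x = 0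
  inf : ∀ (k : ℕ) (b : ℕ → H), ∃ h : H, ∀ (z : ℕ) (l : List ℤ), l.length ≤ k →
    (z + 1) • h ≠ ev l b

/-- Stages of normal steps. -/
def NS (ν : ℕ ≃ H) (s : St) : Prop := ¬ gdrop ν s ∧ ¬ sdrop s

theorem Run.cases (R : Run ν d1 d2 S) (t : ℕ) :
    (gdrop ν (S t) ∧ (∃ D, dropRel ν (S t) (S (t + 1)) D) ∧ sd (S (t + 1)) = sd (S t)) ∨
    (¬ gdrop ν (S t) ∧ sdrop (S t) ∧ (∃ D, dropRel ν (S t) (S (t + 1)) D) ∧
      sd (S (t + 1)) = (rk (S t) - 3) :: sd (S t)) ∨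
    (NS ν (S t) ∧ cov ν (S t) ∧ ∃ i, covRel ν (S t) (S (t + 1)) i) ∨
    (NS ν (S t) ∧ ¬ cov ν (S t) ∧ ∃ J, appRel ν (S t) (S (t + 1)) J) := by
  obtain ⟨y, h, hy⟩ := R.step t
  rw [hy]
  rcases h with ⟨hg, h1, h2⟩ | ⟨hg, hs, h1, h2, h3⟩ | ⟨hg, hs, hc, h1⟩ | ⟨hg, hs, hc, h1⟩
  · exact Or.inl ⟨hg, ⟨_, h1⟩, h2⟩
  · exact Or.inr (Or.inl ⟨hg, hs, ⟨_, h1⟩, h3⟩)
  · exact Or.inr (Or.inr (Or.inl ⟨⟨hg, hs⟩, hc, _, h1⟩))
  · exact Or.inr (Or.inr (Or.inr ⟨⟨hg, hs⟩, hc, _, h1⟩))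

theorem dropRel.hsc {s s' : St} {D : List ℤ} (h : dropRel ν s s' D) : sc s' = sc s := h.2.1
theorem dropRel.hrk {s s' : St} {D : List ℤ} (h : dropRel ν s s' D) : rk s' + 1 = rk s :=
  h.2.2.2.2.2.1
theorem covRel.hsc {s s' : St} {i : ℕ} (h : covRel ν s s' i) : sc s' = sc s + 1 := h.2.2.2.2.1
theorem covRel.hrk {s s' : St} {i : ℕ} (h : covRel ν s s' i) : rk s' = rk s := by
  obtain ⟨_, _, _, _, _, _, _, _, h1, _⟩ := h
  exact h1
theorem covRel.hsd {s s' : St} {i : ℕ} (h : covRel ν s s' i) : sd s' = sd s := by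
  obtain ⟨_, _, _, _, _, _, _, _, _, _, h1, _⟩ := h
  exact h1
theorem appRel.hsc {s s' : St} {i : ℕ} (h : appRel ν s s' i) : sc s' = sc s + 1 := h.2.2.2.2.1
theorem appRel.hrk {s s' : St} {i : ℕ} (h : appRel ν s s' i) : rk s' = rk s + 1 := by
  obtain ⟨_, _, _, _, _, _, _, _, h1, _⟩ := h
  exact h1
theorem appRel.hsd {s s' : St} {i : ℕ} (h : appRel ν s s' i) : sd s' = sd s := by
  obtain ⟨_, _, _, _, _, _, _, _, _, _, _, h1, _⟩ := h
  exact h1

/-- Coarse case distinction: drop, cover or append. -/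
theorem Run.cases' (R : Run ν d1 d2 S) (t : ℕ) :
    (¬ NS ν (S t) ∧ (∃ D, dropRel ν (S t) (S (t + 1)) D) ∧ ∀ e ∈ sd (S t), e ∈ sd (S (t + 1))) ∨
    (NS ν (S t) ∧ cov ν (S t) ∧ ∃ i, covRel ν (S t) (S (t + 1)) i) ∨
    (NS ν (S t) ∧ ¬ cov ν (S t) ∧ ∃ J, appRel ν (S t) (S (t + 1)) J) := by
  rcases R.cases t with ⟨hg, h1, h2⟩ | ⟨hg, hs, h1, h2⟩ | h | h
  · refine Or.inl ⟨fun h => h.1 hg, h1, fun e he => by rw [h2]; exact he⟩
  · refine Or.inl ⟨fun h => h.2 hs, h1, fun e he => by rw [h2]; exact List.mem_cons_of_mem _ he⟩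
  · exact Or.inr (Or.inl h)
  · exact Or.inr (Or.inr h)

theorem Run.sc_step (R : Run ν d1 d2 S) (t : ℕ) : sc (S t) ≤ sc (S (t + 1)) := by
  rcases R.cases' t with ⟨_, ⟨D, h⟩, _⟩ | ⟨_, _, i, h⟩ | ⟨_, _, J, h⟩
  · rw [h.hsc]
  · rw [h.hsc]; omega
  · rw [h.hsc]; omega

theorem Run.sc_mono (R : Run ν d1 d2 S) {t t' : ℕ} (h : t ≤ t') : sc (S t) ≤ sc (S t') := by
  induction t', h using Nat.le_induction with
  | base => exact le_rfl
  | succ n _ ih => exact ih.trans (R.sc_step n)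

theorem Run.rk_of_drop (R : Run ν d1 d2 S) {t : ℕ} (h : ¬ NS ν (S t)) :
    ∃ D, dropRel ν (S t) (S (t + 1)) D := by
  rcases R.cases' t with ⟨_, h1, _⟩ | ⟨h1, _⟩ | ⟨h1, _⟩
  · exact h1
  · exact absurd h1 h
  · exact absurd h1 h

theorem Run.exists_N (R : Run ν d1 d2 S) (t : ℕ) : ∃ t', t ≤ t' ∧ NS ν (S t') := by
  by_contra hcon
  push Not at hcon
  have key : ∀ k, rk (S (t + k)) + k = rk (S t) := by
    intro k
    induction k with
    | zero => rfl
    | succ k ih =>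
      obtain ⟨D, hD⟩ := R.rk_of_drop (hcon (t + k) (Nat.le_add_right _ _))
      have := hD.hrk
      show rk (S (t + k + 1)) + (k + 1) = rk (S t)
      omega
  have := key (rk (S t) + 1)
  omega

theorem Run.sc_of_N (R : Run ν d1 d2 S) {t : ℕ} (h : NS ν (S t)) :
    sc (S (t + 1)) = sc (S t) + 1 := by
  rcases R.cases' t with ⟨h1, _⟩ | ⟨_, _, i, h1⟩ | ⟨_, _, J, h1⟩
  · exact absurd h h1
  · exact h1.hsc
  · exact h1.hsc

theorem Run.sc_unbounded (R : Run ν d1 d2 S) (n : ℕ) : ∃ T, ∀ t, T ≤ t → n ≤ sc (S t) := by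
  induction n with
  | zero => exact ⟨0, fun _ _ => Nat.zero_le _⟩
  | succ n ih =>
    obtain ⟨T, hT⟩ := ih
    obtain ⟨t', ht', hN⟩ := R.exists_N T
    refine ⟨t' + 1, fun t ht => ?_⟩
    have h1 := R.sc_mono ht
    rw [R.sc_of_N hN] at h1
    have := hT t' ht'
    omega

theorem Run.exists_N_large (R : Run ν d1 d2 S) (T n : ℕ) :
    ∃ t, T ≤ t ∧ NS ν (S t) ∧ n ≤ sc (S t) := by
  obtain ⟨T', hT'⟩ := R.sc_unbounded n
  obtain ⟨t, ht, hN⟩ := R.exists_N (max T T')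
  exact ⟨t, (le_max_left _ _).trans ht, hN, hT' t ((le_max_right _ _).trans ht)⟩

theorem Run.sg_step (R : Run ν d1 d2 S) (t : ℕ) {j : ℕ} (h1 : j < rk (S t))
    (h2 : j < rk (S (t + 1))) : (sg (S (t + 1))).getD j 0 = (sg (S t)).getD j 0 ∧
      bb ν (S (t + 1)) j = bb ν (S t) j ∧
      (su (S (t + 1))).getD ((sg (S (t + 1))).getD j 0) 0 =
        (su (S t)).getD ((sg (S t)).getD j 0) 0 := by
  have hI := (R.finv t).toInv
  rcases R.cases' t with ⟨_, ⟨D, h⟩, _⟩ | ⟨_, _, i, h⟩ | ⟨_, _, J, h⟩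
  · refine ⟨?_, (drop_bb hI h h2).1, (drop_bb hI h h2).2⟩
    obtain ⟨_, _, _, _, _, _, hg, _⟩ := h
    exact hg j h2
  · refine ⟨?_, (cov_bb hI h h1).1, (cov_bb hI h h1).2⟩
    obtain ⟨_, _, _, _, _, _, _, _, _, hg, _⟩ := h
    exact hg j h1
  · refine ⟨?_, (app_bb hI h h1).1, (app_bb hI h h1).2⟩
    obtain ⟨_, _, _, _, _, _, _, _, _, hg, _⟩ := h
    exact hg j h1

/-- Positions below a permanent rank are constant. -/
theorem Run.sg_const (R : Run ν d1 d2 S) {T k : ℕ} (hT : ∀ t, T ≤ t → k ≤ rk (S t)) {t : ℕ}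
    (ht : T ≤ t) {j : ℕ} (hj : j < k) : (sg (S t)).getD j 0 = (sg (S T)).getD j 0 ∧
      bb ν (S t) j = bb ν (S T) j ∧
      (su (S t)).getD ((sg (S t)).getD j 0) 0 = (su (S T)).getD ((sg (S T)).getD j 0) 0 := by
  induction t, ht using Nat.le_induction with
  | base => exact ⟨rfl, rfl, rfl⟩
  | succ n hn ih =>
    have h := R.sg_step n (j := j) (lt_of_lt_of_le hj (hT n hn))
      (lt_of_lt_of_le hj (hT (n + 1) (hn.trans (Nat.le_succ n))))
    exact ⟨h.1.trans ih.1, h.2.1.trans ih.2.1, h.2.2.trans ih.2.2⟩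

/-- At normal stages the committed words with vanishing image vanish formally. -/
theorem NS.wc_zero {s : St} (h : NS ν s) {i : ℕ} (hi : i < sc s + 1) (h0 : wh ν s (wd i) = 0) :
    ∀ j < rk s, wc s (wd i) j = 0 := by
  intro j hj
  by_contra hne
  exact h.1 (Or.inl ⟨i, hi, h0, j, hj, hne⟩)

/-- Independence of the elements at permanent positions. -/
theorem Run.indep (R : Run ν d1 d2 S) {T k : ℕ} (hT : ∀ t, T ≤ t → k ≤ rk (S t))
    (f : ℕ → ℤ) (h0 : ∑ j ∈ Finset.range k, f j • bb ν (S T) j = 0) : ∀ j < k, f j = 0 := by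
  obtain ⟨q, hq⟩ : ∃ q, ∀ j < k, (mulW (f j) (unitw ((sg (S T)).getD j 0))).length ≤ q :=
    ⟨sc (S T) + 2, fun j hj => by
      rw [length_mulW, length_unitw]
      have := ((R.finv T).pos j (lt_of_lt_of_le hj (hT T le_rfl))).1
      omega⟩
  obtain ⟨m, _, hm⟩ := exists_sumW k (fun j => mulW (f j) (unitw ((sg (S T)).getD j 0))) q hq
  obtain ⟨t, ht, hN, hc⟩ := R.exists_N_large T (Encodable.encode m)
  have hI := (R.finv t).toInv
  have h1 : wh ν (S t) m = 0 := by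
    have : wh ν (S t) m = ∑ j ∈ Finset.range k, f j • bb ν (S T) j := by
      refine (hm H (uH ν (S t))).trans ?_
      apply Finset.sum_congr rfl
      intro j hj
      rw [Finset.mem_range] at hj
      have hc := R.sg_const hT ht hj
      rw [ev_mulW, ev_unitw, ← hc.1, ← hc.2.1]
      rfl
    rw [this, h0]
  intro j hj
  have hjr : j < rk (S t) := lt_of_lt_of_le hj (hT t ht)
  have h2 := hN.wc_zero (i := Encodable.encode m) (by omega) (by rw [wd_encode]; exact h1) j hjr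
  rw [wd_encode] at h2
  have h3 : wc (S t) m j = f j * sN (S t) := by
    refine (hm ℤ (fun i => ent (S t) i j)).trans ?_
    rw [Finset.sum_eq_single j]
    · rw [ev_mulW, ev_unitw, smul_eq_mul, ← (R.sg_const hT ht hj).1, hI.ent_g hjr, if_pos rfl]
    · intro l hl hlj
      rw [Finset.mem_range] at hl
      rw [ev_mulW, ev_unitw, ← (R.sg_const hT ht hl).1,
        hI.ent_g (lt_of_lt_of_le hl (hT t ht)), if_neg (Ne.symm hlj), smul_zero]
    · intro hnj
      exact absurd (Finset.mem_range.2 hj) hnj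
  rw [h3] at h2
  rcases mul_eq_zero.1 h2 with h4 | h4
  · exact h4
  · exact absurd h4 hI.Npos.ne'

theorem pv_mono {c c' e : ℕ} (h : c ≤ c') {m : List ℤ} (hs : (pv c e m).isSome = true) :
    pv c' e m = pv c e m := by
  obtain ⟨v, hv⟩ := Option.isSome_iff_exists.1 hs
  rw [hv]
  unfold pv at hv ⊢
  exact Code.evaln_mono h hv

theorem qs_mono {c c' e : ℕ} (h : c ≤ c') {m : List ℤ} (hs : (pv c e m).isSome = true) :
    qs c' e m = qs c e m := by
  unfold qs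
  rw [pv_mono h hs]

theorem sign_pos {a b : ℤ} (h : Int.sign a = Int.sign b) (hb : 0 < b) : 0 < a := by
  rw [Int.sign_eq_one_of_pos hb] at h
  exact Int.sign_eq_one_iff_pos.1 h

theorem Run.signs_step (R : Run ν d1 d2 S) (t : ℕ) {i : ℕ} (hi : i < sc (S t)) :
    Int.sign (wl (S (t + 1)) (wd i)) = Int.sign (wl (S t) (wd i)) := by
  rcases R.cases' t with ⟨_, ⟨D, h⟩, _⟩ | ⟨_, _, i', h⟩ | ⟨_, _, J, h⟩
  · exact h.1.2 i hi
  · exact h.2.2.1.2 i hi
  · exact h.2.2.1.2 i hi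

theorem Run.signs (R : Run ν d1 d2 S) {t t' : ℕ} (h : t ≤ t') {i : ℕ} (hi : i < sc (S t)) :
    Int.sign (wl (S t') (wd i)) = Int.sign (wl (S t) (wd i)) := by
  induction t', h using Nat.le_induction with
  | base => rfl
  | succ n hn ih => rw [R.signs_step n (lt_of_lt_of_le hi (R.sc_mono hn)), ih]

theorem Run.dis_step (R : Run ν d1 d2 S) (t : ℕ) {e i : ℕ} (hi : i < sc (S t))
    (h : dis (S t) e i) : dis (S (t + 1)) e i := by
  obtain ⟨h1, h2, h3, h4⟩ := h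
  have hc := R.sc_step t
  refine ⟨sign_pos (R.signs_step t hi) h1, ?_, ?_, ?_⟩
  · rw [pv_mono hc h2]; exact h2
  · rw [pv_mono hc h3]; exact h3
  · rw [qs_mono hc h2, qs_mono hc h3]; exact h4

theorem Run.low_step (R : Run ν d1 d2 S) (t : ℕ) {e : ℕ} {m : List ℤ}
    (hm : m.length ≤ sc (S t) + 2) (h : low (S t) m e) : low (S (t + 1)) m e := by
  have hI := (R.finv t).toInv
  intro j hj hej
  rcases R.cases' t with ⟨_, ⟨D, hD⟩, _⟩ | ⟨_, _, i', hD⟩ | ⟨_, _, J, hD⟩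
  · have hrk := hD.hrk
    have h0 : wc (S t) m (rk (S (t + 1))) = 0 := h _ (by omega) (by omega)
    rw [(drop_low hI hD hm h0).1 j]
    exact h j (by omega) hej
  · have hrk := hD.hrk
    rw [(cov_wc hI hD hm).1 j, h j (by omega) hej, mul_zero]
  · have hrk := hD.hrk
    rw [(app_wc hI hD hm).1 j]
    by_cases hjr : j < rk (S t)
    · exact h j hjr hej
    · exact hI.wc_zero hm (not_lt.1 hjr)

/-- A known disagreement of low level persists. -/
theorem Run.dislow_step (R : Run ν d1 d2 S) (t : ℕ) {e : ℕ}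
    (h : ∃ i < sc (S t), dis (S t) e i ∧ low (S t) (wd i) (e + 2)) :
    ∃ i < sc (S (t + 1)), dis (S (t + 1)) e i ∧ low (S (t + 1)) (wd i) (e + 2) := by
  obtain ⟨i, hi, h1, h2⟩ := h
  exact ⟨i, lt_of_lt_of_le hi (R.sc_step t), R.dis_step t hi h1,
    R.low_step t ((length_wd_le i).trans (by omega)) h2⟩

theorem Run.dislow (R : Run ν d1 d2 S) {t t' : ℕ} (hle : t ≤ t') {e : ℕ}
    (h : ∃ i < sc (S t), dis (S t) e i ∧ low (S t) (wd i) (e + 2)) :
    ∃ i < sc (S t'), dis (S t') e i ∧ low (S t') (wd i) (e + 2) := by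
  induction t', hle using Nat.le_induction with
  | base => exact h
  | succ n _ ih => exact R.dislow_step n ih

theorem Run.sd_step (R : Run ν d1 d2 S) (t : ℕ) {e : ℕ} (h : e ∈ sd (S t)) :
    e ∈ sd (S (t + 1)) := by
  rcases R.cases' t with ⟨_, _, h1⟩ | ⟨_, _, i', hD⟩ | ⟨_, _, J, hD⟩
  · exact h1 e h
  · rw [hD.hsd]; exact h
  · rw [hD.hsd]; exact h

theorem Run.sd_mono (R : Run ν d1 d2 S) {t t' : ℕ} (hle : t ≤ t') {e : ℕ} (h : e ∈ sd (S t)) :
    e ∈ sd (S t') := by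
  induction t', hle using Nat.le_induction with
  | base => exact h
  | succ n _ ih => exact R.sd_step n ih

theorem notmem_iff (l : List ℕ) (e : ℕ) : (∀ j < l.length, l.getD j 0 ≠ e) ↔ e ∉ l := by
  constructor
  · intro h he
    obtain ⟨n, hn, hne⟩ := List.getElem_of_mem he
    apply h n hn
    rw [List.getD_eq_getElem l 0 hn]
    exact hne
  · intro h j hj hje
    apply h
    rw [← hje, List.getD_eq_getElem l 0 hj]
    exact List.getElem_mem hj

/-- The first type of attention persists through general drops of high rank. -/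
theorem Run.ready1_step (R : Run ν d1 d2 S) (t : ℕ) {e : ℕ} (h : ready1 (S t) e)
    (h3 : e + 3 < rk (S t)) {D : List ℤ} (hD : dropRel ν (S t) (S (t + 1)) D)
    (hsd : sd (S (t + 1)) = sd (S t)) : ready1 (S (t + 1)) e := by
  have hI := (R.finv t).toInv
  have hrk := hD.hrk
  obtain ⟨h1, h2, ⟨i, hi, hdis, hlow, j, hj, hj1, hne⟩, h4⟩ := h
  refine ⟨by rw [hsd]; exact h1, by omega, ⟨i, by rw [hD.hsc]; exact hi, R.dis_step t hi hdis,
    R.low_step t ((length_wd_le i).trans (by omega)) hlow, ?_⟩, ?_⟩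
  · have h0 : wc (S t) (wd i) (rk (S (t + 1))) = 0 := hlow _ (by omega) (by omega)
    have hje : j < e + 2 := by
      by_contra hle
      exact hne (hlow j hj (by omega))
    refine ⟨j, by omega, hj1, ?_⟩
    rw [(drop_low hI hD ((length_wd_le i).trans (by omega)) h0).1 j]
    exact hne
  · intro j' hj'
    rw [hD.hsc, (R.sg_step t (j := j') (by omega) (by omega)).1]
    exact h4 j' hj'

/-- Finitely many requirements, each acting at most once, stop acting. -/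
theorem fin_once (K : ℕ) (P : ℕ → ℕ → Prop)
    (h : ∀ e < K, ∀ t, P e t → ∀ t', t < t' → ¬ P e t') :
    ∃ T, ∀ t, T ≤ t → ∀ e < K, ¬ P e t := by
  induction K with
  | zero => exact ⟨0, fun _ _ e he => absurd he (Nat.not_lt_zero e)⟩
  | succ K ih =>
    obtain ⟨T, hT⟩ := ih (fun e he => h e (Nat.lt_succ_of_lt he))
    by_cases hex : ∃ t, P K t
    · obtain ⟨t0, ht0⟩ := hex
      refine ⟨max T (t0 + 1), fun t ht e he => ?_⟩
      rcases Nat.lt_succ_iff_lt_or_eq.1 he with he | he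
      · exact hT t ((le_max_left _ _).trans ht) e he
      · rw [he]
        exact h K (Nat.lt_succ_self K) t0 ht0 t ((le_max_right _ _).trans ht)
    · push Not at hex
      refine ⟨T, fun t ht e he => ?_⟩
      rcases Nat.lt_succ_iff_lt_or_eq.1 he with he | he
      · exact hT t ht e he
      · rw [he]
        exact hex t

end Pool.Agent.Helper578.OG
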