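import Pool.Agent.Helper578.OG.Prio

/-! Stabilisation of the rank from below. -/

namespace Pool.Agent.Helper578.OG

open Nat.Partrec (Code)

variable {H : Type} [AddCommGroup H] {ν : ℕ ≃ H} {d1 d2 : ℕ} {S : ℕ → St}

theorem bdd_choice (n : ℕ) (P : ℕ → ℕ → Prop) (h : ∀ J < n, ∃ i, P J i) :
    ∃ M, ∀ J < n, ∃ i < M, P J i := by
  induction n with
  | zero => exact ⟨0, fun J hJ => absurd hJ (Nat.not_lt_zero J)⟩
  | succ n ih =>
    obtain ⟨M, hM⟩ := ih (fun J hJ => h J (Nat.lt_succ_of_lt hJ))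
    obtain ⟨i, hi⟩ := h n (Nat.lt_succ_self n)
    refine ⟨max M (i + 1), fun J hJ => ?_⟩
    rcases Nat.lt_succ_iff_lt_or_eq.1 hJ with hJ | hJ
    · obtain ⟨i', hi', hP⟩ := hM J hJ
      exact ⟨i', lt_of_lt_of_le hi' (le_max_left _ _), hP⟩
    · rw [hJ]
      exact ⟨i, lt_of_lt_of_le (Nat.lt_succ_self i) (le_max_right _ _), hi⟩

theorem Run.rk_step (R : Run ν d1 d2 S) (t : ℕ) : rk (S t) ≤ rk (S (t + 1)) + 1 := by
  rcases R.cases' t with ⟨_, ⟨D, h⟩, _⟩ | ⟨_, _, i, h⟩ | ⟨_, _, J, h⟩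
  · rw [h.hrk]
  · rw [h.hrk]; omega
  · rw [h.hrk]; omega

theorem Run.rk_of_N (R : Run ν d1 d2 S) {t : ℕ} (h : NS ν (S t)) :
    rk (S t) ≤ rk (S (t + 1)) := by
  rcases R.cases' t with ⟨h1, _⟩ | ⟨_, _, i, h1⟩ | ⟨_, _, J, h1⟩
  · exact absurd h h1
  · rw [h1.hrk]
  · rw [h1.hrk]; omega

/-- Arbitrarily late drops into rank `k`, if the rank returns to `k` again and again. -/
theorem Run.exists_drop_into (R : Run ν d1 d2 S) {k T0 : ℕ}
    (hT0 : ∀ t, T0 ≤ t → k ≤ rk (S t)) (hcon : ∀ T, ∃ t, T ≤ t ∧ rk (S t) < k + 1) (T : ℕ) :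
    ∃ t, T ≤ t ∧ rk (S t) = k + 1 ∧ rk (S (t + 1)) = k := by
  obtain ⟨t1, ht1, hr1⟩ := hcon (max T T0)
  have hT1 : T0 ≤ t1 := (le_max_right _ _).trans ht1
  -- the rank becomes larger than `k`
  have hup : ∃ t2, t1 ≤ t2 ∧ k + 1 ≤ rk (S t2) := by
    by_contra hno
    push Not at hno
    have hall : ∀ t, t1 ≤ t → rk (S t) = k := fun t ht => by
      have h1 := hno t ht
      have h2 := hT0 t (hT1.trans ht)
      omega
    have hNS : ∀ t, t1 ≤ t → NS ν (S t) := fun t ht => by
      by_contra hn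
      obtain ⟨D, hD⟩ := R.rk_of_drop hn
      have h1 := hD.hrk
      have h2 := hall t ht
      have h3 := hall (t + 1) (by omega)
      omega
    have heven : ∃ t, t1 ≤ t ∧ sc (S t) % 2 = 0 := by
      rcases Nat.mod_two_eq_zero_or_one (sc (S t1)) with h | h
      · exact ⟨t1, le_rfl, h⟩
      · refine ⟨t1 + 1, Nat.le_succ _, ?_⟩
        rw [R.sc_of_N (hNS t1 le_rfl)]
        omega
    obtain ⟨t, ht, he⟩ := heven
    rcases R.cases' t with ⟨h1, _⟩ | ⟨_, hc, _⟩ | ⟨_, _, J, h1⟩
    · exact h1 (hNS t ht)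
    · have := hc.1
      omega
    · have h2 := h1.hrk
      have h3 := hall t ht
      have h4 := hall (t + 1) (by omega)
      omega
  obtain ⟨t2, ht2, hr2⟩ := hup
  obtain ⟨t3, ht3, hr3⟩ := hcon t2
  -- find the crossing
  have hcross : ∀ d, k + 1 ≤ rk (S (t2 + d)) ∨
      ∃ t, t2 ≤ t ∧ t < t2 + d ∧ rk (S t) = k + 1 ∧ rk (S (t + 1)) = k := by
    intro d
    induction d with
    | zero => left; exact hr2
    | succ d ih =>
      rcases ih with ih | ⟨t, h1, h2, h3⟩
      · by_cases hle : k + 1 ≤ rk (S (t2 + d + 1))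
        · left; exact hle
        · right
          have h1 := R.rk_step (t2 + d)
          have h2 := hT0 (t2 + d + 1) (by omega)
          refine ⟨t2 + d, Nat.le_add_right _ _, by omega, by omega, by omega⟩
      · right
        exact ⟨t, h1, by omega, h3⟩
  obtain ⟨d, rfl⟩ := Nat.exists_eq_add_of_le ht3
  rcases hcross d with h | ⟨t, h1, h2, h3⟩
  · omega
  · refine ⟨t, ?_, h3⟩
    have : T ≤ t1 := (le_max_left _ _).trans ht1
    omega

theorem Run.liminf_step (R : Run ν d1 d2 S) {k T0 : ℕ} (hk : 2 ≤ k)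
    (hT0 : ∀ t, T0 ≤ t → k ≤ rk (S t)) : ∃ T, ∀ t, T ≤ t → k + 1 ≤ rk (S t) := by
  by_contra hcon
  push Not at hcon
  have hcon' : ∀ T, ∃ t, T ≤ t ∧ rk (S t) < k + 1 := hcon
  have hN : ∀ t, T0 ≤ t → rk (S t) = k → NS ν (S t) := by
    intro t ht hr
    by_contra hn
    obtain ⟨D, hD⟩ := R.rk_of_drop hn
    have h1 := hD.hrk
    have h2 := hT0 (t + 1) (by omega)
    omega
  set B := bb ν (S T0) with hB
  have hbb : ∀ t, T0 ≤ t → ∀ l : List ℤ, l.length ≤ k → ev l (bb ν (S t)) = ev l B := by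
    intro t ht l hl
    apply ev_congr
    intro j hj
    exact (R.sg_const hT0 ht (lt_of_lt_of_le hj hl)).2.1
  classical
  have hex : ∃ J : ℕ, ∀ (z : ℕ) (l : List ℤ), l.length ≤ k → (z + 1) • ν J ≠ ev l B := by
    obtain ⟨h, hh⟩ := R.inf k B
    exact ⟨ν.symm h, by rw [Equiv.apply_symm_apply]; exact hh⟩
  set Js := Nat.find hex with hJs
  have hspec := Nat.find_spec hex
  rw [← hJs] at hspec
  have hmin : ∀ J < Js, ∃ i, (rl i).2.length ≤ k ∧ ((rl i).1 + 1) • ν J = ev (rl i).2 B := by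
    intro J hJ
    have := Nat.find_min hex hJ
    push Not at this
    obtain ⟨z, l, hl, he⟩ := this
    exact ⟨Encodable.encode (z, l), by rw [rl_encode]; exact hl, by rw [rl_encode]; exact he⟩
  obtain ⟨n0, hn0⟩ := bdd_choice Js _ hmin
  obtain ⟨T', hT'⟩ := R.sc_unbounded n0
  -- the element at position `k` is finally `Js`
  obtain ⟨T1, hT1, hr1⟩ := hcon' (max T0 T')
  have hT01 : T0 ≤ T1 := (le_max_left _ _).trans hT1
  have hgood : ∀ t, T1 ≤ t → rk (S t) = k ∨
      (k + 1 ≤ rk (S t) ∧ (su (S t)).getD ((sg (S t)).getD k 0) 0 = Js) := by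
    intro t ht
    induction t, ht using Nat.le_induction with
    | base =>
      left
      have := hT0 T1 hT01
      omega
    | succ t ht ih =>
      have ht0 : T0 ≤ t := hT01.trans ht
      have hk1 := hT0 (t + 1) (by omega)
      rcases ih with hrt | ⟨hrt, hJ⟩
      · rcases R.cases' t with ⟨h1, _⟩ | ⟨_, _, i, h1⟩ | ⟨_, _, J, h1⟩
        · exact absurd (hN t ht0 hrt) h1
        · left; rw [h1.hrk]; exact hrt
        · right
          have hr' := h1.hrk
          refine ⟨by omega, ?_⟩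
          have h2 := (app_bb_new (R.finv t).toInv h1).2
          rw [hrt] at h2
          rw [h2]
          have hc : n0 ≤ sc (S t) := hT' t (((le_max_right _ _).trans hT1).trans ht)
          rcases lt_trichotomy J Js with hlt | heq | hgt
          · exfalso
            obtain ⟨i, hi, hl, he⟩ := hn0 J hlt
            apply h1.1 i (lt_of_lt_of_le hi hc)
            exact ⟨by rw [hrt]; exact hl, by rw [he, hbb t ht0 _ hl]⟩
          · exact heq
          · exfalso
            obtain ⟨i, _, hl, he⟩ := h1.2.1 Js hgt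
            rw [hrt] at hl
            apply hspec (rl i).1 (rl i).2 hl
            rw [he, hbb t ht0 _ hl]
      · by_cases hr' : rk (S (t + 1)) = k
        · left; exact hr'
        · right
          refine ⟨by omega, ?_⟩
          rw [(R.sg_step t (j := k) (by omega) (by omega)).2.2]
          exact hJ
  -- requirements of the two types
  have hP2 := fin_once k (fun e t => rk (S t) = k + 1 ∧ rk (S (t + 1)) = k ∧ T1 ≤ t ∧
      e < sc (S t) + 1 ∧ ready2 (S t) e) (by
    rintro e _ t ⟨h1, h2, h3, h4, h5⟩ t' htt' ⟨_, _, _, _, h5'⟩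
    have hNS : NS ν (S (t + 1)) := hN (t + 1) (by omega) h2
    have hdl : ∃ i < sc (S (t + 1)), dis (S (t + 1)) e i ∧ low (S (t + 1)) (wd i) (e + 2) := by
      by_contra hno
      obtain ⟨⟨i, hi, hd⟩, _⟩ := h5
      apply hNS.1
      right
      refine ⟨e, lt_of_lt_of_le h4 (Nat.succ_le_succ (R.sc_step t)), Or.inl ⟨⟨i, ?_, ?_⟩, hno⟩⟩
      · exact lt_of_lt_of_le hi (R.sc_step t)
      · exact R.dis_step t hi hd
    exact h5'.2 (R.dislow htt' hdl))
  have hP1 := fin_once k (fun e t => e ∉ sd (S t) ∧ e ∈ sd (S (t + 1))) (by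
    rintro e _ t ⟨_, h1⟩ t' htt' ⟨h2, _⟩
    exact h2 (R.sd_mono htt' h1))
  obtain ⟨T2, hT2⟩ := hP2
  obtain ⟨T3, hT3⟩ := hP1
  obtain ⟨t, ht, hrt, hrt'⟩ := R.exists_drop_into hT0 hcon' (max T1 (max T2 T3))
  have ht1 : T1 ≤ t := (le_max_left _ _).trans ht
  have ht2 : T2 ≤ t := ((le_max_left _ _).trans (le_max_right _ _)).trans ht
  have ht3 : T3 ≤ t := ((le_max_right _ _).trans (le_max_right _ _)).trans ht
  have hNS : NS ν (S (t + 1)) := hN (t + 1) (by omega) hrt'
  have hI := (R.finv t).toInv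
  rcases R.cases t with ⟨hg, ⟨D, hD⟩, hsd⟩ | ⟨hg, hs, ⟨D, hD⟩, hsd⟩ | ⟨h1, _⟩ | ⟨h1, _⟩
  · rcases hg with ⟨i, hi, hw, j, hj, hne⟩ | ⟨e, he, h2 | ⟨h1, h3⟩⟩
    · -- a wrong belief
      have hm : (wd i).length ≤ sc (S t) + 2 := (length_wd_le i).trans (by omega)
      by_cases h0 : wc (S t) (wd i) k = 0
      · have hlow := drop_low hI hD hm (by rw [hrt']; exact h0)
        have h4 := hNS.wc_zero (i := i) (by rw [hD.hsc]; exact hi) (by rw [hlow.2]; exact hw)
        have hjk : j ≠ k := fun h => hne (by rw [h]; exact h0)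
        have h5 := h4 j (by omega)
        rw [hlow.1 j] at h5
        exact hne h5
      · rcases hgood t ht1 with hbad | ⟨_, hJ⟩
        · omega
        have hbk : bb ν (S t) k = ν Js := by
          unfold bb uH
          rw [hJ]
        have h4 := hI.wh_eq hm
        rw [hw, smul_zero, hrt, Finset.sum_range_succ, hbk] at h4
        set c := wc (S t) (wd i) k with hc
        have h5 : ∑ j ∈ Finset.range k, wc (S t) (wd i) j • bb ν (S t) j =
            ev (toW k (fun j => wc (S t) (wd i) j)) B := by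
          rw [ev_toW]
          apply Finset.sum_congr rfl
          intro j hj
          rw [(R.sg_const hT0 (hT01.trans ht1) (Finset.mem_range.1 hj)).2.1]
        rw [h5] at h4
        obtain ⟨z, hz⟩ : ∃ z, c.natAbs = z + 1 :=
          ⟨c.natAbs - 1, by have := Int.natAbs_ne_zero.2 h0; omega⟩
        rcases Int.natAbs_eq c with h6 | h6
        · apply hspec z (mulW (-1) (toW k (fun j => wc (S t) (wd i) j)))
            (by rw [length_mulW, length_toW])
          rw [ev_mulW, neg_one_zsmul, ← hz, ← natCast_zsmul, ← h6]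
          exact eq_neg_of_add_eq_zero_right h4.symm
        · apply hspec z (toW k (fun j => wc (S t) (wd i) j)) (by rw [length_toW])
          rw [← hz, ← natCast_zsmul]
          have h7 : ((c.natAbs : ℕ) : ℤ) = -c := by omega
          rw [h7, neg_smul]
          exact (eq_neg_of_add_eq_zero_left h4.symm).symm
    · have := ready2_rk h2
      exact hT2 t ht2 e (by omega) ⟨hrt, hrt', ht1, he, h2⟩
    · have h4 := R.ready1_step t h1 h3 hD hsd
      by_cases h5 : e + 3 < k
      · apply hNS.1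
        right
        exact ⟨e, by rw [hD.hsc]; exact he, Or.inr ⟨h4, by omega⟩⟩
      · apply hNS.2
        have h6 : rk (S (t + 1)) - 3 = e := by omega
        refine ⟨by omega, ?_⟩
        rw [h6]
        exact h4
  · refine hT3 t ht3 (k - 2) (by omega) ⟨?_, ?_⟩
    · have h1 := (notmem_iff _ _).1 hs.2.1
      have h2 : rk (S t) - 3 = k - 2 := by omega
      rw [h2] at h1
      exact h1
    · rw [hsd]
      have h2 : rk (S t) - 3 = k - 2 := by omega
      rw [h2]
      exact List.mem_cons_self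
  · have := R.rk_of_N h1
    omega
  · have := R.rk_of_N h1
    omega

/-- The rank tends to infinity. -/
theorem Run.liminf (R : Run ν d1 d2 S) (k : ℕ) : ∃ T, ∀ t, T ≤ t → k ≤ rk (S t) := by
  induction k with
  | zero => exact ⟨0, fun _ _ => Nat.zero_le _⟩
  | succ k ih =>
    obtain ⟨T, hT⟩ := ih
    by_cases hk : 2 ≤ k
    · exact R.liminf_step hk hT
    · exact ⟨0, fun t _ => by have := (R.finv t).rk2; omega⟩

end Pool.Agent.Helper578.OG
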