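import Pool.Agent.Helper578.OG.J6
import Pool.Agent.Helper578.OG.J7
import Pool.Agent.Helper578.OG.J8
import Pool.Agent.Helper578.OG.J9

/-! The full invariant, existence of certificates and preservation. -/

namespace Pool.Agent.Helper578.OG

open Nat.Partrec (Code)

variable {H : Type} [AddCommGroup H]

/-- Positive cones of orders. -/
structure IsCone (Q : Set H) : Prop where
  add : ∀ a ∈ Q, ∀ b ∈ Q, a + b ∈ Q
  anti : ∀ a, a ∈ Q → -a ∈ Q → a = 0
  tot : ∀ a, a ∈ Q ∨ -a ∈ Q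

theorem IsCone.zero {Q : Set H} (h : IsCone Q) : (0 : H) ∈ Q := by
  rcases h.tot 0 with h0 | h0
  · exact h0
  · rwa [neg_zero] at h0

theorem IsCone.nsmul {Q : Set H} (h : IsCone Q) {a : H} (ha : a ∈ Q) (n : ℕ) : n • a ∈ Q := by
  induction n with
  | zero => rw [zero_smul]; exact h.zero
  | succ k ih => rw [succ_nsmul]; exact h.add _ ih _ ha

theorem IsCone.zsmul {Q : Set H} (h : IsCone Q) {a : H} (ha : a ∈ Q) {n : ℤ} (hn : 0 ≤ n) :
    n • a ∈ Q := by
  obtain ⟨k, rfl⟩ := Int.eq_ofNat_of_zero_le hn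
  rw [natCast_zsmul]
  exact h.nsmul ha k

theorem IsCone.sum {Q : Set H} (h : IsCone Q) (n : ℕ) (f : ℕ → H) (hf : ∀ i < n, f i ∈ Q) :
    ∑ i ∈ Finset.range n, f i ∈ Q := by
  induction n with
  | zero => rw [Finset.sum_range_zero]; exact h.zero
  | succ k ih =>
    rw [Finset.sum_range_succ]
    exact h.add _ (ih fun i hi => hf i (Nat.lt_succ_of_lt hi)) _ (hf k (Nat.lt_succ_self k))

open Classical in
/-- The `e`-th function is the indicator of `Q` along the evaluation of words at `x`. -/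
def Ind (e : ℕ) (x : ℕ → H) (Q : Set H) : Prop :=
  ∀ m : List ℤ, (if ev m x ∈ Q then 1 else 0) ∈
    Code.eval (Denumerable.ofNat Code e) (Encodable.encode m)

/-- The vanishing of the word `W` kills the requirement `e`. -/
def Kill (H : Type) [AddCommGroup H] (e : ℕ) (W : List ℤ) : Prop :=
  ∀ (x : ℕ → H) (Q : Set H), IsCone Q → Ind e x Q → x 0 ≠ 0 → ev W x ≠ 0

theorem Ind.qs_mem {e : ℕ} {x : ℕ → H} {Q : Set H} (hQ : IsCone Q) (h : Ind e x Q) {c : ℕ}
    {m : List ℤ} (hm : (pv c e m).isSome = true) : qs c e m • ev m x ∈ Q := by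
  obtain ⟨v, hv⟩ := Option.isSome_iff_exists.1 hm
  have h1 := Code.evaln_sound (Option.mem_def.2 hv)
  have h2 := Part.mem_unique (h m) h1
  unfold qs
  by_cases hin : ev m x ∈ Q
  · rw [if_pos hin] at h2
    rw [hv, ← h2, if_pos rfl, one_smul]
    exact hin
  · rw [if_neg hin] at h2
    rw [hv, ← h2, if_neg (by simp), neg_one_zsmul]
    exact (hQ.tot _).resolve_left hin

theorem qs_cases (c e : ℕ) (m : List ℤ) : qs c e m = 1 ∨ qs c e m = -1 := by
  unfold qs
  by_cases h : pv c e m = some 1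
  · left; rw [if_pos h]
  · right; rw [if_neg h]

theorem qs_mul_self (c e : ℕ) (m : List ℤ) : qs c e m * qs c e m = 1 := by
  rcases qs_cases c e m with h | h <;> rw [h] <;> norm_num

/-- The full invariant. -/
structure FInv (ν : ℕ ≃ H) (d1 d2 : ℕ) (s : St) : Prop extends Inv ν s where
  hd1 : (su s).getD 0 0 = d1
  hd2 : (su s).getD 1 0 = d2
  least : ∀ j, 2 ≤ j → j < rk s → ∀ J,
    (∀ (z : ℕ) (l : List ℤ), l.length ≤ j → (z + 1) • ν J ≠ ev l (bb ν s)) →
    (su s).getD ((sg s).getD j 0) 0 ≤ J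
  done : ∀ e ∈ sd s, ∃ W : List ℤ, W.length ≤ sc s + 2 ∧ (∀ j, wc s W j = 0) ∧ Kill H e W

variable {ν : ℕ ≃ H} {d1 d2 : ℕ} {s s' : St}

theorem FInv.bb0 (hF : FInv ν d1 d2 s) : bb ν s 0 = ν d1 := by
  unfold bb uH
  rw [hF.g0, hF.hd1]

theorem FInv.bb1 (hF : FInv ν d1 d2 s) : bb ν s 1 = ν d2 := by
  unfold bb uH
  rw [hF.g1, hF.hd2]

theorem ready2_rk {e : ℕ} (h : ready2 s e) : e + 3 ≤ rk s := by
  obtain ⟨⟨i, hi, hd⟩, hn⟩ := h
  by_contra hlt
  apply hn
  refine ⟨i, hi, hd, ?_⟩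
  intro j hj hj2
  omega

theorem gdrop_rk (hd : ∀ a b : ℤ, a • ν d1 + b • ν d2 = 0 → a = 0 ∧ b = 0)
    (hF : FInv ν d1 d2 s) (h : gdrop ν s) : 3 ≤ rk s := by
  rcases h with ⟨i, hi, h0, j, hj, hne⟩ | ⟨e, _, h2 | ⟨_, h1⟩⟩
  · by_contra hlt
    have h2 : rk s = 2 := by have := hF.rk2; omega
    have hm : (wd i).length ≤ sc s + 2 := (length_wd_le i).trans (by omega)
    have h3 := hF.toInv.wh_eq hm
    rw [h0, smul_zero, h2, Finset.sum_range_succ, Finset.sum_range_succ, Finset.sum_range_zero,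
      zero_add, hF.bb0, hF.bb1] at h3
    obtain ⟨ha, hb⟩ := hd _ _ h3.symm
    rw [h2] at hj
    interval_cases j
    · exact hne ha
    · exact hne hb
  · have := ready2_rk h2; omega
  · omega

/-- A certificate always exists. -/
theorem chk_exists (htf : ∀ (n : ℕ) (x : H), n ≠ 0 → n • x = 0 → x = 0)
    (hd : ∀ a b : ℤ, a • ν d1 + b • ν d2 = 0 → a = 0 ∧ b = 0)
    (hF : FInv ν d1 d2 s) : ∃ y, Chk ν s y := by
  by_cases hg : gdrop ν s
  · obtain ⟨s', D, h1, h2⟩ := exists_drop hF.toInv (gdrop_rk hd hF hg) (sd s)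
    exact ⟨(s', 0, D, 0), Or.inl ⟨hg, h1, h2⟩⟩
  by_cases hs : sdrop s
  · obtain ⟨s', D, i, Kx, h1, h2, h3⟩ := exists_special hF.toInv hs ((rk s - 3) :: sd s)
    exact ⟨(s', i, D, Kx), Or.inr (Or.inl ⟨hg, hs, h1, h2, h3⟩)⟩
  by_cases hc : cov ν s
  · obtain ⟨i0, _, hi0⟩ := hc.2
    obtain ⟨s', i, h⟩ := exists_cover hF.toInv ⟨i0, hi0⟩
    exact ⟨(s', i, [], 0), Or.inr (Or.inr (Or.inl ⟨hg, hs, hc, h⟩))⟩
  · obtain ⟨s', J, h⟩ := exists_append hF.toInv htf
    exact ⟨(s', J, [], 0), Or.inr (Or.inr (Or.inr ⟨hg, hs, hc, h⟩))⟩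

/-- The parts of the full invariant other than the done part are preserved by drops. -/
theorem drop_finv (hF : FInv ν d1 d2 s) {D : List ℤ} (h : dropRel ν s s' D) (h3 : 3 ≤ rk s)
    (hdone : ∀ e ∈ sd s', e ∈ sd s ∨
      ∃ W : List ℤ, W.length ≤ sc s + 2 ∧ (∀ j, wc s' W j = 0) ∧ Kill H e W) :
    FInv ν d1 d2 s' := by
  have hI' := drop_inv hF.toInv h h3
  have hsc : sc s' = sc s := h.2.1
  have hrk : rk s' + 1 = rk s := h.2.2.2.2.2.1
  have hb0 := (drop_bb hF.toInv h (j := 0) (by omega)).2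
  have hb1 := (drop_bb hF.toInv h (j := 1) (by omega)).2
  rw [hI'.g0, hF.g0] at hb0
  rw [hI'.g1, hF.g1] at hb1
  refine { toInv := hI', hd1 := hb0.trans hF.hd1, hd2 := hb1.trans hF.hd2, least := ?_,
           done := ?_ }
  · intro j hj2 hj J hJ
    rw [(drop_bb hF.toInv h hj).2]
    apply hF.least j hj2 (by omega) J
    intro z l hl hzl
    apply hJ z l hl
    rw [hzl]
    apply ev_congr
    intro i hi
    exact ((drop_bb hF.toInv h (j := i) (by omega)).1).symm
  · intro e he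
    rcases hdone e he with h1 | h1
    · obtain ⟨W, hW, hz, hk⟩ := hF.done e h1
      exact ⟨W, by rw [hsc]; exact hW,
        drop_zero hF.toInv h hW (fun j _ => hz j), hk⟩
    · rw [hsc]; exact h1

theorem kill_of_spec (htf : ∀ (n : ℕ) (x : H), n ≠ 0 → n • x = 0 → x = 0)
    (hF : FInv ν d1 d2 s) {D : List ℤ} (h : dropRel ν s s' D) (h3 : 3 ≤ rk s) {i : ℕ} {Kx : ℤ}
    (hs : ready1 s (rk s - 3)) (hsp : specRel s s' i Kx) :
    ∃ W : List ℤ, W.length ≤ sc s + 2 ∧ (∀ j, wc s' W j = 0) ∧ Kill H (rk s - 3) W := by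
  have hI := hF.toInv
  have hI' := drop_inv hI h h3
  have hsc : sc s' = sc s := h.2.1
  have hN : sN s' = sN s := h.2.2.1
  have hrk : rk s' + 1 = rk s := h.2.2.2.2.2.1
  have hg' : ∀ j < rk s', (sg s').getD j 0 = (sg s).getD j 0 := h.2.2.2.2.2.2.1
  obtain ⟨hi, ⟨hdis, hlow, _⟩, hKx, hneg⟩ := hsp
  obtain ⟨hwl, hsx, hs1, hne⟩ := hdis
  obtain ⟨_, _, _, hall⟩ := hs
  set e := rk s - 3 with he
  have he3 : e + 3 = rk s := by omega
  set c := sc s with hc
  set p := rk s' with hp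
  set σ : ℕ → ℤ := fun j => qs c e (unitw ((sg s).getD j 0)) with hσ
  set σx := qs c e (wd i) with hσx
  set a : ℕ → ℤ := fun j => ent s' ((sg s).getD p 0) j with ha
  set b : ℕ → ℤ := fun j => wc s (wd i) j with hb
  -- the coefficients
  set K : ℕ → ℤ := fun j => - (σ j * (σ p * a j + Kx * σx * b j)) with hK
  have hKpos : ∀ j < p, 0 < K j := by
    intro j hj
    have := hneg j hj
    show 0 < - (σ j * (σ p * a j + Kx * σx * b j))
    linarith
  have hxlen : (wd i).length ≤ c + 2 := (length_wd_le i).trans (by omega)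
  have hglen : ∀ j < rk s, (unitw ((sg s).getD j 0)).length ≤ c + 2 := by
    intro j hj
    rw [length_unitw]
    have := (hI.pos j hj).1
    omega
  obtain ⟨Ws, hWs, hWs2⟩ := exists_sumW p (fun j => mulW (K j * σ j) (unitw ((sg s).getD j 0)))
    (c + 2) (fun j hj => by
      show (mulW _ _).length ≤ _
      rw [length_mulW]; exact hglen j (by omega))
  set W := addW (addW (mulW (sN s * σ p) (unitw ((sg s).getD p 0)))
    (mulW (sN s * (Kx * σx)) (wd i))) Ws with hW
  refine ⟨W, ?_, ?_, ?_⟩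
  · rw [hW, length_addW, length_addW, length_mulW, length_mulW]
    exact max_le (max_le (hglen p (by omega)) hxlen) hWs
  · intro j
    by_cases hj : j < p
    · have h1 : wc s' (wd i) j = b j := by
        have hz : wc s (wd i) p = 0 := hlow p (by omega) (by omega)
        exact (drop_low hI h hxlen hz).1 j
      have h2 : wc s' Ws j = K j * σ j * sN s := by
        have h4 : wc s' Ws j = ∑ l ∈ Finset.range p, ev (mulW (K l * σ l)
            (unitw ((sg s).getD l 0))) (fun i => ent s' i j) := hWs2 ℤ _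
        rw [h4, Finset.sum_eq_single j]
        · rw [ev_mulW, ev_unitw, smul_eq_mul, ← hg' j hj, hI'.ent_g hj, if_pos rfl, hN]
        · intro l hl hlj
          rw [Finset.mem_range] at hl
          rw [ev_mulW, ev_unitw, ← hg' l hl, hI'.ent_g hl, if_neg (Ne.symm hlj), smul_zero]
        · intro hnj
          exact absurd (Finset.mem_range.2 hj) hnj
      rw [hW, wc_addW, wc_addW, wc_mulW, wc_mulW, wc_unitw, h1, h2]
      show sN s * σ p * a j + sN s * (Kx * σx) * b j +
        -(σ j * (σ p * a j + Kx * σx * b j)) * σ j * sN s = 0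
      have h5 : σ j * σ j = 1 := qs_mul_self _ _ _
      linear_combination (-(sN s * (σ p * a j + Kx * σx * b j))) * h5
    · apply hI'.wc_zero
      · rw [hW, length_addW, length_addW, length_mulW, length_mulW, hsc]
        exact max_le (max_le (hglen p (by omega)) hxlen) hWs
      · exact not_lt.1 hj
  · intro x Q hQ hInd hx0 hW0
    have t1 : (sN s * σ p) • x ((sg s).getD p 0) ∈ Q := by
      have := hInd.qs_mem hQ (c := c) (m := unitw ((sg s).getD p 0)) (hall p (by omega))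
      rw [ev_unitw] at this
      rw [mul_smul]
      exact hQ.zsmul this hI.Npos.le
    have t2 : (sN s * (Kx * σx)) • ev (wd i) x ∈ Q := by
      have := hInd.qs_mem hQ (c := c) (m := wd i) hsx
      rw [← mul_assoc, mul_smul]
      exact hQ.zsmul this (mul_pos hI.Npos hKx).le
    have t3 : ∀ j < p, (K j * σ j) • x ((sg s).getD j 0) ∈ Q := by
      intro j hj
      have := hInd.qs_mem hQ (c := c) (m := unitw ((sg s).getD j 0)) (hall j (by omega))
      rw [ev_unitw] at this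
      rw [mul_smul]
      exact hQ.zsmul this (hKpos j hj).le
    have h4 : ev Ws x = ∑ l ∈ Finset.range p, (K l * σ l) • x ((sg s).getD l 0) := by
      rw [hWs2 H x]
      apply Finset.sum_congr rfl
      intro l _
      rw [ev_mulW, ev_unitw]
    obtain ⟨p', hp'⟩ : ∃ p', p = p' + 1 := ⟨p - 1, by omega⟩
    rw [hW, ev_addW, ev_addW, ev_mulW, ev_mulW, ev_unitw, h4, hp', Finset.sum_range_succ'] at hW0
    rw [hp'] at t1 t3
    have t4 := hQ.sum p' (fun l => (K (l + 1) * σ (l + 1)) • x ((sg s).getD (l + 1) 0))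
      (fun l hl => t3 (l + 1) (by omega))
    have t5 := t3 0 (by omega)
    have t6 := hQ.add _ (hQ.add _ t1 _ t2) _ t4
    have t7 : (K 0 * σ 0) • x ((sg s).getD 0 0) = 0 := by
      apply hQ.anti _ t5
      have h8 : -((K 0 * σ 0) • x ((sg s).getD 0 0)) =
          (sN s * σ (p' + 1)) • x ((sg s).getD (p' + 1) 0) + (sN s * (Kx * σx)) • ev (wd i) x +
          ∑ l ∈ Finset.range p', (K (l + 1) * σ (l + 1)) • x ((sg s).getD (l + 1) 0) := by
        symm
        apply eq_neg_of_add_eq_zero_left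
        rw [← hW0]
        abel
      rw [h8]
      exact t6
    rw [hI.g0] at t7
    have h9 : K 0 * σ 0 ≠ 0 := by
      apply mul_ne_zero (hKpos 0 (by omega)).ne'
      rcases qs_cases c e (unitw ((sg s).getD 0 0)) with hq | hq
      · show qs c e (unitw ((sg s).getD 0 0)) ≠ 0
        rw [hq]; norm_num
      · show qs c e (unitw ((sg s).getD 0 0)) ≠ 0
        rw [hq]; norm_num
    apply hx0
    have h10 : (K 0 * σ 0).natAbs • x 0 = 0 := by
      rcases Int.natAbs_eq (K 0 * σ 0) with h | h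
      · rw [h] at t7
        rwa [natCast_zsmul] at t7
      · rw [h, neg_smul, natCast_zsmul, neg_eq_zero] at t7
        exact t7
    exact htf _ _ (Int.natAbs_ne_zero.2 h9) h10

theorem cov_finv (hF : FInv ν d1 d2 s) {i : ℕ} (h : covRel ν s s' i) : FInv ν d1 d2 s' := by
  have hI' := cov_inv hF.toInv h
  have hsc : sc s' = sc s + 1 := h.2.2.2.2.1
  have hrk : rk s' = rk s := by
    obtain ⟨_, _, _, _, _, _, _, _, h1, _⟩ := h
    exact h1
  have hsd : sd s' = sd s := by
    obtain ⟨_, _, _, _, _, _, _, _, _, _, h1, _⟩ := h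
    exact h1
  have hr2 := hF.rk2
  have hb0 := (cov_bb hF.toInv h (j := 0) (by omega)).2
  have hb1 := (cov_bb hF.toInv h (j := 1) (by omega)).2
  rw [hI'.g0, hF.g0] at hb0
  rw [hI'.g1, hF.g1] at hb1
  refine { toInv := hI', hd1 := hb0.trans hF.hd1, hd2 := hb1.trans hF.hd2, least := ?_,
           done := ?_ }
  · intro j hj2 hj J hJ
    rw [hrk] at hj
    rw [(cov_bb hF.toInv h hj).2]
    apply hF.least j hj2 (by omega) J
    intro z l hl hzl
    apply hJ z l hl
    rw [hzl]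
    apply ev_congr
    intro i hi
    exact ((cov_bb hF.toInv h (j := i) (by omega)).1).symm
  · intro e he
    rw [hsd] at he
    obtain ⟨W, hW, hz, hk⟩ := hF.done e he
    refine ⟨W, by rw [hsc]; omega, ?_, hk⟩
    intro j
    rw [(cov_wc hF.toInv h hW).1 j, hz j, mul_zero]

theorem app_finv (hF : FInv ν d1 d2 s) {J : ℕ} (h : appRel ν s s' J) : FInv ν d1 d2 s' := by
  have hI' := app_inv hF.toInv h
  have hsc : sc s' = sc s + 1 := h.2.2.2.2.1
  have hrk : rk s' = rk s + 1 := by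
    obtain ⟨_, _, _, _, _, _, _, _, h1, _⟩ := h
    exact h1
  have hsd : sd s' = sd s := by
    obtain ⟨_, _, _, _, _, _, _, _, _, _, _, h1, _⟩ := h
    exact h1
  have hr2 := hF.rk2
  have hb0 := (app_bb hF.toInv h (j := 0) (by omega)).2
  have hb1 := (app_bb hF.toInv h (j := 1) (by omega)).2
  rw [hI'.g0, hF.g0] at hb0
  rw [hI'.g1, hF.g1] at hb1
  refine { toInv := hI', hd1 := hb0.trans hF.hd1, hd2 := hb1.trans hF.hd2, least := ?_,
           done := ?_ }
  · intro j hj2 hj J' hJ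
    rw [hrk] at hj
    rcases Nat.lt_succ_iff_lt_or_eq.1 hj with hj | hj
    · rw [(app_bb hF.toInv h hj).2]
      apply hF.least j hj2 (by omega) J'
      intro z l hl hzl
      apply hJ z l hl
      rw [hzl]
      apply ev_congr
      intro i hi
      exact ((app_bb hF.toInv h (j := i) (by omega)).1).symm
    · subst hj
      rw [(app_bb_new hF.toInv h).2]
      by_contra hlt
      obtain ⟨i, _, hrel⟩ := h.2.1 J' (not_le.1 hlt)
      apply hJ (rl i).1 (rl i).2 hrel.1
      rw [hrel.2]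
      apply ev_congr
      intro i hi
      exact ((app_bb hF.toInv h (j := i) (lt_of_lt_of_le hi hrel.1)).1).symm
  · intro e he
    rw [hsd] at he
    obtain ⟨W, hW, hz, hk⟩ := hF.done e he
    refine ⟨W, by rw [hsc]; omega, ?_, hk⟩
    intro j
    rw [(app_wc hF.toInv h hW).1 j, hz j]

/-- The full invariant is preserved. -/
theorem chk_finv (htf : ∀ (n : ℕ) (x : H), n ≠ 0 → n • x = 0 → x = 0)
    (hd : ∀ a b : ℤ, a • ν d1 + b • ν d2 = 0 → a = 0 ∧ b = 0)
    (hF : FInv ν d1 d2 s) {y : Cert} (h : Chk ν s y) : FInv ν d1 d2 y.1 := by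
  rcases h with ⟨hg, h1, h2⟩ | ⟨_, hs, h1, h2, h3⟩ | ⟨_, _, _, h1⟩ | ⟨_, _, _, h1⟩
  · exact drop_finv hF h1 (gdrop_rk hd hF hg) (fun e he => Or.inl (by rw [h2] at he; exact he))
  · refine drop_finv hF h1 hs.1 (fun e he => ?_)
    rw [h3] at he
    rcases List.mem_cons.1 he with he | he
    · right
      rw [he]
      exact kill_of_spec htf hF h1 hs.1 hs.2 h2
    · exact Or.inl he
  · exact cov_finv hF h1
  · exact app_finv hF h1

end Pool.Agent.Helper578.OG
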