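import Pool.Agent.Helper578.OG.Lim

/-! The only computable orders are the constructed one and its inverse. -/

namespace Pool.Agent.Helper578.OG

open Nat.Partrec (Code)

variable {H : Type} [AddCommGroup H] {ν : ℕ ≃ H} {d1 d2 : ℕ} {S : ℕ → St}
  {U : ℕ → ℕ} {σ : List ℤ → ℤ}

theorem Ind.qs_iff {e : ℕ} {x : ℕ → H} {Q : Set H} (h : Ind e x Q) {c : ℕ}
    {m : List ℤ} (hm : (pv c e m).isSome = true) : qs c e m = 1 ↔ ev m x ∈ Q := by
  obtain ⟨v, hv⟩ := Option.isSome_iff_exists.1 hm
  have h1 := Code.evaln_sound (Option.mem_def.2 hv)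
  have h2 := Part.mem_unique (h m) h1
  unfold qs
  by_cases hin : ev m x ∈ Q
  · rw [if_pos hin] at h2
    rw [hv, ← h2, if_pos rfl]
    exact iff_of_true rfl hin
  · rw [if_neg hin] at h2
    rw [hv, ← h2, if_neg (by simp)]
    exact iff_of_false (by norm_num) hin

theorem Ind.some {e : ℕ} {x : ℕ → H} {Q : Set H} (h : Ind e x Q) (m : List ℤ) :
    ∃ c0, ∀ c, c0 ≤ c → (pv c e m).isSome = true := by
  obtain ⟨c0, hc0⟩ := Code.evaln_complete.1 (h m)
  refine ⟨c0, fun c hc => ?_⟩
  have h1 : (pv c0 e m).isSome = true := by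
    unfold pv
    rw [Option.mem_def.1 hc0]
    rfl
  rw [pv_mono hc h1]
  exact h1

theorem exists_common (n : ℕ) (P : ℕ → ℕ → Prop) (h : ∀ j < n, ∃ c0, ∀ c, c0 ≤ c → P j c) :
    ∃ c0, ∀ c, c0 ≤ c → ∀ j < n, P j c := by
  induction n with
  | zero => exact ⟨0, fun _ _ j hj => absurd hj (Nat.not_lt_zero j)⟩
  | succ n ih =>
    obtain ⟨M, hM⟩ := ih (fun J hJ => h J (Nat.lt_succ_of_lt hJ))
    obtain ⟨c1, hc1⟩ := h n (Nat.lt_succ_self n)
    refine ⟨max M c1, fun c hc j hj => ?_⟩
    rcases Nat.lt_succ_iff_lt_or_eq.1 hj with hj | hj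
    · exact hM c ((le_max_left _ _).trans hc) j hj
    · rw [hj]
      exact hc1 c ((le_max_right _ _).trans hc)

theorem Run.x_zero (R : Run ν d1 d2 S) (hU : IsLim S U) : U 0 = d1 := by
  obtain ⟨T, hT⟩ := hU 0
  rw [← (hT T le_rfl).2]
  exact (R.finv T).hd1

/-- No disagreement for indicators of orders. -/
theorem Run.no_dis (R : Run ν d1 d2 S) (hd : ν d1 ≠ 0) (hU : IsLim S U) (hσ : IsSg S σ) {e : ℕ}
    {Q : Set H} (hQ : IsCone Q) (hI : Ind e (fun i => ν (U i)) Q) (m : List ℤ) (hm : 0 < σ m)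
    (hne : ¬ (ev m (fun i => ν (U i)) ∈ Q ↔ ν d1 ∈ Q)) : False := by
  have hx0 : (fun i => ν (U i)) 0 = ν d1 := by
    show ν (U 0) = ν d1
    rw [R.x_zero hU]
  have hev1 : ev [1] (fun i => ν (U i)) = ν d1 := by
    rw [← unitw_zero, ev_unitw]
    exact hx0
  obtain ⟨T, hT⟩ := R.liminf (e + 3)
  obtain ⟨c1, hc1⟩ := hI.some m
  obtain ⟨c2, hc2⟩ := hI.some [1]
  obtain ⟨c3, hc3⟩ := exists_common (e + 3)
    (fun j c => (pv c e (unitw ((sg (S T)).getD j 0))).isSome = true)
    (fun j _ => hI.some _)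
  obtain ⟨t, ht, hN, hc⟩ := R.exists_N_large T (c1 + c2 + c3 + Encodable.encode m + e + 1)
  set s := S t with hs
  have hF := R.finv t
  rw [← hs] at hF
  have hInv := hF.toInv
  have hwl : 0 < wl s m := by
    have h1 := hσ m t (by rw [← hs]; omega)
    rw [← Int.sign_pos_iff, h1]
    exact hm
  -- a disagreement is known
  have hdis : dis s e (Encodable.encode m) := by
    refine ⟨by rw [wd_encode]; exact hwl, by rw [wd_encode]; exact hc1 _ (by omega),
      hc2 _ (by omega), ?_⟩
    rw [wd_encode]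
    intro heq
    apply hne
    rw [← hI.qs_iff (hc1 (sc s) (by omega)), heq, hI.qs_iff (hc2 (sc s) (by omega)), hev1]
  -- so there is one of low level
  have hlow : ∃ i < sc s, dis s e i ∧ low s (wd i) (e + 2) := by
    by_contra hno
    apply hN.1
    right
    exact ⟨e, by omega, Or.inl ⟨⟨_, by omega, hdis⟩, hno⟩⟩
  obtain ⟨i, hi, hdi, hli⟩ := hlow
  have hmi : (wd i).length ≤ sc s + 2 := (length_wd_le i).trans (by omega)
  -- it is not a multiple of the first position
  have hnm : ∃ j < rk s, 1 ≤ j ∧ wc s (wd i) j ≠ 0 := by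
    by_contra hno
    push Not at hno
    set W := addW (mulW (sN s) (wd i)) (mulW (- wc s (wd i) 0) [1]) with hW
    have hWl : W.length ≤ sc s + 2 := by
      rw [hW, length_addW, length_mulW, length_mulW]
      exact max_le hmi (by simp)
    have hr2 := hInv.rk2
    have h0 : ∀ j, wc s W j = 0 := by
      intro j
      rw [hW, wc_addW, wc_mulW, wc_mulW, ← unitw_zero, wc_unitw]
      have h1 : ent s 0 j = if j = 0 then sN s else 0 := by
        have := hInv.ent_g (j := 0) (by omega) j
        rw [hInv.g0] at this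
        exact this
      rw [h1]
      rcases Nat.eq_zero_or_pos j with hj | hj
      · rw [hj, if_pos rfl]; ring
      · rw [if_neg (by omega)]
        by_cases hjr : j < rk s
        · rw [hno j hjr hj]; ring
        · rw [hInv.wc_zero hmi (not_lt.1 hjr)]; ring
    have h1 := R.zero_lim hU (t := t) hWl h0
    rw [hW, ev_addW, ev_mulW, ev_mulW, hev1, neg_smul] at h1
    have h2 : sN s • ev (wd i) (fun i => ν (U i)) = wc s (wd i) 0 • ν d1 :=
      add_neg_eq_zero.1 h1
    have h3 : 0 < wc s (wd i) 0 := by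
      have h4 := hdi.1
      rw [wl_eq] at h4
      have hlen : 0 < (sr s).length := by
        by_contra hlen
        have h5 := hInv.rho
        rw [List.getD_eq_default _ _ (by omega)] at h5
        exact lt_irrefl _ h5
      rw [Finset.sum_eq_single 0] at h4
      · exact (mul_pos_iff_of_pos_left hInv.rho).1 h4
      · intro j _ hj
        by_cases hjr : j < rk s
        · rw [hno j hjr (by omega), mul_zero]
        · rw [hInv.wc_zero hmi (not_lt.1 hjr), mul_zero]
      · intro hnot
        exact absurd (Finset.mem_range.2 hlen) hnot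
    have h5 : ∀ {k : ℤ} {y : H}, 0 < k → (k • y ∈ Q ↔ y ∈ Q) := by
      intro k y hk
      constructor
      · intro hky
        rcases hQ.tot y with h | h
        · exact h
        · have h6 := hQ.zsmul h hk.le
          rw [smul_neg] at h6
          have h7 := hQ.anti _ hky h6
          have h8 := R.zsmul_eq_zero hk.ne' h7
          rw [h8]
          exact hQ.zero
      · intro hy
        exact hQ.zsmul hy hk.le
    obtain ⟨_, hsi, hs1, hqne⟩ := hdi
    apply hqne
    have h6 : ev (wd i) (fun i => ν (U i)) ∈ Q ↔ ev [1] (fun i => ν (U i)) ∈ Q := by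
      rw [hev1, ← h5 hInv.Npos, h2, h5 h3]
    rw [← hI.qs_iff hsi, ← hI.qs_iff hs1] at h6
    rcases qs_cases (sc s) e (wd i) with h7 | h7 <;>
      rcases qs_cases (sc s) e [1] with h8 | h8
    · rw [h7, h8]
    · rw [h7, h8] at h6; norm_num at h6
    · rw [h7, h8] at h6; norm_num at h6
    · rw [h7, h8]
  -- all values at the positions are known
  have hall : ∀ j < e + 3, (pv (sc s) e (unitw ((sg s).getD j 0))).isSome = true := by
    intro j hj
    rw [hs, (R.sg_const hT ht hj).1]
    exact hc3 _ (by rw [← hs]; omega) j hj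
  have hrk : e + 3 ≤ rk s := hT t ht
  by_cases hsd : e ∈ sd s
  · obtain ⟨W, hWl, hW0, hK⟩ := hF.done e hsd
    exact hK _ Q hQ hI (fun h => hd (hx0.symm.trans h)) (R.zero_lim hU (t := t) hWl hW0)
  · have hr1 : ready1 s e := ⟨(notmem_iff _ _).2 hsd, hrk, ⟨i, hi, hdi, hli, hnm⟩, hall⟩
    rcases Nat.lt_or_ge (e + 3) (rk s) with h | h
    · apply hN.1
      right
      exact ⟨e, by omega, Or.inr ⟨hr1, h⟩⟩
    · apply hN.2
      have h1 : rk s - 3 = e := by omega
      refine ⟨by omega, ?_⟩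
      rw [h1]
      exact hr1

/-- Orders with computable indicator. -/
theorem Run.only_two (R : Run ν d1 d2 S) (hd : ν d1 ≠ 0) (hU : IsLim S U) (hσ : IsSg S σ)
    {e : ℕ} {Q : Set H} (hQ : IsCone Q) (hI : Ind e (fun i => ν (U i)) Q) :
    Q = PP ν U σ ∨ ∀ a, a ∈ Q ↔ -a ∈ PP ν U σ := by
  have hP := hσ.cone R hU
  have key : ∀ m : List ℤ, 0 < σ m → (ev m (fun i => ν (U i)) ∈ Q ↔ ν d1 ∈ Q) := by
    intro m hm
    by_contra hne
    exact R.no_dis hd hU hσ hQ hI m hm hne
  have cone_eq : ∀ {A B : Set H}, IsCone A → IsCone B → (∀ a ∈ A, a ∈ B) → A = B := by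
    intro A B hA hB h
    apply Set.Subset.antisymm h
    intro b hb
    rcases hA.tot b with h1 | h1
    · exact h1
    · have h2 := hB.anti b hb (h _ h1)
      rw [h2]
      exact hA.zero
  by_cases h1 : ν d1 ∈ Q
  · left
    symm
    apply cone_eq hP hQ
    rintro a ⟨m, rfl, hm⟩
    rcases lt_or_eq_of_le hm with h2 | h2
    · exact (key m h2).2 h1
    · have h3 := (hσ.zero_iff R hU m).1 h2.symm
      rw [h3]
      exact hQ.zero
  · right
    have hQ' : IsCone {a | -a ∈ Q} := by
      refine ⟨?_, ?_, ?_⟩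
      · intro a ha b hb
        show -(a + b) ∈ Q
        rw [neg_add]
        exact hQ.add _ ha _ hb
      · intro a ha hb
        have hb' : -(-a) ∈ Q := hb
        have := hQ.anti (-a) ha hb'
        exact neg_eq_zero.1 this
      · intro a
        exact hQ.tot (-a)
    have h2 : PP ν U σ = {a | -a ∈ Q} := by
      apply cone_eq hP hQ'
      rintro a ⟨m, rfl, hm⟩
      show -(ev m fun i => ν (U i)) ∈ Q
      rcases lt_or_eq_of_le hm with h2 | h2
      · have h3 := fun h => h1 ((key m h2).1 h)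
        exact (hQ.tot _).resolve_left h3
      · have h3 := (hσ.zero_iff R hU m).1 h2.symm
        rw [h3, neg_zero]
        exact hQ.zero
    intro a
    rw [h2]
    show a ∈ Q ↔ -(-a) ∈ Q
    rw [neg_neg]

end Pool.Agent.Helper578.OG
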